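import Pool.Agent.Work.MP_7453a1_ld.Interface

set_option autoImplicit false

/-! # Block CEA (helper17) -/

namespace Pool.LD

open Finset

theorem p_CEA (hLNM : Stmt_LNM) : Stmt_CEA := by
  intro m F ε Θ hF hC
  obtain ⟨l1, l2, l3⟩ := hLNM (m + 1) (by omega)
  have hε := hF.pos
  have hL : (0 : ℝ) < L (m + 1) := by linarith
  have hq := hF.bas.q_pos
  have hm : (0 : ℝ) < (m : ℝ) + 1 := by positivity
  refine ⟨?_, ?_⟩
  · intro k l
    have h1 : er Θ (F.f k) l - ε * pat m k l = (F.E k l - ε * pat m k l) +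
        F.u k * (Θ l - F.ctr l) := by
      unfold Fr.E er Fr.u
      ring
    have h2 : |F.E k l - ε * pat m k l| ≤ 70 * (m + 1) / L (m + 1) * ε := hF.cl k l
    have h3 := hC l
    have h4 : |F.u k * (Θ l - F.ctr l)| ≤ ((m : ℝ) + 1) / L (m + 1) * ε := by
      rw [abs_mul, abs_of_nonneg (hF.bas.u_nonneg k)]
      have h5 := hF.small k
      have h6 : F.u k ≤ 3 * F.q / L (m + 1) := by
        rw [le_div_iff₀ hL]
        linarith
      calc F.u k * |Θ l - F.ctr l|
          ≤ 3 * F.q / L (m + 1) * (4 * (m + 1) * ε / (L (m + 1) * F.q)) :=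
            mul_le_mul h6 h3 (abs_nonneg _) (by positivity)
        _ = (12 / L (m + 1)) * (((m : ℝ) + 1) / L (m + 1) * ε) := by
            field_simp
            ring
        _ ≤ 1 * (((m : ℝ) + 1) / L (m + 1) * ε) := by
            apply mul_le_mul_of_nonneg_right _ (by positivity)
            rw [div_le_one hL]
            linarith
        _ = _ := one_mul _
    rw [h1]
    refine (abs_add_le _ _).trans ?_
    have h7 : 71 * ((m : ℝ) + 1) / L (m + 1) * ε = 70 * (m + 1) / L (m + 1) * ε +
        ((m : ℝ) + 1) / L (m + 1) * ε := by ring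
    rw [h7]
    linarith
  · intro l
    have h1 : er Θ F.v l = F.q * (Θ l - F.ctr l) := by
      unfold er Fr.ctr
      unfold Fr.q at hq ⊢
      field_simp
    rw [h1, abs_mul, abs_of_pos hq]
    calc F.q * |Θ l - F.ctr l| ≤ F.q * (4 * (m + 1) * ε / (L (m + 1) * F.q)) :=
          mul_le_mul_of_nonneg_left (hC l) hq.le
      _ = _ := by field_simp

end Pool.LD
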