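import Pool.Agent.Work.MP_7453a1_ld.Interface

set_option autoImplicit false

/-! Block CEB (helper41). -/

namespace Pool.LD

open Finset Filter

/-- sums of errors over a set of axes -/
theorem CEB_sum {m : ℕ} {ε τ : ℝ} (A : Fin (m + 1) → Fin (m + 1) → ℝ) (hε : 0 < ε) (hτ : 0 ≤ τ)
    (hA : ∀ k l, |A k l - ε * pat m k l| ≤ τ * ε) (s : Finset (Fin (m + 1))) (l : Fin (m + 1)) :
    ∑ k ∈ s, |A k l| ≤ ε * ∑ k ∈ s, |pat m k l| + ((m : ℝ) + 1) * τ * ε := by
  have h1 : ∀ k ∈ s, |A k l| ≤ ε * |pat m k l| + τ * ε := by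
    intro k _
    have h2 := hA k l
    have h3 : |A k l| ≤ |A k l - ε * pat m k l| + |ε * pat m k l| := by
      have := abs_add_le (A k l - ε * pat m k l) (ε * pat m k l)
      simpa using this
    rw [abs_mul, abs_of_pos hε] at h3
    linarith
  refine (Finset.sum_le_sum h1).trans ?_
  rw [Finset.sum_add_distrib, ← Finset.mul_sum, Finset.sum_const, nsmul_eq_mul]
  have h4 : (s.card : ℝ) ≤ (m : ℝ) + 1 := by
    have h5 := Finset.card_le_univ s
    rw [Fintype.card_fin] at h5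
    exact_mod_cast h5
  have h6 : 0 ≤ τ * ε := mul_nonneg hτ hε.le
  nlinarith

theorem CEB_sgn {m : ℕ} {σ : Fin (m + 1) → ℤ} (hσ : Sg σ) (k : Fin (m + 1)) :
    |(σ k : ℝ)| = 1 := by
  rcases hσ k with h | h <;> rw [h] <;> simp

theorem CEB_sgn_sum {m : ℕ} {σ : Fin (m + 1) → ℤ} (hσ : Sg σ) (s : Finset (Fin (m + 1)))
    (x : Fin (m + 1) → ℝ) : |∑ k ∈ s, (σ k : ℝ) * x k| ≤ ∑ k ∈ s, |x k| := by
  refine (Finset.abs_sum_le_sum_abs _ _).trans (le_of_eq ?_)
  refine Finset.sum_congr rfl fun k _ => ?_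
  rw [abs_mul, CEB_sgn hσ, one_mul]

theorem p_CEB (hPAT : Stmt_PAT) (hLNM : Stmt_LNM) : Stmt_CEB := by
  intro m ε A B hε hA hB
  obtain ⟨P1, P2, P3, P4, P5, P6, P7⟩ := hPAT m
  obtain ⟨L1, L2, L3⟩ := hLNM (m + 1) (by omega)
  push_cast at L1 L3
  have hL : 0 < L (m + 1) := by linarith
  set N : ℝ := (m : ℝ) + 1 with hN
  have hN1 : 1 ≤ N := by rw [hN]; have : (0 : ℝ) ≤ m := Nat.cast_nonneg m; linarith
  set τ : ℝ := 71 * N / L (m + 1) with hτ
  set β : ℝ := 4 * N / L (m + 1) with hβ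
  have hτ0 : 0 ≤ τ := by rw [hτ]; positivity
  have hβ0 : 0 ≤ β := by rw [hβ]; positivity
  have hNτ : N * τ ≤ 1 / 500 := by
    rw [hτ, ← mul_div_assoc, div_le_iff₀ hL]
    nlinarith
  have hττ : τ ≤ 1 / 500 := by nlinarith
  have hββ : β ≤ 1 / 1000 := by
    rw [hβ, div_le_iff₀ hL]
    nlinarith
  have h3p : (0 : ℝ) < 3 ^ (m + 1) := by positivity
  have h3τ : N * τ + τ < 3 / (10 * 3 ^ (m + 1)) := by
    have h1 : N * τ + τ ≤ 142 * N ^ 2 / L (m + 1) := by
      rw [hτ, ← mul_div_assoc, ← add_div]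
      refine div_le_div_of_nonneg_right ?_ hL.le
      nlinarith
    refine lt_of_le_of_lt h1 ?_
    rw [div_lt_div_iff₀ hL (by positivity)]
    have h2 : 0 < N ^ 2 * 3 ^ (m + 1) := by positivity
    nlinarith
  set z := Fin.last m with hz
  have dbl : ∀ k l, ε * pat m k l - τ * ε ≤ A k l ∧ A k l ≤ ε * pat m k l + τ * ε := by
    intro k l
    have := abs_le.1 (hA k l)
    constructor <;> linarith [this.1, this.2]
  have hB' : ∀ l, -(β * ε) ≤ B l ∧ B l ≤ β * ε := fun l => abs_le.1 (hB l)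
  have hsumA := CEB_sum A hε hτ0 hA
  have hoff0 : ∀ l, l ≠ z → ∑ k ∈ univ.erase l, |pat m k l| = 0 := by
    intro l hl
    refine Finset.sum_eq_zero fun k hk => ?_
    rw [P3 k l (Finset.ne_of_mem_erase hk) hl, abs_zero]
  have hsplit : ∀ (x : Fin (m + 1) → ℝ) (l : Fin (m + 1)),
      ∑ k, x k = x l + ∑ k ∈ univ.erase l, x k := fun x l =>
    (Finset.add_sum_erase univ x (Finset.mem_univ l)).symm
  have hzz : ε * (7 / 5) - τ * ε ≤ A z z ∧ A z z ≤ ε * (7 / 5) + τ * ε := by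
    have := dbl z z
    rwa [P6] at this
  have hsz : ∑ k ∈ univ.erase z, |A k z| ≤ ε * (1 / 20) + N * τ * ε := by
    refine (hsumA _ _).trans ?_
    have := mul_le_mul_of_nonneg_left (P4 z) hε.le
    linarith
  have hNτε : N * τ * ε ≤ 1 / 500 * ε := mul_le_mul_of_nonneg_right hNτ hε.le
  have hτε : τ * ε ≤ 1 / 500 * ε := mul_le_mul_of_nonneg_right hττ hε.le
  have hβε : β * ε ≤ 1 / 1000 * ε := mul_le_mul_of_nonneg_right hββ hε.le
  refine ⟨?_, ?_, ?_⟩
  · intro σ hσ hσz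
    have e1 : B z + ∑ k, (σ k : ℝ) * A k z =
        -(A z z - B z - ∑ k ∈ univ.erase z, (σ k : ℝ) * A k z) := by
      rw [hsplit (fun k => (σ k : ℝ) * A k z) z, hσz]
      push_cast
      ring
    have e2 := abs_le.1 (CEB_sgn_sum hσ (univ.erase z) (fun k => A k z))
    have e3 := hB' z
    have e4 : 13 / 10 * ε ≤ A z z - B z - ∑ k ∈ univ.erase z, (σ k : ℝ) * A k z := by
      linarith [hzz.1, e2.2, e3.2]
    have e5 : A z z - B z - ∑ k ∈ univ.erase z, (σ k : ℝ) * A k z ≤ 3 / 2 * ε := by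
      linarith [hzz.2, e2.1, e3.1]
    have e6 : |B z + ∑ k, (σ k : ℝ) * A k z| =
        A z z - B z - ∑ k ∈ univ.erase z, (σ k : ℝ) * A k z := by
      rw [e1, abs_neg, abs_of_nonneg (by linarith)]
    refine ⟨e6, by rw [e6]; exact e5, fun l => ?_⟩
    by_cases hl : l = z
    · rw [hl]
    · rw [e6]
      refine le_trans ?_ e4
      have f1 := abs_le.1 (CEB_sgn_sum hσ (univ.erase l) (fun k => A k l))
      have f2 := hsumA (univ.erase l) l
      rw [hoff0 l hl, mul_zero, zero_add] at f2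
      have f3 := hB' l
      have f4 := dbl l l
      rw [P5 l hl] at f4
      rw [hsplit (fun k => (σ k : ℝ) * A k l) l]
      rw [abs_le]
      rcases hσ l with h | h
      · rw [h]
        push_cast
        constructor <;> linarith [f1.1, f1.2, f3.1, f3.2, f4.1, f4.2]
      · rw [h]
        push_cast
        constructor <;> linarith [f1.1, f1.2, f3.1, f3.2, f4.1, f4.2]
  · intro a b hab k
    obtain ⟨k₀, -, hk₀⟩ := Finset.exists_max_image (univ : Finset (Fin (m + 1)))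
      (fun k => |(b k : ℝ)|) ⟨k, Finset.mem_univ k⟩
    have g1 : |(b k : ℝ)| ≤ |(b k₀ : ℝ)| := hk₀ k (Finset.mem_univ k)
    have g2 := hab k₀
    rw [hsplit (fun k => (b k : ℝ) * A k k₀) k₀] at g2
    have g3 : |(b k₀ : ℝ) * A k₀ k₀| ≤ 3 / 2 * ε + |(a : ℝ)| * (β * ε) +
        |(b k₀ : ℝ)| * ∑ k ∈ univ.erase k₀, |A k k₀| := by
      have g4 : |∑ k ∈ univ.erase k₀, (b k : ℝ) * A k k₀| ≤
          |(b k₀ : ℝ)| * ∑ k ∈ univ.erase k₀, |A k k₀| := by
        refine (Finset.abs_sum_le_sum_abs _ _).trans ?_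
        rw [Finset.mul_sum]
        refine Finset.sum_le_sum fun k _ => ?_
        rw [abs_mul]
        exact mul_le_mul_of_nonneg_right (hk₀ k (Finset.mem_univ k)) (abs_nonneg _)
      have g5 : |(a : ℝ) * B k₀| ≤ |(a : ℝ)| * (β * ε) := by
        rw [abs_mul]
        exact mul_le_mul_of_nonneg_left (hB k₀) (abs_nonneg _)
      have g6 := abs_le.1 g2
      have g7 := abs_le.1 g4
      have g8 := abs_le.1 g5
      rw [abs_le]
      constructor <;> linarith [g6.1, g6.2, g7.1, g7.2, g8.1, g8.2]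
    rw [abs_mul] at g3
    have g9 : 99 / 100 * ε + ∑ k ∈ univ.erase k₀, |A k k₀| ≤ |A k₀ k₀| := by
      refine le_trans ?_ (le_abs_self _)
      by_cases hk : k₀ = z
      · rw [hk]
        linarith [hzz.1]
      · have f2 := hsumA (univ.erase k₀) k₀
        rw [hoff0 k₀ hk, mul_zero, zero_add] at f2
        have f4 := dbl k₀ k₀
        rw [P5 k₀ hk] at f4
        linarith [f4.1]
    have hb0 : 0 ≤ |(b k₀ : ℝ)| := abs_nonneg _
    have ha0 : 0 ≤ |(a : ℝ)| := abs_nonneg _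
    have g10 := mul_le_mul_of_nonneg_left g9 hb0
    have g11 : |(a : ℝ)| * (β * ε) ≤ |(a : ℝ)| * (1 / 1000 * ε) :=
      mul_le_mul_of_nonneg_left hβε ha0
    have g12 : (99 / 100 * |(b k₀ : ℝ)|) * ε ≤ (3 / 2 + |(a : ℝ)| / 1000) * ε := by
      linarith
    have g13 := le_of_mul_le_mul_right g12 hε
    linarith
  · intro k hk
    have g1 := hsumA (univ.filter (· < k)) z
    have g2 : ∑ l ∈ univ.filter (· < k), |pat m l z| = ∑ l ∈ univ.filter (· < k), pat m l z := by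
      refine Finset.sum_congr rfl fun l hl => ?_
      refine abs_of_nonneg (P2 l z ?_).1
      have h1 : l < k := (Finset.mem_filter.1 hl).2
      exact (lt_of_lt_of_le h1 (Fin.le_last k)).ne
    rw [g2] at g1
    have g3 := mul_le_mul_of_nonneg_left (P7 k hk) hε.le
    have g4 := (dbl k z).1
    have g5 := mul_lt_mul_of_pos_right h3τ hε
    linarith

end Pool.LD
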