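import Pool.Agent.Work.MP_7453a1_ld.Interface

set_option autoImplicit false

/-! # Block CEC: classification of the competitors -/

namespace Pool.LD

open Finset

theorem CEC_add {n : ℕ} (Θ : Fin n → ℝ) (w w' : Pt n) (l : Fin n) :
    er Θ (w + w') l = er Θ w l + er Θ w' l := by
  unfold er
  simp only [Prod.fst_add, Prod.snd_add, Pi.add_apply]
  push_cast
  ring

theorem CEC_smul {n : ℕ} (Θ : Fin n → ℝ) (a : ℤ) (w : Pt n) (l : Fin n) :
    er Θ (a • w) l = a * er Θ w l := by
  unfold er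
  simp only [Prod.smul_fst, Prod.smul_snd, Pi.smul_apply, smul_eq_mul]
  push_cast
  ring

theorem CEC_sum {n : ℕ} {ι : Type} (Θ : Fin n → ℝ) (s : Finset ι) (g : ι → Pt n) (l : Fin n) :
    er Θ (∑ k ∈ s, g k) l = ∑ k ∈ s, er Θ (g k) l := by
  classical
  induction s using Finset.induction_on with
  | empty => simp [er]
  | insert a s ha ih => rw [Finset.sum_insert ha, Finset.sum_insert ha, CEC_add, ih]

theorem p_CEC (hA : Stmt_CEA) (hB : Stmt_CEB) (hL : Stmt_LNM) : Stmt_CEC := by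
  intro m F ε Θ hT hC z hz1 hz2
  obtain ⟨hA1, hA2⟩ := hA m F ε Θ hT hC
  obtain ⟨_, hB2, _⟩ := hB m ε (fun k l => er Θ (F.f k) l) (fun l => er Θ F.v l) hT.pos hA1 hA2
  obtain ⟨a, b, hab, hz⟩ := hT.bas.good.2 z
  have hLn := hL (m + 1) (by omega)
  have hLpos : 0 < L (m + 1) := by linarith [hLn.2.1]
  have hq := hT.bas.q_pos
  -- the errors
  have herr : ∀ l, |(a : ℝ) * er Θ F.v l + ∑ k, (b k : ℝ) * er Θ (F.f k) l| ≤ 3 / 2 * ε := by
    intro l
    have h1 : er Θ (z + z) l = (a : ℝ) * er Θ F.v l + ∑ k, (b k : ℝ) * er Θ (F.f k) l := by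
      rw [hz, CEC_add, CEC_smul, CEC_sum]
      simp only [CEC_smul]
    rw [← h1, CEC_add, ← two_mul, abs_mul, abs_two]
    exact hz2 l
  have hb := hB2 a b herr
  -- the first coordinates
  have h1 : (2 : ℝ) * (z.1 : ℝ) = a * F.q + ∑ k, (b k : ℝ) * F.u k := by
    have h2 := congrArg Prod.fst hz
    simp only [Prod.fst_add, Prod.smul_fst, Prod.fst_sum, smul_eq_mul] at h2
    have h3 : ((z.1 : ℝ) + z.1) = a * F.v.1 + ∑ k, (b k : ℝ) * (F.f k).1 := by exact_mod_cast h2
    unfold Fr.q Fr.u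
    linarith
  have hu : ∀ k, F.u k ≤ 3 * F.q / L (m + 1) := by
    intro k
    rw [le_div_iff₀ hLpos, mul_comm]
    exact hT.small k
  have hM : (1 : ℝ) ≤ ((m + 1 : ℕ) : ℝ) := by exact_mod_cast (by omega : 1 ≤ m + 1)
  have hsmall : ((m + 1 : ℕ) : ℝ) * (3 * F.q / L (m + 1)) ≤ F.q / 10000 := by
    have h4 : ((m + 1 : ℕ) : ℝ) * 40000 ≤ L (m + 1) := by nlinarith [hLn.1]
    rw [← mul_div_assoc, div_le_div_iff₀ hLpos (by norm_num)]
    nlinarith
  have hbk : ∀ k, |(b k : ℝ)| ≤ 2 + |(a : ℝ)| := by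
    intro k
    have := hb k
    have h0 := abs_nonneg (a : ℝ)
    linarith
  have hsum : |∑ k, (b k : ℝ) * F.u k| ≤ (2 + |(a : ℝ)|) * (F.q / 10000) := by
    calc |∑ k, (b k : ℝ) * F.u k| ≤ ∑ k, |(b k : ℝ) * F.u k| := Finset.abs_sum_le_sum_abs _ _
      _ ≤ ∑ k : Fin (m + 1), (2 + |(a : ℝ)|) * (3 * F.q / L (m + 1)) := by
          apply Finset.sum_le_sum
          intro k _
          rw [abs_mul, abs_of_nonneg (hT.bas.u_nonneg k)]
          exact mul_le_mul (hbk k) (hu k) (hT.bas.u_nonneg k) (by positivity)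
      _ = (2 + |(a : ℝ)|) * (((m + 1 : ℕ) : ℝ) * (3 * F.q / L (m + 1))) := by
          rw [Finset.sum_const, Finset.card_univ, Fintype.card_fin, nsmul_eq_mul]
          ring
      _ ≤ (2 + |(a : ℝ)|) * (F.q / 10000) := by
          apply mul_le_mul_of_nonneg_left hsmall (by positivity)
  have ha : |(a : ℝ)| < 2 := by
    have h5 : |(a : ℝ)| * F.q ≤ 101 / 100 * F.q + (2 + |(a : ℝ)|) * (F.q / 10000) := by
      have h6 : (a : ℝ) * F.q = 2 * (z.1 : ℝ) - ∑ k, (b k : ℝ) * F.u k := by rw [h1]; ring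
      have h7 : |(a : ℝ)| * F.q = |(a : ℝ) * F.q| := by rw [abs_mul, abs_of_pos hq]
      rw [h7, h6]
      calc |2 * (z.1 : ℝ) - ∑ k, (b k : ℝ) * F.u k|
          ≤ |2 * (z.1 : ℝ)| + |∑ k, (b k : ℝ) * F.u k| := abs_sub _ _
        _ ≤ _ := by
          rw [abs_mul, abs_two]
          exact add_le_add hz1 hsum
    by_contra hcon
    push Not at hcon
    nlinarith
  have ha' : a = -1 ∨ a = 0 ∨ a = 1 := by
    have h8 : |a| < 2 := by
      have : ((|a| : ℤ) : ℝ) < 2 := by rw [Int.cast_abs]; exact ha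
      exact_mod_cast this
    rw [abs_lt] at h8
    omega
  have hb' : ∀ k, b k = -1 ∨ b k = 0 ∨ b k = 1 := by
    intro k
    have h8 : |b k| < 2 := by
      have h9 : |(b k : ℝ)| < 2 := by
        have := hb k
        linarith
      have : ((|b k| : ℤ) : ℝ) < 2 := by rw [Int.cast_abs]; exact h9
      exact_mod_cast this
    rw [abs_lt] at h8
    omega
  rcases ha' with rfl | rfl | rfl
  · right
    refine ⟨fun k => - b k, ?_, Or.inr ?_⟩
    · intro k
      have := hab k
      show -b k = 1 ∨ -b k = -1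
      rcases hb' k with h | h | h <;> omega
    · have h10 : -z + -z = -(z + z) := by abel
      rw [h10, hz]
      simp only [neg_smul, one_smul, Finset.sum_neg_distrib]
      abel
  · left
    have hb0 : ∀ k, b k = 0 := by
      intro k
      have := hab k
      rcases hb' k with h | h | h <;> omega
    simp only [hb0, zero_smul, Finset.sum_const_zero, add_zero] at hz
    refine Prod.ext ?_ (funext fun l => ?_)
    · have h11 := congrArg Prod.fst hz
      simp only [Prod.fst_add, Prod.fst_zero] at h11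
      simp only [Prod.fst_zero]
      omega
    · have h11 := congrFun (congrArg Prod.snd hz) l
      simp only [Prod.snd_add, Prod.snd_zero, Pi.add_apply, Pi.zero_apply] at h11
      simp only [Prod.snd_zero, Pi.zero_apply]
      omega
  · right
    refine ⟨b, ?_, Or.inl ?_⟩
    · intro k
      have := hab k
      rcases hb' k with h | h | h <;> omega
    · rw [hz, one_smul]

end Pool.LD
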