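import Pool.Agent.Work.MP_7453a1_ld.Interface

set_option autoImplicit false

namespace Pool.LD

open Finset Filter
open Pool.Agent.Work.MP_7453a1_nt_norm (IsNorm IsBest IsBestDenominator Admissible err)

/-- The integral point. -/
theorem CLU_exz {m : ℕ} {F : Fr (m + 1)} (hG : F.Good) {σ : Fin (m + 1) → ℤ} (hσ : Sg σ) :
    ∃ z : Pt (m + 1), z + z = F.v + ∑ k, σ k • F.f k := by
  obtain ⟨⟨h, hh⟩, -⟩ := hG
  refine ⟨h + ∑ k, ((σ k - 1) / 2) • F.f k, ?_⟩
  have e : (∑ k, ((σ k - 1) / 2) • F.f k) + ∑ k, ((σ k - 1) / 2) • F.f k =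
      ∑ k, (σ k - 1) • F.f k := by
    rw [← Finset.sum_add_distrib]
    refine Finset.sum_congr rfl fun k _ => ?_
    rw [← add_smul]
    congr 1
    rcases hσ k with h | h <;> rw [h] <;> norm_num
  have e2 : ∑ k, (σ k - 1) • F.f k = ∑ k, σ k • F.f k - ∑ k, F.f k := by
    rw [← Finset.sum_sub_distrib]
    refine Finset.sum_congr rfl fun k _ => ?_
    rw [sub_smul, one_smul]
  calc h + ∑ k, ((σ k - 1) / 2) • F.f k + (h + ∑ k, ((σ k - 1) / 2) • F.f k)
      = (h + h) + ((∑ k, ((σ k - 1) / 2) • F.f k) + ∑ k, ((σ k - 1) / 2) • F.f k) := by abel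
    _ = F.v + ∑ k, σ k • F.f k := by rw [hh, e, e2]; abel

theorem CLU_fst {m : ℕ} {F : Fr (m + 1)} {σ : Fin (m + 1) → ℤ} {z : Pt (m + 1)}
    (h : z + z = F.v + ∑ k, σ k • F.f k) : 2 * (z.1 : ℝ) = F.q + ∑ k, (σ k : ℝ) * F.u k := by
  have h1 := congrArg Prod.fst h
  have h2 : z.1 + z.1 = F.v.1 + ∑ k, σ k * (F.f k).1 := by
    rw [Prod.fst_add, Prod.fst_add, Prod.fst_sum] at h1
    simpa using h1
  have h3 : ((z.1 + z.1 : ℤ) : ℝ) = ((F.v.1 + ∑ k, σ k * (F.f k).1 : ℤ) : ℝ) := by rw [h2]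
  push_cast at h3
  unfold Fr.q Fr.u
  linarith

theorem CLU_er {m : ℕ} {F : Fr (m + 1)} {σ : Fin (m + 1) → ℤ} {z : Pt (m + 1)}
    (Θ : Fin (m + 1) → ℝ) (h : z + z = F.v + ∑ k, σ k • F.f k) (l : Fin (m + 1)) :
    2 * er Θ z l = er Θ F.v l + ∑ k, (σ k : ℝ) * er Θ (F.f k) l := by
  have h1 := congrArg Prod.fst h
  have h2 : z.1 + z.1 = F.v.1 + ∑ k, σ k * (F.f k).1 := by
    rw [Prod.fst_add, Prod.fst_add, Prod.fst_sum] at h1
    simpa using h1
  have h3 : ((z.1 + z.1 : ℤ) : ℝ) = ((F.v.1 + ∑ k, σ k * (F.f k).1 : ℤ) : ℝ) := by rw [h2]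
  push_cast at h3
  have g1 := congrFun (congrArg Prod.snd h) l
  have g2 : z.2 l + z.2 l = F.v.2 l + ∑ k, σ k * (F.f k).2 l := by
    rw [Prod.snd_add, Prod.snd_add, Prod.snd_sum, Pi.add_apply, Pi.add_apply,
      Finset.sum_apply] at g1
    simpa using g1
  have g3 : ((z.2 l + z.2 l : ℤ) : ℝ) = ((F.v.2 l + ∑ k, σ k * (F.f k).2 l : ℤ) : ℝ) := by
    rw [g2]
  push_cast at g3
  have e1 : ∑ k, (σ k : ℝ) * er Θ (F.f k) l = (∑ k, (σ k : ℝ) * ((F.f k).1 : ℝ)) * Θ l -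
      ∑ k, (σ k : ℝ) * ((F.f k).2 l : ℝ) := by
    rw [Finset.sum_mul, ← Finset.sum_sub_distrib]
    refine Finset.sum_congr rfl fun k _ => ?_
    unfold er
    ring
  rw [e1]
  unfold er
  have e2 : 2 * ((z.1 : ℝ) * Θ l - (z.2 l : ℝ)) = ((z.1 : ℝ) + z.1) * Θ l -
      ((z.2 l : ℝ) + z.2 l) := by ring
  rw [e2, h3, g3]
  ring

theorem CLU_half {m : ℕ} {a b : Pt (m + 1)} (h : a + a = b + b) : a = b := by
  have h1 := congrArg Prod.fst h
  rw [Prod.fst_add, Prod.fst_add] at h1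
  refine Prod.ext (by omega) ?_
  funext l
  have h2 := congrFun (congrArg Prod.snd h) l
  rw [Prod.snd_add, Prod.snd_add, Pi.add_apply, Pi.add_apply] at h2
  omega

theorem CLU_Sgabs {n : ℕ} {σ : Fin n → ℤ} (hσ : Sg σ) (k : Fin n) : |(σ k : ℝ)| = 1 := by
  rcases hσ k with h | h <;> rw [h] <;> norm_num

theorem CLU_usum {m : ℕ} (hLNM : Stmt_LNM) {F : Fr (m + 1)} {ε : ℝ} (hT : Tight m F ε)
    {σ : Fin (m + 1) → ℤ} (hσ : Sg σ) : |∑ k, (σ k : ℝ) * F.u k| ≤ F.q / 100 := by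
  obtain ⟨h1, h2, -⟩ := hLNM (m + 1) (by omega)
  have hL0 : 0 < L (m + 1) := by linarith
  have hq := hT.bas.q_pos
  have c1 : ∀ k, |(σ k : ℝ) * F.u k| ≤ 3 * F.q / L (m + 1) := by
    intro k
    rw [abs_mul, CLU_Sgabs hσ, one_mul, abs_of_nonneg (hT.bas.u_nonneg k), le_div_iff₀ hL0]
    have := hT.small k
    linarith
  refine (Finset.abs_sum_le_sum_abs _ _).trans ((Finset.sum_le_sum fun k _ => c1 k).trans ?_)
  rw [Finset.sum_const, card_univ, Fintype.card_fin, nsmul_eq_mul]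
  have c2 : ((m + 1 : ℕ) : ℝ) * 40000 ≤ L (m + 1) := by
    refine le_trans ?_ h1
    have : (1 : ℝ) ≤ ((m + 1 : ℕ) : ℝ) := by exact_mod_cast Nat.succ_le_succ (Nat.zero_le m)
    nlinarith
  rw [mul_div_assoc', div_le_iff₀ hL0]
  nlinarith

theorem p_CLU (hCEA : Stmt_CEA) (hCEB : Stmt_CEB) (hORD : Stmt_ORD) (hCEC : Stmt_CEC)
    (hLNM : Stmt_LNM) : Stmt_CLU := by
  intro m F ε Θ hT hC σ hσ hσl
  obtain ⟨z, hz⟩ := CLU_exz hT.bas.good hσ
  have hq := hT.bas.q_pos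
  obtain ⟨a1, a2⟩ := hCEA m F ε Θ hT hC
  obtain ⟨b1, -, b3⟩ := hCEB m ε (fun k l => er Θ (F.f k) l) (fun l => er Θ F.v l) hT.pos a1 a2
  have hz1 := CLU_fst hz
  have hsum := abs_le.1 (CLU_usum hLNM hT hσ)
  obtain ⟨c1, c2, c3⟩ := b1 σ hσ hσl
  have hlow : F.q / 4 < z.1 := by linarith [hsum.1]
  have hup : (z.1 : ℝ) ≤ F.q := by linarith [hsum.2]
  have hz0 : 0 < z.1 := by
    have : (0 : ℝ) < z.1 := by linarith
    exact_mod_cast this
  -- the norm of the error of z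
  have hnz : ∀ l, 2 * |er Θ z l| ≤ 2 * |er Θ z (Fin.last m)| := by
    intro l
    have e : ∀ l, 2 * |er Θ z l| = |er Θ F.v l + ∑ k, (σ k : ℝ) * er Θ (F.f k) l| := by
      intro l
      rw [← CLU_er Θ hz l, abs_mul, abs_of_pos (by norm_num : (0 : ℝ) < 2)]
    rw [e, e]
    exact c3 l
  have hnorm : err (normSeminorm ℝ (Fin (m + 1) → ℝ)) Θ z.1 z.2 ≤ |er Θ z (Fin.last m)| := by
    change ‖fun i => (z.1 : ℝ) * Θ i - z.2 i‖ ≤ _
    refine (pi_norm_le_iff_of_nonneg (abs_nonneg _)).2 fun l => ?_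
    have := hnz l
    rw [Real.norm_eq_abs]
    have e : (z.1 : ℝ) * Θ l - z.2 l = er Θ z l := rfl
    rw [e]
    linarith
  have hkey : ∀ w : Pt (m + 1), ∀ σ' : Fin (m + 1) → ℤ, Sg σ' →
      w + w = F.v + ∑ k, σ' k • F.f k → |w.1| ≤ |z.1| →
      |er Θ w (Fin.last m)| ≤ |er Θ z (Fin.last m)| → w = z := by
    intro w σ' hσ' hw hw1 hw2
    by_cases hss : σ = σ'
    · subst hss
      exact CLU_half (hw.trans hz.symm)
    · exfalso
      obtain ⟨k, hk1, hk2⟩ := hORD.1 (m + 1) σ σ' hss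
      rcases hσ' k with hk | hk
      · have hk' : σ k = -1 := by
          rcases hσ k with h | h
          · exact absurd (h.trans hk.symm) hk1
          · exact h
        have hlt := hORD.2 (m + 1) F.u σ σ' k hσ hσ' (by
          have h := hT.sup k
          have e : ∑ l ∈ univ.filter (· < k), |F.u l| = ∑ l ∈ univ.filter (· < k), F.u l :=
            Finset.sum_congr rfl fun l _ => abs_of_nonneg (hT.bas.u_nonneg l)
          rw [e]
          exact h) hk2 hk' hk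
        have h1 := CLU_fst hw
        have h2 : (z.1 : ℝ) < w.1 := by linarith
        have h3 : z.1 < w.1 := by exact_mod_cast h2
        rw [abs_of_pos hz0] at hw1
        have := le_abs_self w.1
        omega
      · have hk' : σ k = 1 := by
          rcases hσ k with h | h
          · exact h
          · exact absurd (h.trans hk.symm) hk1
        have hkl : k ≠ Fin.last m := by
          rintro rfl
          rw [hσl] at hk'
          norm_num at hk'
        have hσ'l : σ' (Fin.last m) = -1 := by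
          rw [← hk2 (Fin.last m) (lt_of_le_of_ne (Fin.le_last k) hkl), hσl]
        have hlt := hORD.2 (m + 1) (fun l => er Θ (F.f l) (Fin.last m)) σ' σ k hσ' hσ
          (b3 k hkl) (fun l hl => (hk2 l hl).symm) hk hk'
        obtain ⟨c1', c2', c3'⟩ := b1 σ' hσ' hσ'l
        have e1 := CLU_er Θ hz (Fin.last m)
        have e2 := CLU_er Θ hw (Fin.last m)
        rw [← e1] at c1
        rw [← e2] at c1'
        have f1 : ∀ τ : Fin (m + 1) → ℤ, τ (Fin.last m) = -1 →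
            ∑ k, (τ k : ℝ) * er Θ (F.f k) (Fin.last m) = -er Θ (F.f (Fin.last m)) (Fin.last m) +
              ∑ k ∈ univ.erase (Fin.last m), (τ k : ℝ) * er Θ (F.f k) (Fin.last m) := by
          intro τ hτ
          rw [← Finset.add_sum_erase univ _ (mem_univ (Fin.last m)), hτ]
          push_cast
          ring
        have g1 := f1 σ hσl
        have g2 := f1 σ' hσ'l
        have g3 : |2 * er Θ w (Fin.last m)| = 2 * |er Θ w (Fin.last m)| := by
          rw [abs_mul, abs_of_pos (by norm_num : (0 : ℝ) < 2)]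
        have g4 : |2 * er Θ z (Fin.last m)| = 2 * |er Θ z (Fin.last m)| := by
          rw [abs_mul, abs_of_pos (by norm_num : (0 : ℝ) < 2)]
        linarith
  refine ⟨z, hz, hlow, hup, hz0.ne', ?_⟩
  intro q' p' hq' hp'
  have hle : ∀ l, |er Θ (q', p') l| ≤ |er Θ z (Fin.last m)| := by
    intro l
    have h1 : ‖(fun i => (q' : ℝ) * Θ i - p' i) l‖ ≤ ‖fun i => (q' : ℝ) * Θ i - (p' i : ℝ)‖ :=
      norm_le_pi_norm (fun i => (q' : ℝ) * Θ i - (p' i : ℝ)) l
    rw [Real.norm_eq_abs] at h1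
    exact h1.trans (hp'.trans hnorm)
  have hqq : 2 * |((q', p') : Pt (m + 1)).1| ≤ 2 * |z.1| := by
    simpa using hq'
  have hc1 : 2 * |(((q', p') : Pt (m + 1)).1 : ℝ)| ≤ 101 / 100 * F.q := by
    have h1 : |(q' : ℝ)| ≤ |(z.1 : ℝ)| := by exact_mod_cast hq'
    have h2 : |(z.1 : ℝ)| = z.1 := abs_of_pos (by exact_mod_cast hz0)
    have h3 : 2 * (z.1 : ℝ) ≤ 101 / 100 * F.q := by linarith [hsum.2]
    rw [h2] at h1
    change 2 * |(q' : ℝ)| ≤ _
    linarith
  have hR : 2 * |er Θ z (Fin.last m)| ≤ 3 / 2 * ε := by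
    have e := CLU_er Θ hz (Fin.last m)
    rw [← e, abs_mul, abs_of_pos (by norm_num : (0 : ℝ) < 2)] at c2
    exact c2
  rcases hCEC m F ε Θ hT hC (q', p') hc1 (fun l => by linarith [hle l]) with h | ⟨σ', hσ', h | h⟩
  · left
    exact ⟨congrArg Prod.fst h, congrArg Prod.snd h⟩
  · right; left
    have h1 := hkey (q', p') σ' hσ' h hq' (hle _)
    exact ⟨congrArg Prod.fst h1, congrArg Prod.snd h1⟩
  · right; right
    have h0 : er Θ (-(q', p')) (Fin.last m) = - er Θ (q', p') (Fin.last m) := by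
      unfold er
      simp only [Prod.fst_neg, Prod.snd_neg, Pi.neg_apply]
      push_cast
      ring
    have h1 := hkey (-(q', p')) σ' hσ' h (by
      rw [Prod.fst_neg, abs_neg]
      exact hq') (by
      rw [h0, abs_neg]
      exact hle _)
    have h2 : ((q', p') : Pt (m + 1)) = -z := by rw [← h1, neg_neg]
    exact ⟨congrArg Prod.fst h2, congrArg Prod.snd h2⟩

end Pool.LD
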