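import Pool.Agent.Work.MP_7453a1_ld.Interface

set_option autoImplicit false

/-! # Block CNT: many best denominators -/

namespace Pool.LD

open Finset Filter
open Pool.Agent.Work.MP_7453a1_nt_norm (IsNorm IsBest IsBestDenominator Admissible)

/-- the sign vector with last sign `-1` -/
def CNT_sg {m : ℕ} (s : Fin m → Bool) : Fin (m + 1) → ℤ :=
  Fin.snoc (α := fun _ => ℤ) (fun i => if s i then 1 else -1) (-1)

theorem CNT_Sg {m : ℕ} (s : Fin m → Bool) : Sg (CNT_sg s) := by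
  intro k
  refine Fin.lastCases ?_ (fun i => ?_) k
  · right
    simp [CNT_sg]
  · by_cases h : s i = true
    · left
      simp [CNT_sg, h]
    · right
      simp [CNT_sg, h]

theorem CNT_last {m : ℕ} (s : Fin m → Bool) : CNT_sg s (Fin.last m) = -1 := by
  simp [CNT_sg]

theorem CNT_inj {m : ℕ} : Function.Injective (CNT_sg (m := m)) := by
  intro s s' h
  funext i
  have h1 := congrFun h (Fin.castSucc i)
  simp only [CNT_sg, Fin.snoc_castSucc] at h1
  cases h2 : s i <;> cases h3 : s' i <;> simp_all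

theorem CNT_fst {m : ℕ} {F : Fr (m + 1)} {z : Pt (m + 1)} {σ : Fin (m + 1) → ℤ}
    (h : z + z = F.v + ∑ k, σ k • F.f k) : 2 * (z.1 : ℝ) = F.q + ∑ k, (σ k : ℝ) * F.u k := by
  have h1 := congrArg Prod.fst h
  rw [Prod.fst_add, Prod.fst_add, Prod.fst_sum] at h1
  have h2 : ((z.1 + z.1 : ℤ) : ℝ) = ((F.v.1 + ∑ c : Fin (m + 1), (σ c • F.f c).1 : ℤ) : ℝ) := by
    rw [h1]
  push_cast at h2
  unfold Fr.q Fr.u
  rw [two_mul, h2]
  congr 1
  apply Finset.sum_congr rfl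
  intro k _
  rw [Prod.smul_fst, smul_eq_mul]
  push_cast
  ring

theorem CNT_lt (hORD : Stmt_ORD) {m : ℕ} {F : Fr (m + 1)} {ε : ℝ} (hT : Tight m F ε)
    {z z' : Pt (m + 1)} {σ σ' : Fin (m + 1) → ℤ} (hs : Sg σ) (hs' : Sg σ')
    (h : z + z = F.v + ∑ k, σ k • F.f k) (h' : z' + z' = F.v + ∑ k, σ' k • F.f k)
    (k : Fin (m + 1)) (hk : ∀ l, k < l → σ l = σ' l) (h1 : σ k = -1) (h2 : σ' k = 1) :
    (z.1 : ℝ) < z'.1 := by
  have h3 : ∑ l ∈ univ.filter (· < k), |F.u l| < F.u k := by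
    have h4 : ∑ l ∈ univ.filter (· < k), |F.u l| = ∑ l ∈ univ.filter (· < k), F.u l := by
      apply Finset.sum_congr rfl
      intro l _
      exact abs_of_nonneg (hT.bas.u_nonneg l)
    rw [h4]
    exact hT.sup k
  have h5 := hORD.2 (m + 1) F.u σ σ' k hs hs' h3 hk h1 h2
  have h6 := CNT_fst h
  have h7 := CNT_fst h'
  linarith

theorem p_CNT (hCLU : Stmt_CLU) (hORD : Stmt_ORD) : Stmt_CNT := by
  intro m F ε Θ hT hC
  have hz : ∀ s : Fin m → Bool, ∃ z : Pt (m + 1), z + z = F.v + ∑ k, CNT_sg s k • F.f k ∧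
      F.q / 4 < z.1 ∧ (z.1 : ℝ) ≤ F.q ∧ IsBest (normSeminorm ℝ (Fin (m + 1) → ℝ)) Θ z.1 z.2 :=
    fun s => hCLU m F ε Θ hT hC (CNT_sg s) (CNT_Sg s) (CNT_last s)
  choose z hz1 hz2 hz3 hz4 using hz
  have hq := hT.bas.q_pos
  have hpos : ∀ s, 0 < (z s).1 := by
    intro s
    have h1 := hz2 s
    have h2 : (0 : ℝ) < (z s).1 := by linarith
    exact_mod_cast h2
  have hcast : ∀ s, (((z s).1.natAbs : ℕ) : ℝ) = ((z s).1 : ℝ) := by
    intro s
    have h1 : (((z s).1.natAbs : ℕ) : ℤ) = (z s).1 := Int.natAbs_of_nonneg (hpos s).le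
    have h2 : ((((z s).1.natAbs : ℕ) : ℤ) : ℝ) = ((z s).1 : ℝ) := congrArg (fun t : ℤ => (t : ℝ)) h1
    rwa [Int.cast_natCast] at h2
  have hinj : Function.Injective (fun s : Fin m → Bool => (z s).1.natAbs) := by
    intro s s' hss
    by_contra hne
    have h0 : ((z s).1 : ℝ) = (z s').1 := by
      rw [← hcast s, ← hcast s']
      exact_mod_cast hss
    obtain ⟨k, hk, hkl⟩ := hORD.1 (m + 1) (CNT_sg s) (CNT_sg s') (fun h => hne (CNT_inj h))
    rcases CNT_Sg s k with h1 | h1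
    · rcases CNT_Sg s' k with h2 | h2
      · exact hk (h1.trans h2.symm)
      · have h3 := CNT_lt hORD hT (CNT_Sg s') (CNT_Sg s) (hz1 s') (hz1 s) k
          (fun l hl => (hkl l hl).symm) h2 h1
        linarith
    · rcases CNT_Sg s' k with h2 | h2
      · have h3 := CNT_lt hORD hT (CNT_Sg s) (CNT_Sg s') (hz1 s) (hz1 s') k hkl h1 h2
        linarith
      · exact hk (h1.trans h2.symm)
  refine ⟨Finset.univ.image (fun s : Fin m → Bool => (z s).1.natAbs), ?_, ?_⟩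
  · rw [Finset.card_image_of_injective _ hinj]
    simp
  · intro M hM
    obtain ⟨s, -, rfl⟩ := Finset.mem_image.1 hM
    refine ⟨⟨(z s).1, (z s).2, hz4 s, rfl⟩, ?_, ?_⟩
    · rw [hcast s]
      exact hz2 s
    · rw [hcast s]
      exact hz3 s

end Pool.LD
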