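import Pool.Agent.Work.MP_7453a1_ld.Interface

set_option autoImplicit false

/-! # Sup norm in all dimensions: block FIN -/

namespace Pool.LD

open Finset Filter
open Pool.Agent.Work.MP_7453a1_nt_norm (IsNorm IsBest IsBestDenominator Admissible)

theorem p_FIN (hSEQ : Stmt_SEQ) (hCNT : Stmt_CNT) (hADM : Stmt_ADM) (hLIM : Stmt_LIM)
    (hNUM : Stmt_NUM) : Stmt_FIN := by
  intro n hn
  obtain ⟨m, rfl⟩ : ∃ m, n = m + 1 := ⟨n - 1, by omega⟩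
  obtain ⟨F, ε, Θ, h0, h⟩ := hSEQ m
  obtain ⟨hinf, hG⟩ := hLIM m (m + 1) (normSeminorm ℝ (Fin (m + 1) → ℝ)) Θ (fun s => (F s).q)
    (KK m) (hNUM m).1 h0 (fun s => ⟨(h s).2.1, (h s).2.2.1⟩)
    (fun s => hCNT m (F (s + 1)) (ε (s + 1)) Θ (h s).1 (h s).2.2.2)
  refine ⟨Θ, hADM (m + 1) _ Θ hinf, hG.trans (ENNReal.ofReal_le_ofReal ?_)⟩
  push_cast
  exact (hNUM m).2

end Pool.LD
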