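import Pool.Agent.Work.MP_7453a1_ld.Interface

set_option autoImplicit false

/-! # Block GOD (helper17) -/

namespace Pool.LD

open Finset

theorem p_GOD : Stmt_GOD := by
  classical
  intro n F i r c hc hF
  obtain ⟨⟨h, hh⟩, hz⟩ := hF
  have hsp : ∀ g : Fin n → Pt n, ∑ k, g k = g i + ∑ k ∈ univ \ {i}, g k := by
    intro g
    rw [Finset.sum_eq_add_sum_sdiff_singleton_of_mem (Finset.mem_univ i)]
  have hc0 : ∑ k, (2 * c k) • F.f k = ∑ k ∈ univ \ {i}, (2 * c k) • F.f k := by
    rw [hsp fun k => (2 * c k) • F.f k]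
    simp [hc]
  have hnv : (F.nxt i r c).v = (2 * r) • F.v - (F.f i + ∑ l, (2 * c l) • F.f l) := rfl
  have hnf : (F.nxt i r c).f = Function.update F.f i F.v := rfl
  refine ⟨?_, ?_⟩
  · refine ⟨h - F.f i + r • F.v - ∑ l, (c l) • F.f l, ?_⟩
    have e1 : ∑ k, (F.nxt i r c).f k = F.v + ∑ k ∈ univ \ {i}, F.f k := by
      rw [hnf, Finset.sum_update_of_mem (Finset.mem_univ i)]
    have e2 : ∑ l, (2 * c l) • F.f l = (2 : ℤ) • ∑ l, (c l) • F.f l := by
      rw [Finset.smul_sum]
      exact Finset.sum_congr rfl fun l _ => mul_smul _ _ _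
    rw [e1, hnv, e2]
    have e3 := hsp F.f
    rw [e3] at hh
    have e4 : h + h = F.v + (F.f i + ∑ k ∈ univ \ {i}, F.f k) := hh
    calc h - F.f i + r • F.v - ∑ l, (c l) • F.f l + (h - F.f i + r • F.v - ∑ l, (c l) • F.f l)
        = (h + h) - (2 : ℤ) • F.f i + (2 * r) • F.v - (2 : ℤ) • ∑ l, (c l) • F.f l := by
          module
      _ = _ := by
          rw [e4]
          module
  · intro z
    obtain ⟨a, b, hab, hzz⟩ := hz z
    refine ⟨-b i, Function.update (fun l => b l - 2 * c l * b i) i (a + 2 * r * b i), ?_, ?_⟩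
    · intro k
      by_cases hk : k = i
      · subst hk
        rw [Function.update_self]
        obtain ⟨s, hs⟩ := hab k
        exact ⟨s + a + r * b k, by linear_combination hs⟩
      · rw [Function.update_of_ne hk]
        obtain ⟨s, hs⟩ := hab k
        obtain ⟨s', hs'⟩ := hab i
        exact ⟨s + s' + a - c k * b i, by linear_combination hs + hs'⟩
    · have e1 : ∀ k, (Function.update (fun l => b l - 2 * c l * b i) i (a + 2 * r * b i) k) •
          (F.nxt i r c).f k = Function.update (fun l => (b l - 2 * c l * b i) • F.f l) i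
            ((a + 2 * r * b i) • F.v) k := by
        intro k
        rw [hnf]
        by_cases hk : k = i
        · subst hk
          simp only [Function.update_self]
        · simp only [Function.update_of_ne hk]
      simp only [e1]
      rw [Finset.sum_update_of_mem (Finset.mem_univ i), hnv, hzz, hc0, hsp fun k => b k • F.f k]
      have e2 : ∑ x ∈ univ \ {i}, (b x - 2 * c x * b i) • F.f x =
          ∑ x ∈ univ \ {i}, b x • F.f x - b i • ∑ x ∈ univ \ {i}, (2 * c x) • F.f x := by
        rw [Finset.smul_sum, ← Finset.sum_sub_distrib]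
        refine Finset.sum_congr rfl fun x _ => ?_
        module
      rw [e2]
      module

end Pool.LD
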