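import Pool.Agent.Work.MP_7453a1_ld.Interface

set_option autoImplicit false

/-! # Block LAG: Lagarias's lower bound for every norm -/

namespace Pool.LD

open Finset Filter
open Pool.Agent.Work.MP_7453a1_nt_norm (IsNorm IsBest IsBestDenominator Admissible)

theorem LAG_half {n : ℕ} (x y : Pool.Agent.Work.MP_7453a1_nt_norm.Pt n)
    (h1 : (x.1 : ZMod 2) = y.1) (h2 : ∀ l, (x.2 l : ZMod 2) = y.2 l) :
    ∃ w : Pool.Agent.Work.MP_7453a1_nt_norm.Pt n, w + w = y - x := by
  have e1 : (2 : ℤ) ∣ y.1 - x.1 := by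
    have := (ZMod.intCast_eq_intCast_iff_dvd_sub x.1 y.1 2).1 h1
    exact_mod_cast this
  have e2 : ∀ l, (2 : ℤ) ∣ y.2 l - x.2 l := by
    intro l
    have := (ZMod.intCast_eq_intCast_iff_dvd_sub (x.2 l) (y.2 l) 2).1 (h2 l)
    exact_mod_cast this
  obtain ⟨a, ha⟩ := e1
  choose b hb using e2
  refine ⟨(a, b), Prod.ext ?_ ?_⟩
  · show a + a = y.1 - x.1
    rw [ha]
    ring
  · funext l
    show b l + b l = y.2 l - x.2 l
    rw [hb l]
    ring

theorem LAG_er {n : ℕ} (N : Seminorm ℝ (Fin n → ℝ)) (Θ : Fin n → ℝ)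
    (w x y : Pool.Agent.Work.MP_7453a1_nt_norm.Pt n) (h : w + w = y - x) :
    2 * Pool.Agent.Work.MP_7453a1_nt_norm.er N Θ w ≤
      Pool.Agent.Work.MP_7453a1_nt_norm.er N Θ y + Pool.Agent.Work.MP_7453a1_nt_norm.er N Θ x := by
  have h1 : Pool.Agent.Work.MP_7453a1_nt_norm.er N Θ (w + w) =
      2 * Pool.Agent.Work.MP_7453a1_nt_norm.er N Θ w := by
    unfold Pool.Agent.Work.MP_7453a1_nt_norm.er
    rw [map_add, ← two_smul ℝ (Pool.Agent.Work.MP_7453a1_nt_norm.ev Θ w), map_smul_eq_mul]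
    norm_num
  rw [← h1, h]
  exact Pool.Agent.Work.MP_7453a1_nt_norm.er_sub_le y x

theorem p_LAG : Stmt_LAG := by
  intro n hn N hN
  unfold Pool.Agent.Work.MP_7453a1_nt_norm.g
  refine le_iInf₂ fun Θ hΘ => ?_
  obtain ⟨ν₀, z, hν, hz1, hz2, hz3, hz4, hz5, hz6⟩ :=
    Pool.Agent.Work.MP_7453a1_nt_norm.frame hN hΘ
  obtain ⟨P, hP⟩ : ∃ P : ℕ, P = 2 ^ (n + 1) := ⟨_, rfl⟩
  have hP0 : 0 < P := by rw [hP]; positivity
  have hmono : ∀ k l, k ≤ l → (z k).1 ≤ (z l).1 := by
    intro k l hkl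
    rcases Nat.eq_or_lt_of_le hkl with h | h
    · rw [h]
    · exact (hz3 k l h).le
  -- tripling
  have hstep : ∀ k, 3 * (z k).1 ≤ (z (k + P)).1 := by
    intro k
    have hcard : Fintype.card (ZMod 2 × (Fin n → ZMod 2)) < Fintype.card (Fin (P + 1)) := by
      rw [Fintype.card_prod, Fintype.card_fun, ZMod.card, Fintype.card_fin, Fintype.card_fin, hP,
        pow_succ]
      omega
    obtain ⟨i, j, hij, he⟩ := Fintype.exists_ne_map_eq_of_card_lt
      (fun i : Fin (P + 1) => (((z (k + i)).1 : ZMod 2), fun l => ((z (k + i)).2 l : ZMod 2))) hcard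
    obtain ⟨i, j, hij, he⟩ : ∃ i j : Fin (P + 1), i < j ∧
        (((z (k + i)).1 : ZMod 2), fun l => ((z (k + i)).2 l : ZMod 2)) =
          (((z (k + j)).1 : ZMod 2), fun l => ((z (k + j)).2 l : ZMod 2)) := by
      rcases lt_or_gt_of_ne hij with h | h
      · exact ⟨i, j, h, he⟩
      · exact ⟨j, i, h, he.symm⟩
    have hij' : (i : ℕ) < j := hij
    have hjP : (j : ℕ) ≤ P := by have := j.2; omega
    obtain ⟨w, hw⟩ := LAG_half (z (k + i)) (z (k + j)) (congrArg Prod.fst he)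
      (fun l => congrFun (congrArg Prod.snd he) l)
    have hlt := hz3 (k + i) (k + j) (by omega)
    have hw1 : w.1 + w.1 = (z (k + j)).1 - (z (k + i)).1 := congrArg Prod.fst hw
    have hw0 : w ≠ 0 := by
      intro h0
      rw [h0] at hw1
      simp only [Prod.fst_zero] at hw1
      omega
    have her := LAG_er N Θ w _ _ hw
    have hlt2 := hz4 (k + i) (k + j) (by omega)
    have hge : (z (k + i + 1)).1 ≤ w.1 := by
      by_contra hcon
      have h1 : |w.1| < (z (k + i + 1)).1 := by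
        rw [abs_of_pos (by omega)]
        omega
      have h2 := hz6 (k + i) w hw0 h1
      linarith
    have h3 := hz3 (k + i) (k + i + 1) (by omega)
    have h4 := hmono (k + j) (k + P) (by omega)
    have h5 := hmono k (k + i) (by omega)
    omega
  have hpow : ∀ q r : ℕ, (3 : ℤ) ^ q ≤ (z (q * P + r)).1 := by
    intro q r
    induction q with
    | zero =>
      have := hz2 (0 * P + r)
      simp only [pow_zero]
      omega
    | succ q ih =>
      have h1 := hstep (q * P + r)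
      have h2 : (q + 1) * P + r = q * P + r + P := by ring
      rw [h2, pow_succ]
      omega
  refine Pool.Agent.Work.MP_7453a1_nt_norm.le_G_of_growth (c := (3 : ℝ) ^ (-1 - (ν₀ : ℝ) / P))
    (by positivity) (by positivity) ?_
  filter_upwards [eventually_ge_atTop ν₀] with ν hν'
  obtain ⟨k, rfl⟩ := Nat.exists_eq_add_of_le hν'
  have h1 : ((Pool.Agent.Work.MP_7453a1_nt_norm.M N Θ (ν₀ + k) : ℕ) : ℝ) = ((z k).1 : ℝ) := by
    have := hz1 k
    exact_mod_cast this.symm
  rw [h1]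
  have h2 : (3 : ℝ) ^ (k / P) ≤ ((z k).1 : ℝ) := by
    have h3 := hpow (k / P) (k % P)
    rw [Nat.div_add_mod'] at h3
    exact_mod_cast h3
  refine le_trans ?_ h2
  have hP' : (0 : ℝ) < P := by exact_mod_cast hP0
  have hPr : (P : ℝ) = 2 ^ (n + 1) := by rw [hP]; push_cast; rfl
  rw [← hPr, ← Real.rpow_natCast ((3 : ℝ) ^ (1 / (P : ℝ))) (ν₀ + k),
    ← Real.rpow_mul (by norm_num), ← Real.rpow_add (by norm_num), ← Real.rpow_natCast]
  refine Real.rpow_le_rpow_of_exponent_le (by norm_num) ?_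
  have h4 : (k : ℝ) < P * ((k / P : ℕ) : ℝ) + P := by
    have h5 : k < P * (k / P) + P := by
      have h6 := Nat.div_add_mod k P
      have h7 := Nat.mod_lt k hP0
      omega
    exact_mod_cast h5
  have h8 : (k : ℝ) / P < ((k / P : ℕ) : ℝ) + 1 := by
    rw [div_lt_iff₀ hP']
    linarith
  have h9 : -1 - (ν₀ : ℝ) / P + 1 / (P : ℝ) * ((ν₀ + k : ℕ) : ℝ) = (k : ℝ) / P - 1 := by
    push_cast
    field_simp
    ring
  rw [h9]
  linarith

end Pool.LD
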