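import Pool.Agent.Work.MP_7453a1_ld.Interface

set_option autoImplicit false

/-! # MP_7453a1, frames: block LIM -/

namespace Pool.LD

open Finset Filter
open Pool.Agent.Work.MP_7453a1_nt_norm (IsBestDenominator)

theorem LIM_mono (Q : ℕ → ℝ) (h0 : Q 0 = 2) (h : ∀ s, 4 * Q s ≤ Q (s + 1)) :
    (∀ s, 2 * 4 ^ s ≤ Q s) ∧ Monotone Q := by
  have h1 : ∀ s, 2 * 4 ^ s ≤ Q s := by
    intro s
    induction s with
    | zero => rw [h0]; norm_num
    | succ s ih =>
      have := h s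
      rw [pow_succ]
      linarith
  refine ⟨h1, monotone_nat_of_le_succ fun s => ?_⟩
  have h2 := h1 s
  have h3 : (0 : ℝ) < 2 * 4 ^ s := by positivity
  have := h s
  linarith

theorem LIM_up (Q : ℕ → ℝ) (K : ℝ) (hK : 1 ≤ K) (h0 : Q 0 = 2)
    (h : ∀ s, Q (s + 1) ≤ K * Q s) (s : ℕ) : Q s ≤ 2 * K ^ s := by
  induction s with
  | zero => rw [h0]; simp
  | succ s ih =>
    calc Q (s + 1) ≤ K * Q s := h s
      _ ≤ K * (2 * K ^ s) := mul_le_mul_of_nonneg_left ih (by linarith)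
      _ = 2 * K ^ (s + 1) := by ring

open Classical in
theorem LIM_count (m : ℕ) (p : ℕ → Prop) (Q : ℕ → ℝ) (hmono : Monotone Q)
    (hQ4 : ∀ s, 4 * Q s ≤ Q (s + 1))
    (T : ℕ → Finset ℕ) (hT : ∀ s, 2 ^ m ≤ (T s).card ∧ ∀ M ∈ T s, p M ∧ Q (s + 1) / 4 < M ∧
      (M : ℝ) ≤ Q (s + 1)) (t : ℕ) : t * 2 ^ m ≤ Nat.count p (⌊Q t⌋₊ + 1) := by
  have hdis : ∀ s ∈ range t, ∀ s' ∈ range t, s ≠ s' → Disjoint (T s) (T s') := by
    have key : ∀ s s', s < s' → Disjoint (T s) (T s') := by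
      intro s s' hss
      rw [Finset.disjoint_left]
      intro M h1 h2
      have h3 := ((hT s).2 M h1).2.2
      have h4 := ((hT s').2 M h2).2.1
      have h5 := hmono (show s + 1 ≤ s' by omega)
      have h6 := hQ4 s'
      linarith
    intro s _ s' _ hne
    rcases lt_or_gt_of_ne hne with h | h
    · exact key s s' h
    · exact (key s' s h).symm
  have hcard : t * 2 ^ m ≤ ((range t).biUnion T).card := by
    rw [Finset.card_biUnion hdis]
    calc t * 2 ^ m = ∑ _s ∈ range t, 2 ^ m := by rw [Finset.sum_const, Finset.card_range, smul_eq_mul]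
      _ ≤ ∑ s ∈ range t, (T s).card := Finset.sum_le_sum fun s _ => (hT s).1
  refine hcard.trans ?_
  rw [Nat.count_eq_card_filter_range]
  refine Finset.card_le_card fun M hM => ?_
  rw [Finset.mem_biUnion] at hM
  obtain ⟨s, hs, hM⟩ := hM
  rw [Finset.mem_range] at hs
  obtain ⟨h1, -, h3⟩ := (hT s).2 M hM
  rw [Finset.mem_filter, Finset.mem_range]
  refine ⟨?_, h1⟩
  have h4 : (M : ℝ) ≤ Q t := h3.trans (hmono (by omega))
  have h5 : M ≤ ⌊Q t⌋₊ := Nat.le_floor h4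
  omega

/-- BLOCK LIM -/
theorem p_LIM : Stmt_LIM := by
  classical
  intro m n N Θ Q K hK h0 hs hT
  choose T hT using hT
  obtain ⟨hlow, hmono⟩ := LIM_mono Q h0 fun s => (hs s).1
  have hup := LIM_up Q K hK h0 fun s => (hs s).2
  have hinf : {M | IsBestDenominator N Θ M}.Infinite := by
    refine Set.infinite_of_forall_exists_gt fun a => ?_
    have hne : (T a).Nonempty := by
      rw [← Finset.card_pos]
      exact lt_of_lt_of_le (by positivity) (hT a).1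
    obtain ⟨M, hM⟩ := hne
    obtain ⟨h1, h2, -⟩ := (hT a).2 M hM
    refine ⟨M, h1, ?_⟩
    have h3 := hlow a
    have h4 := (hs a).1
    have h5 : (a : ℝ) < M := by
      have h6 : (a : ℝ) < 2 * 4 ^ a := by
        have h7 : a < 4 ^ a := Nat.lt_pow_self (by norm_num)
        have h8 : (a : ℝ) < 4 ^ a := by exact_mod_cast h7
        have h9 : (0 : ℝ) < 4 ^ a := by positivity
        linarith
      linarith
    exact_mod_cast h5
  refine ⟨hinf, ?_⟩
  have hcount := LIM_count m (IsBestDenominator N Θ) Q hmono (fun s => (hs s).1) T hT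
  -- the subsequence
  have hpos : 0 < 2 ^ m := by positivity
  have hM : ∀ t : ℕ, ((Pool.Agent.Work.MP_7453a1_nt_norm.M N Θ ((t + 1) * 2 ^ m) : ℕ) : ℝ) ≤
      2 * K ^ (t + 1) := by
    intro t
    have h1 := hcount (t + 1)
    have h2 : 0 < (t + 1) * 2 ^ m := Nat.mul_pos (by omega) hpos
    have h3 : (t + 1) * 2 ^ m - 1 < Nat.count (IsBestDenominator N Θ) (⌊Q (t + 1)⌋₊ + 1) := by
      omega
    have h4 := Nat.nth_lt_of_lt_count h3
    have h5 : Pool.Agent.Work.MP_7453a1_nt_norm.M N Θ ((t + 1) * 2 ^ m) ≤ ⌊Q (t + 1)⌋₊ := by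
      unfold Pool.Agent.Work.MP_7453a1_nt_norm.M
      omega
    have hQ0 : 0 ≤ Q (t + 1) := le_trans (by positivity) (hlow (t + 1))
    calc ((Pool.Agent.Work.MP_7453a1_nt_norm.M N Θ ((t + 1) * 2 ^ m) : ℕ) : ℝ)
        ≤ (⌊Q (t + 1)⌋₊ : ℝ) := by exact_mod_cast h5
      _ ≤ Q (t + 1) := Nat.floor_le hQ0
      _ ≤ 2 * K ^ (t + 1) := hup (t + 1)
  set f : ℕ → ENNReal := fun ν : ℕ =>
    ENNReal.ofReal ((Pool.Agent.Work.MP_7453a1_nt_norm.M N Θ ν : ℝ) ^ (1 / (ν : ℝ))) with hf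
  set φ : ℕ → ℕ := fun t => (t + 1) * 2 ^ m with hφ
  have hφt : Tendsto φ atTop atTop := by
    refine tendsto_atTop_mono (fun t => ?_) tendsto_id
    change t ≤ (t + 1) * 2 ^ m
    calc t ≤ t + 1 := Nat.le_succ t
      _ ≤ (t + 1) * 2 ^ m := Nat.le_mul_of_pos_right _ hpos
  have h1 : Pool.Agent.Work.MP_7453a1_nt_norm.G N Θ ≤ liminf (fun t => f (φ t)) atTop := by
    have h2 : liminf f atTop ≤ liminf f (map φ atTop) := liminf_le_liminf_of_le hφt
    exact h2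
  set g : ℕ → ENNReal := fun t : ℕ =>
    ENNReal.ofReal ((2 : ℝ) ^ (1 / ((φ t : ℕ) : ℝ)) * K ^ (1 / (2 : ℝ) ^ m)) with hg
  have hfg : ∀ t, f (φ t) ≤ g t := by
    intro t
    refine ENNReal.ofReal_le_ofReal ?_
    have hφpos : (0 : ℝ) < ((φ t : ℕ) : ℝ) := by
      have : 0 < φ t := Nat.mul_pos (by omega) hpos
      exact_mod_cast this
    have h3 : ((Pool.Agent.Work.MP_7453a1_nt_norm.M N Θ (φ t) : ℕ) : ℝ) ^ (1 / ((φ t : ℕ) : ℝ)) ≤
        (2 * K ^ (t + 1)) ^ (1 / ((φ t : ℕ) : ℝ)) :=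
      Real.rpow_le_rpow (by positivity) (hM t) (by positivity)
    refine h3.trans (le_of_eq ?_)
    rw [Real.mul_rpow (by norm_num) (by positivity)]
    congr 1
    rw [← Real.rpow_natCast, ← Real.rpow_mul (by linarith)]
    congr 1
    rw [hφ]
    push_cast
    have h4 : ((t : ℝ) + 1) ≠ 0 := by positivity
    have h5 : ((2 : ℝ) ^ m) ≠ 0 := by positivity
    field_simp
  have hgl : Tendsto g atTop (nhds (ENNReal.ofReal (K ^ (1 / (2 : ℝ) ^ m)))) := by
    refine ENNReal.tendsto_ofReal ?_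
    have h3 : Tendsto (fun t => (1 : ℝ) / ((φ t : ℕ) : ℝ)) atTop (nhds 0) := by
      have h4 := tendsto_one_div_atTop_nhds_zero_nat (𝕜 := ℝ)
      exact h4.comp hφt
    have h5 : Tendsto (fun t => (2 : ℝ) ^ ((1 : ℝ) / ((φ t : ℕ) : ℝ))) atTop (nhds ((2 : ℝ) ^ (0 : ℝ))) :=
      tendsto_const_nhds.rpow h3 (Or.inl (by norm_num))
    rw [Real.rpow_zero] at h5
    have h6 := h5.mul_const (K ^ (1 / (2 : ℝ) ^ m))
    rw [one_mul] at h6
    exact h6
  calc Pool.Agent.Work.MP_7453a1_nt_norm.G N Θ ≤ liminf (fun t => f (φ t)) atTop := h1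
    _ ≤ liminf g atTop := liminf_le_liminf (Eventually.of_forall hfg)
    _ = ENNReal.ofReal (K ^ (1 / (2 : ℝ) ^ m)) := hgl.liminf_eq

end Pool.LD
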