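import Pool.Agent.Work.MP_7453a1_ld.Interface

set_option autoImplicit false

/-! # Block LIN: linear algebra -/

namespace Pool.LD

open Finset Filter
open Pool.Agent.Work.MP_7453a1_nt_norm (IsNorm IsBest IsBestDenominator Admissible)

/-- solvability -/
theorem LIN_solve (n : ℕ) (i : Fin n) (D : Fin n → Fin n → ℝ) (p : Fin n → ℝ)
    (h1 : ∀ l, 4 / 5 ≤ D l l) (h3 : ∀ l, ∑ k ∈ univ.erase l, |D k l| ≤ 4 / 25)
    (h4 : 1 ≤ p i) (h6 : ∀ l, l ≠ i → |p l| ≤ 1 / 20) :
    ∃ w : Fin n → ℝ, ∀ l, D i l + ∑ k, (if k = i then 0 else w k) * D k l = w i * p l := by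
  classical
  let A : Matrix (Fin n) (Fin n) ℝ := Matrix.of fun l k => if k = i then - p l else D k l
  have hdet : A.det ≠ 0 := by
    refine det_ne_zero_of_sum_row_lt_diag fun l => ?_
    by_cases hl : l = i
    · subst hl
      have e1 : ∑ j ∈ univ.erase l, ‖A l j‖ = ∑ k ∈ univ.erase l, |D k l| := by
        refine sum_congr rfl fun k hk => ?_
        show ‖(if k = l then - p l else D k l)‖ = _
        rw [if_neg (ne_of_mem_erase hk), Real.norm_eq_abs]
      have e2 : ‖A l l‖ = |p l| := by
        show ‖(if l = l then - p l else D l l)‖ = _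
        rw [if_pos rfl, norm_neg, Real.norm_eq_abs]
      rw [e1, e2]
      have := h3 l
      have := le_abs_self (p l)
      linarith
    · have e2 : ‖A l l‖ = |D l l| := by
        show ‖(if l = i then - p l else D l l)‖ = _
        rw [if_neg hl, Real.norm_eq_abs]
      have e1 : ∑ j ∈ univ.erase l, ‖A l j‖ ≤ ∑ k ∈ univ.erase l, |D k l| + |p l| := by
        calc ∑ j ∈ univ.erase l, ‖A l j‖
            ≤ ∑ k ∈ univ.erase l, (|D k l| + if k = i then |p l| else 0) := by
              refine sum_le_sum fun k _ => ?_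
              show ‖(if k = i then - p l else D k l)‖ ≤ _
              by_cases hk : k = i
              · rw [if_pos hk, if_pos hk, norm_neg, Real.norm_eq_abs]
                have := abs_nonneg (D k l)
                linarith
              · rw [if_neg hk, if_neg hk, Real.norm_eq_abs]
                linarith
          _ = ∑ k ∈ univ.erase l, |D k l| + ∑ k ∈ univ.erase l, (if k = i then |p l| else 0) :=
              sum_add_distrib
          _ = _ := by
              rw [Finset.sum_ite_eq', if_pos (mem_erase.2 ⟨fun h => hl h.symm, mem_univ _⟩)]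
      rw [e2]
      have := h3 l
      have := h6 l hl
      have := le_abs_self (D l l)
      have := h1 l
      linarith
  have hu : IsUnit A.det := isUnit_iff_ne_zero.2 hdet
  refine ⟨A⁻¹.mulVec fun l => - D i l, fun l => ?_⟩
  set w := A⁻¹.mulVec fun l => - D i l with hw
  have hm : A.mulVec w = fun l => - D i l := by
    rw [hw, Matrix.mulVec_mulVec, Matrix.mul_nonsing_inv A hu, Matrix.one_mulVec]
  have hl : ∑ k, A l k * w k = - D i l := congrFun hm l
  have h2 : ∑ k, A l k * w k = ∑ k, (if k = i then 0 else w k) * D k l +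
      ∑ k, (if k = i then -(p l * w i) else 0) := by
    rw [← sum_add_distrib]
    refine sum_congr rfl fun k _ => ?_
    show (if k = i then - p l else D k l) * w k = _
    by_cases hk : k = i
    · rw [if_pos hk, if_pos hk, if_pos hk, hk]
      ring
    · rw [if_neg hk, if_neg hk, if_neg hk]
      ring
  rw [Finset.sum_ite_eq', if_pos (mem_univ _)] at h2
  linarith

theorem LIN_row (n : ℕ) (i : Fin n) (D : Fin n → Fin n → ℝ) (p w : Fin n → ℝ)
    (h3 : ∀ l, ∑ k ∈ univ.erase l, |D k l| ≤ 4 / 25)
    (hw : ∀ l, D i l + ∑ k, (if k = i then 0 else w k) * D k l = w i * p l)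
    (m : ℝ) (hm : 1 ≤ m) (hmw : ∀ k, k ≠ i → |w k| ≤ m) (l : Fin n) (hl : l ≠ i) :
    |w l| * D l l ≤ m * (4 / 25) + |w i| * |p l| := by
  classical
  have e1 : ∑ k, (if k = i then 0 else w k) * D k l =
      w l * D l l + ∑ k ∈ univ.erase l, (if k = i then 0 else w k) * D k l := by
    rw [← add_sum_erase univ _ (mem_univ l), if_neg hl]
  have e2 : D i l + ∑ k ∈ univ.erase l, (if k = i then 0 else w k) * D k l =
      ∑ k ∈ univ.erase l, (if k = i then 1 else w k) * D k l := by
    have e3 : ∑ k ∈ univ.erase l, (if k = i then 1 else w k) * D k l =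
        ∑ k ∈ univ.erase l, (if k = i then D i l else 0) +
        ∑ k ∈ univ.erase l, (if k = i then 0 else w k) * D k l := by
      rw [← sum_add_distrib]
      refine sum_congr rfl fun k _ => ?_
      by_cases hk : k = i
      · rw [if_pos hk, if_pos hk, if_pos hk, hk]
        ring
      · rw [if_neg hk, if_neg hk, if_neg hk]
        ring
    rw [e3, Finset.sum_ite_eq', if_pos (mem_erase.2 ⟨fun h => hl h.symm, mem_univ _⟩)]
  have e4 : |∑ k ∈ univ.erase l, (if k = i then 1 else w k) * D k l| ≤ m * (4 / 25) := by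
    calc |∑ k ∈ univ.erase l, (if k = i then 1 else w k) * D k l|
        ≤ ∑ k ∈ univ.erase l, |(if k = i then 1 else w k) * D k l| := abs_sum_le_sum_abs _ _
      _ ≤ ∑ k ∈ univ.erase l, m * |D k l| := by
          refine sum_le_sum fun k _ => ?_
          rw [abs_mul]
          refine mul_le_mul_of_nonneg_right ?_ (abs_nonneg _)
          by_cases hk : k = i
          · rw [if_pos hk, abs_one]
            exact hm
          · rw [if_neg hk]
            exact hmw k hk
      _ = m * ∑ k ∈ univ.erase l, |D k l| := (mul_sum _ _ _).symm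
      _ ≤ _ := mul_le_mul_of_nonneg_left (h3 l) (by linarith)
  have e5 : w l * D l l = w i * p l -
      ∑ k ∈ univ.erase l, (if k = i then 1 else w k) * D k l := by
    have := hw l
    rw [e1] at this
    linarith
  calc |w l| * D l l ≤ |w l| * |D l l| :=
        mul_le_mul_of_nonneg_left (le_abs_self _) (abs_nonneg _)
    _ = |w i * p l - ∑ k ∈ univ.erase l, (if k = i then 1 else w k) * D k l| := by
        rw [← abs_mul, e5]
    _ ≤ |w i * p l| + |∑ k ∈ univ.erase l, (if k = i then 1 else w k) * D k l| := abs_sub _ _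
    _ ≤ _ := by
        rw [abs_mul]
        linarith

theorem LIN_row_i (n : ℕ) (i : Fin n) (D : Fin n → Fin n → ℝ) (p w : Fin n → ℝ)
    (h3 : ∀ l, ∑ k ∈ univ.erase l, |D k l| ≤ 4 / 25)
    (hw : ∀ l, D i l + ∑ k, (if k = i then 0 else w k) * D k l = w i * p l)
    (m : ℝ) (hm : 0 ≤ m) (hmw : ∀ k, k ≠ i → |w k| ≤ m) :
    |w i * p i - D i i| ≤ m * (4 / 25) := by
  classical
  have e1 : ∑ k, (if k = i then 0 else w k) * D k i =
      ∑ k ∈ univ.erase i, (if k = i then 0 else w k) * D k i := by
    rw [← add_sum_erase univ _ (mem_univ i), if_pos rfl]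
    ring
  have e2 : w i * p i - D i i = ∑ k ∈ univ.erase i, (if k = i then 0 else w k) * D k i := by
    have := hw i
    rw [e1] at this
    linarith
  rw [e2]
  calc |∑ k ∈ univ.erase i, (if k = i then 0 else w k) * D k i|
      ≤ ∑ k ∈ univ.erase i, |(if k = i then 0 else w k) * D k i| := abs_sum_le_sum_abs _ _
    _ ≤ ∑ k ∈ univ.erase i, m * |D k i| := by
        refine sum_le_sum fun k hk => ?_
        rw [abs_mul, if_neg (ne_of_mem_erase hk)]
        exact mul_le_mul_of_nonneg_right (hmw k (ne_of_mem_erase hk)) (abs_nonneg _)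
    _ = m * ∑ k ∈ univ.erase i, |D k i| := (mul_sum _ _ _).symm
    _ ≤ _ := mul_le_mul_of_nonneg_left (h3 i) hm

theorem p_LIN : Stmt_LIN := by
  classical
  intro n i D p h1 h2 h3 h4 h5 h6
  obtain ⟨w, hw⟩ := LIN_solve n i D p h1 h3 h4 h6
  haveI : Nonempty (Fin n) := ⟨i⟩
  obtain ⟨l0, hl0⟩ := Finite.exists_max (fun l => |w l|)
  have hY2 : |w l0| ≤ 2 := by
    by_cases hl : l0 = i
    · have e1 := LIN_row_i n i D p w h3 hw |w l0| (abs_nonneg _) (fun k _ => hl0 k)
      rw [hl] at e1 ⊢
      have e2 : |w i| * p i ≤ |w i| * (4 / 25) + 8 / 5 := by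
        have e3 : |w i| * p i = |w i * p i| := by
          rw [abs_mul, abs_of_pos (by linarith : 0 < p i)]
        rw [e3]
        have e4 : |w i * p i| ≤ |w i * p i - D i i| + |D i i| := by
          have := abs_add_le (w i * p i - D i i) (D i i)
          rwa [sub_add_cancel] at this
        have e5 : |D i i| ≤ 8 / 5 := by
          rw [abs_of_nonneg (by have := h1 i; linarith)]
          exact h2
        linarith
      have e6 := mul_le_mul_of_nonneg_left h4 (abs_nonneg (w i))
      linarith
    · by_contra hcon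
      push Not at hcon
      have e1 := LIN_row n i D p w h3 hw |w l0| (by linarith) (fun k _ => hl0 k) l0 hl
      have e2 : |w i| * |p l0| ≤ |w l0| * (1 / 20) :=
        mul_le_mul (hl0 i) (h6 l0 hl) (abs_nonneg _) (abs_nonneg _)
      have e3 := mul_le_mul_of_nonneg_left (h1 l0) (abs_nonneg (w l0))
      linarith
  have hall : ∀ l, |w l| ≤ 2 := fun l => (hl0 l).trans hY2
  have hne : ∀ l, l ≠ i → |w l| ≤ 1 := by
    intro l hl
    -- the maximum over the indices different from `i`
    obtain ⟨l1, hl1, hl1m⟩ := Finset.exists_max_image (univ.erase i) (fun l => |w l|)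
      ⟨l, mem_erase.2 ⟨hl, mem_univ _⟩⟩
    have hl1i : l1 ≠ i := ne_of_mem_erase hl1
    have hmax : ∀ k, k ≠ i → |w k| ≤ |w l1| := fun k hk => hl1m k (mem_erase.2 ⟨hk, mem_univ _⟩)
    refine (hmax l hl).trans ?_
    by_contra hcon
    push Not at hcon
    have e1 := LIN_row n i D p w h3 hw |w l1| hcon.le hmax l1 hl1i
    have e2 : |w i| * |p l1| ≤ 2 * (1 / 20) :=
      mul_le_mul (hall i) (h6 l1 hl1i) (abs_nonneg _) (by norm_num)
    have e3 := mul_le_mul_of_nonneg_left (h1 l1) (abs_nonneg (w l1))
    linarith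
  have hi := LIN_row_i n i D p w h3 hw 1 zero_le_one hne
  rw [abs_le] at hi
  have hi1 : 16 / 25 ≤ w i * p i := by
    have := h1 i
    linarith [hi.1]
  have hwi : 0 < w i := by
    by_contra hcon
    push Not at hcon
    have : w i * p i ≤ 0 := mul_nonpos_of_nonpos_of_nonneg hcon (by linarith)
    linarith
  refine ⟨fun k => if k = i then 0 else w k, w i, if_pos rfl, ?_, ?_, ?_, hw⟩
  · intro l
    show |if l = i then 0 else w l| ≤ 2
    split_ifs
    · rw [abs_zero]
      norm_num
    · exact hall l
  · nlinarith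
  · exact (le_abs_self _).trans (hall i)

end Pool.LD
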