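import Pool.Agent.Work.MP_7453a1_ld.Interface

set_option autoImplicit false

/-! # Block LNM (helper17) -/

namespace Pool.LD

open Finset

theorem LNM_a (n : ℕ) (hn : 1 ≤ n) : 4 * n ^ 2 ≤ 4 ^ n := by
  induction n, hn using Nat.le_induction with
  | base => norm_num
  | succ k hk ih =>
    have h : 4 ^ (k + 1) = 4 * 4 ^ k := by ring
    rw [h]
    nlinarith

theorem LNM_b (n : ℕ) : n ^ 2 * 3 ^ n ≤ 7 * 4 ^ n := by
  rcases Nat.lt_or_ge n 7 with h | h
  · interval_cases n <;> norm_num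
  · induction n, h using Nat.le_induction with
    | base => norm_num
    | succ k hk ih =>
      have h1 : 3 * (k + 1) ^ 2 ≤ 4 * k ^ 2 := by nlinarith
      calc (k + 1) ^ 2 * 3 ^ (k + 1) = (3 * (k + 1) ^ 2) * 3 ^ k := by ring
        _ ≤ (4 * k ^ 2) * 3 ^ k := Nat.mul_le_mul_right _ h1
        _ = 4 * (k ^ 2 * 3 ^ k) := by ring
        _ ≤ 4 * (7 * 4 ^ k) := Nat.mul_le_mul_left _ ih
        _ = 7 * 4 ^ (k + 1) := by ring

theorem p_LNM : Stmt_LNM := by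
  intro n hn
  have h1 : (4 * (n : ℝ) ^ 2) ≤ 4 ^ n := by exact_mod_cast LNM_a n hn
  have h2 : (n : ℝ) ^ 2 * 3 ^ n ≤ 7 * 4 ^ n := by exact_mod_cast LNM_b n
  have h3 : (1 : ℝ) ≤ 4 ^ n := one_le_pow₀ (by norm_num)
  unfold L
  refine ⟨by linarith, by linarith, by nlinarith⟩

end Pool.LD
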