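import Pool.Agent.Work.MP_7453a1_ld.Interface

set_option autoImplicit false

namespace Pool.LD

open Finset

theorem NUM_le (m : ℕ) :
    KK m ≤ (2 : ℝ) ^ (2 * (m + 1) + (14 + 2 * (m + 1)) * ((m + 1) * (m + 2))) := by
  unfold KK L
  calc (3 : ℝ) ^ (m + 1) * (10000 * 4 ^ (m + 1)) ^ ((m + 1) * (m + 1 + 1))
      ≤ ((2 : ℝ) ^ 2) ^ (m + 1) * (2 ^ 14 * (2 ^ 2) ^ (m + 1)) ^ ((m + 1) * (m + 1 + 1)) := by
        gcongr <;> norm_num
    _ = (2 : ℝ) ^ (2 * (m + 1) + (14 + 2 * (m + 1)) * ((m + 1) * (m + 2))) := by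
        rw [← pow_mul, ← pow_add, ← pow_mul, ← pow_add]

/-- **NUM** -/
theorem p_NUM : Stmt_NUM := by
  intro m
  have h1 : 1 ≤ KK m := by
    unfold KK L
    have h3 : (1 : ℝ) ≤ 3 ^ (m + 1) := one_le_pow₀ (by norm_num)
    have h4 : (1 : ℝ) ≤ 4 ^ (m + 1) := one_le_pow₀ (by norm_num)
    have h5 : (1 : ℝ) ≤ 10000 * 4 ^ (m + 1) := by linarith
    exact one_le_mul_of_one_le_of_one_le h3 (one_le_pow₀ h5)
  refine ⟨h1, ?_⟩
  set N : ℕ := 2 * (m + 1) + (14 + 2 * (m + 1)) * ((m + 1) * (m + 2)) with hN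
  have h2 : KK m ≤ (2 : ℝ) ^ N := NUM_le m
  have hpos : (0 : ℝ) < 2 ^ m := by positivity
  have hlog : Real.log ((2 : ℝ) ^ N) = N * Real.log 2 := by
    rw [Real.log_pow]
  have hNr : (N : ℝ) ≤ 34 * ((m : ℝ) + 1) ^ 3 := by
    have hx : (1 : ℝ) ≤ (m : ℝ) + 1 := by
      have : (0 : ℝ) ≤ m := Nat.cast_nonneg m
      linarith
    rw [hN]
    push_cast
    set x : ℝ := (m : ℝ) + 1 with hxd
    have e : (m : ℝ) + 2 = x + 1 := by rw [hxd]; ring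
    rw [e]
    have h3 : x ≤ x ^ 3 := by nlinarith [mul_nonneg (by linarith : (0 : ℝ) ≤ x) (by nlinarith : (0 : ℝ) ≤ x ^ 2 - 1)]
    have h4 : x ^ 2 ≤ x ^ 3 := by nlinarith [mul_nonneg (sq_nonneg x) (by linarith : (0 : ℝ) ≤ x - 1)]
    nlinarith
  have hlog2 : Real.log 2 ≤ 0.6931471808 := le_of_lt Real.log_two_lt_d9
  have hlog0 : 0 ≤ Real.log 2 := Real.log_nonneg (by norm_num)
  have h5 : (N : ℝ) * Real.log 2 ≤ 25 * ((m : ℝ) + 1) ^ 3 := by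
    have hx3 : (0 : ℝ) ≤ ((m : ℝ) + 1) ^ 3 := by positivity
    calc (N : ℝ) * Real.log 2 ≤ (34 * ((m : ℝ) + 1) ^ 3) * Real.log 2 :=
          mul_le_mul_of_nonneg_right hNr hlog0
      _ ≤ (34 * ((m : ℝ) + 1) ^ 3) * 0.6931471808 :=
          mul_le_mul_of_nonneg_left hlog2 (by positivity)
      _ ≤ 25 * ((m : ℝ) + 1) ^ 3 := by nlinarith
  calc KK m ^ (1 / (2 : ℝ) ^ m) ≤ ((2 : ℝ) ^ N) ^ (1 / (2 : ℝ) ^ m) :=
        Real.rpow_le_rpow (by linarith) h2 (by positivity)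
    _ = Real.exp (N * Real.log 2 * (1 / (2 : ℝ) ^ m)) := by
        rw [Real.rpow_def_of_pos (by positivity), hlog]
    _ ≤ Real.exp (50 * ((m : ℝ) + 1) ^ 3 / 2 ^ (m + 1)) := by
        apply Real.exp_le_exp.mpr
        have e : (50 : ℝ) * ((m : ℝ) + 1) ^ 3 / 2 ^ (m + 1) =
            25 * ((m : ℝ) + 1) ^ 3 * (1 / (2 : ℝ) ^ m) := by
          rw [pow_succ]
          field_simp
          ring
        rw [e]
        exact mul_le_mul_of_nonneg_right h5 (by positivity)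

end Pool.LD
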