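import Pool.Agent.Work.MP_7453a1_ld.Interface

set_option autoImplicit false

/-! # Block ORD (helper17) -/

namespace Pool.LD

open Finset

theorem p_ORD : Stmt_ORD := by
  classical
  refine ⟨?_, ?_⟩
  · intro n σ σ' hne
    have hS : (univ.filter fun k => σ k ≠ σ' k).Nonempty := by
      by_contra hcon
      rw [Finset.not_nonempty_iff_eq_empty] at hcon
      apply hne
      funext k
      by_contra hk
      have : k ∈ univ.filter fun k => σ k ≠ σ' k := by simp [hk]
      rw [hcon] at this
      exact absurd this (Finset.notMem_empty k)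
    refine ⟨(univ.filter fun k => σ k ≠ σ' k).max' hS, ?_, ?_⟩
    · have := Finset.max'_mem _ hS
      rw [Finset.mem_filter] at this
      exact this.2
    · intro l hl
      by_contra hne'
      have h1 : l ∈ univ.filter fun k => σ k ≠ σ' k := by simp [hne']
      exact absurd (Finset.le_max' _ l h1) (not_le.mpr hl)
  · intro n w σ σ' k hσ hσ' hw heq h1 h2
    have h3 : ∑ l, (σ' l : ℝ) * w l - ∑ l, (σ l : ℝ) * w l =
        ∑ l, ((σ' l : ℝ) - σ l) * w l := by
      rw [← Finset.sum_sub_distrib]
      exact Finset.sum_congr rfl fun l _ => by ring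
    have h4 : ∑ l, ((σ' l : ℝ) - σ l) * w l = 2 * w k +
        ∑ l ∈ univ.filter (· < k), ((σ' l : ℝ) - σ l) * w l := by
      rw [← Finset.sum_erase_add _ _ (Finset.mem_univ k)]
      have h5 : ∑ l ∈ univ.erase k, ((σ' l : ℝ) - σ l) * w l =
          ∑ l ∈ univ.filter (· < k), ((σ' l : ℝ) - σ l) * w l := by
        symm
        apply Finset.sum_subset
        · intro l hl
          rw [Finset.mem_filter] at hl
          exact Finset.mem_erase.mpr ⟨hl.2.ne, Finset.mem_univ l⟩
        · intro l hl hl'
          rw [Finset.mem_erase] at hl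
          have h6 : k < l := by
            rcases lt_or_gt_of_ne hl.1 with h | h
            · exact absurd (Finset.mem_filter.mpr ⟨Finset.mem_univ l, h⟩) hl'
            · exact h
          rw [heq l h6]
          ring
      rw [h5, h1, h2]
      push_cast
      ring
    have h5 : -(2 * ∑ l ∈ univ.filter (· < k), |w l|) ≤
        ∑ l ∈ univ.filter (· < k), ((σ' l : ℝ) - σ l) * w l := by
      rw [Finset.mul_sum, ← Finset.sum_neg_distrib]
      apply Finset.sum_le_sum
      intro l _
      have h6 : |((σ' l : ℝ) - σ l) * w l| ≤ 2 * |w l| := by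
        rw [abs_mul]
        apply mul_le_mul_of_nonneg_right _ (abs_nonneg _)
        rcases hσ l with h | h <;> rcases hσ' l with h' | h' <;> rw [h, h'] <;> norm_num
      linarith [(abs_le.mp h6).1]
    linarith

end Pool.LD
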