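import Pool.Agent.Work.MP_7453a1_ld.Interface

set_option autoImplicit false

/-! # Block PAT (helper17) -/

namespace Pool.LD

open Finset

theorem PAT_fin {n : ℕ} (g : ℕ → ℝ) (k : Fin n) :
    ∑ l ∈ univ.filter (· < k), g l = ∑ j ∈ Finset.range k, g j := by
  have h1 : (univ.filter (· < k)).map Fin.valEmbedding = Finset.range k := by
    ext j
    simp only [Finset.mem_map, Finset.mem_filter, Finset.mem_univ, true_and,
      Fin.valEmbedding_apply, Finset.mem_range]
    constructor
    · rintro ⟨a, ha, rfl⟩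
      exact ha
    · intro hj
      exact ⟨⟨j, lt_trans hj k.2⟩, hj, rfl⟩
  rw [← h1, Finset.sum_map]
  rfl

theorem PAT_geo (k : ℕ) : ∑ j ∈ Finset.range k, (3 : ℝ) ^ (j + 1) = (3 ^ (k + 1) - 3) / 2 := by
  induction k with
  | zero => simp
  | succ k ih => rw [Finset.sum_range_succ, ih]; ring

theorem PAT_last {m : ℕ} (k : Fin (m + 1)) (hk : k ≠ Fin.last m) :
    pat m k (Fin.last m) = 3 ^ ((k : ℕ) + 1) / (10 * 3 ^ (m + 1)) := by
  unfold pat
  rw [if_neg hk, if_neg (Ne.symm hk), if_pos rfl]

theorem p_PAT : Stmt_PAT := by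
  intro m
  have hne : ∀ k l : Fin (m + 1), k ≠ l → l ≠ Fin.last m → pat m k l = 0 := by
    intro k l hkl hl
    unfold pat
    by_cases hk : k = Fin.last m
    · rw [if_pos hk, if_neg hl]
    · rw [if_neg hk, if_neg (Ne.symm hkl), if_neg hl]
  have hdia : ∀ k : Fin (m + 1), k ≠ Fin.last m → pat m k k = 1 := by
    intro k hk
    unfold pat
    rw [if_neg hk, if_pos rfl]
  have hll : pat m (Fin.last m) (Fin.last m) = 7 / 5 := by
    unfold pat
    simp
  have hoff : ∀ k l : Fin (m + 1), k ≠ l → 0 ≤ pat m k l ∧ pat m k l ≤ 1 / 20 := by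
    intro k l hkl
    by_cases hl : l = Fin.last m
    · subst hl
      rw [PAT_last k hkl]
      refine ⟨by positivity, ?_⟩
      have hk : (k : ℕ) + 1 ≤ m := by
        have h1 := k.2
        have h2 : (k : ℕ) ≠ m := fun h => hkl (Fin.ext h)
        omega
      have h1 : (3 : ℝ) ^ ((k : ℕ) + 1) ≤ 3 ^ m := pow_le_pow_right₀ (by norm_num) hk
      have h2 : (3 : ℝ) ^ (m + 1) = 3 * 3 ^ m := by ring
      have h3 : (0 : ℝ) < 3 ^ m := by positivity
      rw [div_le_iff₀ (by positivity), h2]
      linarith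
    · rw [hne k l hkl hl]
      norm_num
  have hlt : ∀ k : Fin (m + 1), ∀ l ∈ univ.filter (· < k),
      pat m l (Fin.last m) = 3 ^ ((l : ℕ) + 1) / (10 * 3 ^ (m + 1)) := by
    intro k l hl
    apply PAT_last
    rw [Finset.mem_filter] at hl
    exact (lt_of_lt_of_le hl.2 (Fin.le_last k)).ne
  have hs : ∀ k : Fin (m + 1), ∑ l ∈ univ.filter (· < k), pat m l (Fin.last m) =
      (3 ^ ((k : ℕ) + 1) - 3) / 2 / (10 * 3 ^ (m + 1)) := by
    intro k
    rw [Finset.sum_congr rfl (hlt k), ← Finset.sum_div,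
      PAT_fin (fun j => (3 : ℝ) ^ (j + 1)) k, PAT_geo]
  refine ⟨?_, hoff, hne, ?_, hdia, hll, ?_⟩
  · intro k
    by_cases hk : k = Fin.last m
    · subst hk
      rw [hll]
      norm_num
    · rw [hdia k hk]
      norm_num
  · intro l
    by_cases hl : l = Fin.last m
    · subst hl
      have h1 : (univ : Finset (Fin (m + 1))).erase (Fin.last m) =
          univ.filter (· < Fin.last m) := by
        ext k
        simp only [Finset.mem_erase, Finset.mem_univ, and_true, Finset.mem_filter, true_and]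
        exact (Fin.lt_last_iff_ne_last).symm
      have h2 : ∀ k ∈ univ.filter (· < Fin.last m), |pat m k (Fin.last m)| =
          pat m k (Fin.last m) := by
        intro k hk
        rw [Finset.mem_filter] at hk
        exact abs_of_nonneg (hoff k _ hk.2.ne).1
      rw [h1, Finset.sum_congr rfl h2, hs]
      rw [div_le_iff₀ (by positivity)]
      simp only [Fin.val_last]
      linarith
    · have h1 : ∀ k ∈ univ.erase l, |pat m k l| = 0 := by
        intro k hk
        rw [hne k l (Finset.ne_of_mem_erase hk) hl, abs_zero]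
      rw [Finset.sum_congr rfl h1]
      simp
  · intro k hk
    rw [hs, PAT_last k hk]
    have h1 : (3 : ℝ) ≤ 3 ^ ((k : ℕ) + 1) := by
      have : (1 : ℝ) ≤ 3 ^ (k : ℕ) := one_le_pow₀ (by norm_num)
      rw [pow_succ]
      linarith
    rw [← add_div]
    apply div_le_div_of_nonneg_right _ (by positivity)
    linarith

end Pool.LD
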