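import Pool.Agent.Work.MP_7453a1_ld.Interface

set_option autoImplicit false

/-! # Block PSA: the first half of a stage -/

namespace Pool.LD

open Finset Filter
open Pool.Agent.Work.MP_7453a1_nt_norm (IsNorm IsBest IsBestDenominator Admissible)

theorem PSA_ind (hSCL : Stmt_SCL) (n : ℕ) (hn : 1 ≤ n) (hL1 : 10000 ≤ L n)
    (hLn : 700 * (n : ℝ) ≤ L n) (F : Fr n) (hF : F.Bas) (ε : ℝ)
    (hε : 0 < ε) (D : Fin n → Fin n → ℝ) (hD : Near (3 / 20) D) (hCl : F.Cl (fun _ => ε) D 0)
    (j : ℕ) (hj : j ≤ n) :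
    ∃ F' : Fr n, F'.Bas ∧ (∀ k : Fin n, (k : ℕ) < j → L n * F'.u k ≤ 3 * F'.q) ∧ F.q ≤ F'.q ∧
      F'.q ≤ L n ^ (j * (j + 1) / 2) * F.q ∧
      (∀ l, |F'.ctr l - F.ctr l| ≤ 2 * j * ε / (L n * F.q)) ∧
      F'.Cl (fun k => if (k : ℕ) < j then ε / L n ^ ((k : ℕ) + 1) else ε) D (7 * j / L n) := by
  have hL0 : 0 < L n := by linarith
  have hq0 : 0 < F.q := hF.q_pos
  induction j with
  | zero =>
    refine ⟨F, hF, fun k hk => absurd hk (Nat.not_lt_zero _), le_rfl, ?_, ?_, ?_⟩
    · simp
    · intro l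
      simp
    · simpa using hCl
  | succ j ih =>
    obtain ⟨F', hB, hu, hq1, hq2, hc, hcl⟩ := ih (by omega)
    have hq' : 0 < F'.q := hB.q_pos
    have hjn : j < n := by omega
    obtain ⟨i, hi⟩ : ∃ i : Fin n, (i : ℕ) = j := ⟨⟨j, hjn⟩, rfl⟩
    set s : Fin n → ℝ := fun k => if (k : ℕ) < j then ε / L n ^ ((k : ℕ) + 1) else ε with hs
    have hsi : s i = ε := by
      show (if (i : ℕ) < j then ε / L n ^ ((i : ℕ) + 1) else ε) = ε
      rw [if_neg (by omega)]
    have hs0 : ∀ k, 0 < s k := by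
      intro k
      show 0 < (if (k : ℕ) < j then ε / L n ^ ((k : ℕ) + 1) else ε)
      split_ifs
      · positivity
      · exact hε
    have hP : 0 < L n ^ (j + 1) := by positivity
    have hLP : L n ≤ L n ^ (j + 1) := by
      calc L n = L n ^ 1 := (pow_one _).symm
        _ ≤ L n ^ (j + 1) := pow_le_pow_right₀ (by linarith) (by omega)
    have hyp : ∀ l, l ≠ i → L n * (F'.u l * (s i / L n ^ (j + 1))) ≤ 3 * (F'.q * s l) := by
      intro l hl
      rw [hsi]
      have hul := hB.u_nonneg l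
      have huq := hB.u_le l
      have hlj : (l : ℕ) ≠ j := fun h => hl (Fin.ext (by omega))
      by_cases h1 : (l : ℕ) < j
      · have e1 := hu l h1
        have e2 : s l = ε / L n ^ ((l : ℕ) + 1) := if_pos h1
        have e3 : ε / L n ^ (j + 1) ≤ s l := by
          rw [e2]
          refine div_le_div_of_nonneg_left hε.le (by positivity) ?_
          exact pow_le_pow_right₀ (by linarith) (by omega)
        have e4 : 0 ≤ ε / L n ^ (j + 1) := by positivity
        calc L n * (F'.u l * (ε / L n ^ (j + 1))) = (L n * F'.u l) * (ε / L n ^ (j + 1)) := by ring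
          _ ≤ (3 * F'.q) * (ε / L n ^ (j + 1)) := mul_le_mul_of_nonneg_right e1 e4
          _ ≤ (3 * F'.q) * s l := mul_le_mul_of_nonneg_left e3 (by positivity)
          _ = 3 * (F'.q * s l) := by ring
      · have e2 : s l = ε := if_neg h1
        rw [e2]
        have e3 : L n * (ε / L n ^ (j + 1)) ≤ ε := by
          rw [← mul_div_assoc, div_le_iff₀ hP, mul_comm]
          exact mul_le_mul_of_nonneg_left hLP hε.le
        calc L n * (F'.u l * (ε / L n ^ (j + 1))) = F'.u l * (L n * (ε / L n ^ (j + 1))) := by ring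
          _ ≤ F'.q * ε := mul_le_mul huq e3 (by positivity) hq'.le
          _ ≤ 3 * (F'.q * ε) := by nlinarith [mul_pos hq' hε]
    have hjr : (j : ℝ) ≤ n := by exact_mod_cast hjn.le
    have ht0 : 0 ≤ 7 * (j : ℝ) / L n := by positivity
    have ht1 : 7 * (j : ℝ) / L n ≤ 1 / 100 := by
      rw [div_le_iff₀ hL0]
      linarith
    obtain ⟨F'', hB'', hui, hul, hq3, hq4, hc', hcl'⟩ := hSCL n hn F' hB i (j + 1) (by omega) s hs0
      hyp D (7 * j / L n) hD ht0 ht1 hcl
    have hq5 : F'.q ≤ F''.q := by nlinarith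
    refine ⟨F'', hB'', ?_, hq1.trans hq5, ?_, ?_, ?_⟩
    · intro k hk
      by_cases hki : k = i
      · rw [hki, hui]
        exact hq3
      · rw [hul k hki]
        have hkj : (k : ℕ) < j := by
          have : (k : ℕ) ≠ j := fun h => hki (Fin.ext (by omega))
          omega
        have := hu k hkj
        linarith
    · have e1 : (j + 1) * (j + 1 + 1) / 2 = j * (j + 1) / 2 + (j + 1) := by
        have e2 : (j + 1) * (j + 1 + 1) = j * (j + 1) + 2 * (j + 1) := by ring
        rw [e2, Nat.add_mul_div_left _ _ (by norm_num)]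
      rw [e1, pow_add]
      calc F''.q ≤ L n ^ (j + 1) * F'.q := hq4
        _ ≤ L n ^ (j + 1) * (L n ^ (j * (j + 1) / 2) * F.q) :=
          mul_le_mul_of_nonneg_left hq2 hP.le
        _ = _ := by ring
    · intro l
      have e1 := hc' l
      rw [hsi] at e1
      have e2 := hc l
      have e3 : 2 * ε / (L n ^ (j + 1) * F'.q) ≤ 2 * ε / (L n * F.q) := by
        refine div_le_div_of_nonneg_left (by positivity) (by positivity) ?_
        exact mul_le_mul hLP hq1 hq0.le hP.le
      have e4 : 2 * ((j + 1 : ℕ) : ℝ) * ε / (L n * F.q) =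
          2 * ε / (L n * F.q) + 2 * j * ε / (L n * F.q) := by
        push_cast
        ring
      rw [e4]
      have e5 : F''.ctr l - F.ctr l = (F''.ctr l - F'.ctr l) + (F'.ctr l - F.ctr l) := by ring
      rw [e5]
      exact (abs_add_le _ _).trans (add_le_add (e1.trans e3) e2)
    · have e1 : 7 * ((j + 1 : ℕ) : ℝ) / L n = 7 * j / L n + 7 / L n := by
        push_cast
        ring
      have e2 : (fun k : Fin n => if (k : ℕ) < j + 1 then ε / L n ^ ((k : ℕ) + 1) else ε) =
          Function.update s i (s i / L n ^ (j + 1)) := by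
        funext k
        by_cases hki : k = i
        · rw [hki, Function.update_self, hsi, if_pos (by omega), hi]
        · rw [Function.update_of_ne hki]
          have hkj : (k : ℕ) ≠ j := fun h => hki (Fin.ext (by omega))
          show _ = (if (k : ℕ) < j then ε / L n ^ ((k : ℕ) + 1) else ε)
          by_cases h1 : (k : ℕ) < j
          · rw [if_pos h1, if_pos (by omega)]
          · rw [if_neg h1, if_neg (by omega)]
      rw [e1, e2]
      exact hcl'

theorem p_PSA (hSCL : Stmt_SCL) (hLNM : Stmt_LNM) : Stmt_PSA := by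
  intro n hn F hF ε hε D hD hCl
  obtain ⟨h1, h2, -⟩ := hLNM n hn
  have hn1 : (1 : ℝ) ≤ n := by exact_mod_cast hn
  have h3 : 700 * (n : ℝ) ≤ L n := by nlinarith
  have hD' : Near (3 / 20) D :=
    ⟨hD.dl, hD.du, fun l => (hD.off l).trans (by norm_num)⟩
  obtain ⟨F', a1, a2, a3, a4, a5, a6⟩ := PSA_ind hSCL n hn h2 h3 F hF ε hε D hD' hCl n le_rfl
  refine ⟨F', a1, fun k => a2 k k.2, a3, a4, a5, ?_⟩
  have e2 : (fun k : Fin n => if (k : ℕ) < n then ε / L n ^ ((k : ℕ) + 1) else ε) =
      fun k : Fin n => ε / L n ^ ((k : ℕ) + 1) := by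
    funext k
    rw [if_pos k.2]
  rw [e2] at a6
  exact a6

end Pool.LD
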