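import Pool.Agent.Work.MP_7453a1_ld.Interface

set_option autoImplicit false

namespace Pool.LD

open Finset Filter

theorem RNA_last (N x q W Λ : ℝ) (hN : 1 ≤ N) (hq : 0 < q) (hΛ : 10000 ≤ Λ) (hW : Λ ≤ W)
    (hx : 2 / 5 ≤ x) :
    q + 3 * q / Λ + N * ((2 * W + 1) * (3 * q / Λ)) ≤ 26 * N / Λ * (x * W * q) := by
  have hΛ0 : 0 < Λ := by linarith
  obtain ⟨f, hf⟩ : ∃ f : ℝ, f = 1 / Λ := ⟨_, rfl⟩
  obtain ⟨v, hv⟩ : ∃ v : ℝ, v = W / Λ := ⟨_, rfl⟩
  have hf1 : f ≤ 1 / 10000 := by
    rw [hf]
    exact one_div_le_one_div_of_le (by norm_num) hΛ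
  have hf0 : 0 < f := by rw [hf]; positivity
  have hv1 : 1 ≤ v := by rw [hv, le_div_iff₀ hΛ0]; linarith
  have e1 : q + 3 * q / Λ + N * ((2 * W + 1) * (3 * q / Λ)) =
      q * (1 + 3 * f + 6 * (N * v) + 3 * N * f) := by
    rw [hf, hv]
    field_simp
    ring
  have e2 : 26 * N / Λ * (x * W * q) = q * (26 * x * (N * v)) := by
    rw [hv]
    field_simp
  rw [e1, e2]
  refine mul_le_mul_of_nonneg_left ?_ hq.le
  have hNv : N ≤ N * v := le_mul_of_one_le_right (by linarith) hv1
  have hNv1 : 1 ≤ N * v := by linarith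
  have h1 : 2 / 5 * (N * v) ≤ x * (N * v) := mul_le_mul_of_nonneg_right hx (by linarith)
  have h2 : N * f ≤ N * (1 / 10000) := mul_le_mul_of_nonneg_left hf1 (by linarith)
  linarith

theorem p_RNA (hLIN : Stmt_LIN) (hLNM : Stmt_LNM) : Stmt_RNA := by
  intro n hn q u E hq hu huq i s σ hσ hσs hLσ hLs D t hD ht0 hnt hE p hp1 hp2 hp3
  obtain ⟨-, hL, -⟩ := hLNM n hn
  obtain ⟨Λ, hΛ⟩ : ∃ Λ : ℝ, Λ = L n := ⟨_, rfl⟩
  rw [← hΛ] at hL hLσ
  simp only [← hΛ] at huq hLs ⊢
  have hΛ0 : (0 : ℝ) < Λ := by linarith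
  have hs0 : ∀ k, 0 < s k := fun k => lt_of_lt_of_le hσ (hσs k)
  have hn1 : (1 : ℝ) ≤ n := by exact_mod_cast hn
  have ht1 : t ≤ 1 / 100 := le_trans (le_mul_of_one_le_left ht0 hn1) hnt
  have hd : ∀ k l, |E k l / s k - D k l| ≤ t := by
    intro k l
    have e : E k l / s k - D k l = (E k l - s k * D k l) / s k := by
      have := (hs0 k).ne'
      field_simp
    rw [e, abs_div, abs_of_pos (hs0 k), div_le_iff₀ (hs0 k)]
    exact hE k l
  have h1 : ∀ l, 4 / 5 ≤ E l l / s l := by
    intro l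
    have h := (abs_le.1 (hd l l)).1
    have h' := hD.dl l
    linarith
  have h2 : ∀ l, E l l / s l ≤ 8 / 5 := by
    intro l
    have h := (abs_le.1 (hd l l)).2
    have h' := hD.du l
    linarith
  have h3 : ∀ l, ∑ k ∈ univ.erase l, |E k l / s k| ≤ 4 / 25 := by
    intro l
    have c1 : ∑ k ∈ univ.erase l, |E k l / s k| ≤ ∑ k ∈ univ.erase l, (|D k l| + t) := by
      refine Finset.sum_le_sum fun k _ => ?_
      have a1 := hd k l
      have a2 := abs_sub_abs_le_abs_sub (E k l / s k) (D k l)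
      linarith
    have c2 : ∑ k ∈ univ.erase l, (|D k l| + t) =
        ∑ k ∈ univ.erase l, |D k l| + ((n - 1 : ℕ) : ℝ) * t := by
      rw [Finset.sum_add_distrib, Finset.sum_const, Finset.card_erase_of_mem (mem_univ l),
        card_univ, Fintype.card_fin, nsmul_eq_mul]
    have c3 : ((n - 1 : ℕ) : ℝ) * t ≤ n * t :=
      mul_le_mul_of_nonneg_right (by exact_mod_cast Nat.sub_le n 1) ht0
    have c4 := hD.off l
    linarith
  obtain ⟨y, x, hy0, hy2, hx1, hx2, hxy⟩ := hLIN n i (fun k l => E k l / s k) p h1 (h2 i) h3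
    hp1 hp2 hp3
  have hDle : ∀ k l, |E k l| ≤ 8 / 5 * s k := by
    intro k l
    have c1 : |E k l / s k| ≤ 8 / 5 := by
      by_cases hkl : k = l
      · subst hkl
        rw [abs_of_nonneg (by linarith [h1 k])]
        exact h2 k
      · have c2 := Finset.single_le_sum (f := fun k => |E k l / s k|) (s := univ.erase l)
          (fun k _ => abs_nonneg _) (Finset.mem_erase.2 ⟨hkl, mem_univ k⟩)
        have c3 := h3 l
        linarith
    rw [abs_div, abs_of_pos (hs0 k), div_le_iff₀ (hs0 k)] at c1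
    exact c1
  have hround : ∀ k, |2 * (round (y k * s i / s k / 2) : ℝ) - y k * s i / s k| ≤ 1 := by
    intro k
    have c := abs_sub_round (y k * s i / s k / 2)
    have e : 2 * (round (y k * s i / s k / 2) : ℝ) - y k * s i / s k =
        -(2 * (y k * s i / s k / 2 - round (y k * s i / s k / 2))) := by ring
    rw [e, abs_neg, abs_mul, abs_of_pos (by norm_num : (0 : ℝ) < 2)]
    linarith
  refine ⟨round (x * s i / σ / 2), fun k => round (y k * s i / s k / 2), x * s i, ?_, ?_, ?_,
    ?_, ?_⟩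
  · simp only [hy0, zero_mul, zero_div, round_zero]
  · exact mul_le_mul_of_nonneg_right hx1 (hs0 i).le
  · exact mul_le_mul_of_nonneg_right hx2 (hs0 i).le
  · intro l
    have key : E i l + ∑ k, 2 * ((round (y k * s i / s k / 2) : ℤ) : ℝ) * E k l -
        x * s i * p l = ∑ k, (2 * ((round (y k * s i / s k / 2) : ℤ) : ℝ) -
          y k * s i / s k) * E k l := by
      have c1 : E i l + ∑ k, y k * s i / s k * E k l = x * s i * p l := by
        have c2 := hxy l
        have c3 : s i * (E i l / s i + ∑ k, y k * (E k l / s k)) = s i * (x * p l) := by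
          rw [c2]
        rw [mul_add, mul_div_cancel₀ _ (hs0 i).ne', Finset.mul_sum] at c3
        have c4 : ∑ k, y k * s i / s k * E k l = ∑ k, s i * (y k * (E k l / s k)) := by
          refine Finset.sum_congr rfl fun k _ => ?_
          ring
        rw [c4, c3]
        ring
      rw [← c1]
      simp only [sub_mul, Finset.sum_sub_distrib]
      ring
    rw [key]
    have c5 : |∑ k, (2 * ((round (y k * s i / s k / 2) : ℤ) : ℝ) - y k * s i / s k) * E k l| ≤
        ∑ _k : Fin n, 8 / 5 * (s i / Λ) := by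
      refine (Finset.abs_sum_le_sum_abs _ _).trans (Finset.sum_le_sum fun k _ => ?_)
      rw [abs_mul]
      by_cases hk : k = i
      · subst hk
        rw [hy0]
        simp only [zero_mul, zero_div, round_zero, Int.cast_zero, mul_zero, sub_zero, abs_zero]
        have := hs0 k
        positivity
      · have d1 : s k ≤ s i / Λ := by
          rw [le_div_iff₀ hΛ0]
          have := hLs k hk
          linarith
        calc |2 * ((round (y k * s i / s k / 2) : ℤ) : ℝ) - y k * s i / s k| * |E k l|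
            ≤ 1 * (8 / 5 * s k) := mul_le_mul (hround k) (hDle k l) (abs_nonneg _) zero_le_one
          _ ≤ 8 / 5 * (s i / Λ) := by linarith
    refine c5.trans (le_of_eq ?_)
    rw [Finset.sum_const, card_univ, Fintype.card_fin, nsmul_eq_mul]
    ring
  · have hW : Λ ≤ s i / σ := by rw [le_div_iff₀ hσ]; exact hLσ
    have hW0 : 0 ≤ s i / σ := by linarith
    have a1 : |2 * ((round (x * s i / σ / 2) : ℤ) : ℝ) - x * s i / σ| ≤ 1 := by
      have c := abs_sub_round (x * s i / σ / 2)
      have e : 2 * (round (x * s i / σ / 2) : ℝ) - x * s i / σ =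
          -(2 * (x * s i / σ / 2 - round (x * s i / σ / 2))) := by ring
      rw [e, abs_neg, abs_mul, abs_of_pos (by norm_num : (0 : ℝ) < 2)]
      linarith
    have a2 : ∀ k, u k ≤ 3 * q / Λ := by
      intro k
      rw [le_div_iff₀ hΛ0]
      have := huq k
      linarith
    have a3 : ∀ k, |2 * ((round (y k * s i / s k / 2) : ℤ) : ℝ) * u k| ≤
        (2 * (s i / σ) + 1) * (3 * q / Λ) := by
      intro k
      rw [abs_mul, abs_of_nonneg (hu k)]
      refine mul_le_mul ?_ (a2 k) (hu k) (by linarith)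
      have b1 := hround k
      have b2 : |y k * s i / s k| ≤ 2 * (s i / σ) := by
        rw [mul_div_assoc, abs_mul]
        have b3 : |s i / s k| ≤ s i / σ := by
          rw [abs_of_nonneg (div_nonneg (hs0 i).le (hs0 k).le)]
          exact div_le_div_of_nonneg_left (hs0 i).le hσ (hσs k)
        exact mul_le_mul (hy2 k) b3 (abs_nonneg _) (by norm_num)
      have b4 := abs_sub_abs_le_abs_sub (2 * ((round (y k * s i / s k / 2) : ℤ) : ℝ))
        (y k * s i / s k)
      linarith
    have a4 : |∑ k, 2 * ((round (y k * s i / s k / 2) : ℤ) : ℝ) * u k| ≤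
        n * ((2 * (s i / σ) + 1) * (3 * q / Λ)) := by
      refine (Finset.abs_sum_le_sum_abs _ _).trans ?_
      refine (Finset.sum_le_sum fun k _ => a3 k).trans (le_of_eq ?_)
      rw [Finset.sum_const, card_univ, Fintype.card_fin, nsmul_eq_mul]
    have a5 := RNA_last n x q (s i / σ) Λ hn1 hq hL hW hx1
    have e6 : 2 * ((round (x * s i / σ / 2) : ℤ) : ℝ) * q -
        (u i + ∑ k, 2 * ((round (y k * s i / s k / 2) : ℤ) : ℝ) * u k) - x * s i / σ * q =
        (2 * ((round (x * s i / σ / 2) : ℤ) : ℝ) - x * s i / σ) * q - u i -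
          ∑ k, 2 * ((round (y k * s i / s k / 2) : ℤ) : ℝ) * u k := by ring
    rw [e6]
    have e7 : 26 * (n : ℝ) / Λ * (x * s i / σ * q) = 26 * n / Λ * (x * (s i / σ) * q) := by ring
    rw [e7]
    refine le_trans ?_ a5
    refine (abs_sub _ _).trans ?_
    refine add_le_add ((abs_sub _ _).trans (add_le_add ?_ ?_)) a4
    · rw [abs_mul, abs_of_pos hq]
      calc |2 * ((round (x * s i / σ / 2) : ℤ) : ℝ) - x * s i / σ| * q ≤ 1 * q :=
            mul_le_mul_of_nonneg_right a1 hq.le
        _ = q := one_mul q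
    · rw [abs_of_nonneg (hu i)]
      exact a2 i

end Pool.LD
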