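import Pool.Agent.Work.MP_7453a1_ld.Interface

set_option autoImplicit false

/-! # THEOREM LD, block RND (helper79): the correcting step -/

namespace Pool.LD

open Finset Filter

theorem RND_q {n : ℕ} (F : Fr n) (i : Fin n) (r : ℤ) (c : Fin n → ℤ) :
    (F.nxt i r c).q = 2 * r * F.q - (F.u i + ∑ k, 2 * (c k : ℝ) * F.u k) := by
  have h : (F.nxt i r c).v.1 = 2 * r * F.v.1 - ((F.f i).1 + ∑ k, 2 * c k * (F.f k).1) := by
    unfold Fr.nxt
    simp only [Prod.fst_sub, Prod.fst_add, Prod.smul_fst, Prod.fst_sum, smul_eq_mul]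
  unfold Fr.q Fr.u
  rw [h]
  push_cast
  ring

/-- real inequalities, everything multiplied by `σ`; `A = σ q'`, `ν = n / Λ` -/
theorem RND_num {ν q si X A : ℝ} (_hν0 : 0 ≤ ν) (hν : ν ≤ 1 / 40000) (hq : 0 < q) (hsi : 0 < si)
    (hX1 : 2 / 5 * si ≤ X) (hX2 : X ≤ 2 * si) (hA : |A - X * q| ≤ 26 * ν * (X * q)) :
    999 / 1000 * (X * q) ≤ A ∧ 39 / 100 * (si * q) ≤ A ∧ A ≤ 3 * (si * q) := by
  have hX : 0 < X := by linarith
  have hXq : 0 < X * q := mul_pos hX hq
  have h1 : 26 * ν * (X * q) ≤ 1 / 1000 * (X * q) :=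
    mul_le_mul_of_nonneg_right (by linarith) hXq.le
  have h2 : 2 / 5 * si * q ≤ X * q := mul_le_mul_of_nonneg_right hX1 hq.le
  have h3 : X * q ≤ 2 * si * q := mul_le_mul_of_nonneg_right hX2 hq.le
  have h4 : 0 < si * q := mul_pos hsi hq
  have h5 := abs_le.1 hA
  refine ⟨by linarith [h5.1], by nlinarith [h5.1], by nlinarith [h5.2]⟩

theorem RND_Eg {ν si X P G : ℝ} (_hν0 : 0 ≤ ν) (hν : ν ≤ 1 / 40000) (hsi : 0 < si)
    (hX1 : 2 / 5 * si ≤ X) (hX2 : X ≤ 2 * si) (hP : |P| ≤ 7 / 5)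
    (hG : |G - X * P| ≤ 8 / 5 * ν * si) : |G| ≤ 281 / 100 * si := by
  have hX : 0 < X := by linarith
  have h1 : |X * P| ≤ 7 / 5 * (2 * si) := by
    rw [abs_mul, abs_of_pos hX, mul_comm X]
    exact mul_le_mul hP hX2 hX.le (by norm_num)
  have h2 : 8 / 5 * ν * si ≤ 1 / 1000 * si := mul_le_mul_of_nonneg_right (by linarith) hsi.le
  have h3 : |G| ≤ |G - X * P| + |X * P| := by
    have := abs_add_le (G - X * P) (X * P)
    rwa [sub_add_cancel] at this
  linarith

theorem RND_Ei {ν q si X A P G σ q' : ℝ} (hν0 : 0 ≤ ν) (hq : 0 < q)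
    (hX1 : 2 / 5 * si ≤ X) (hXp : 0 < X) (hP : |P| ≤ 7 / 5) (_hσ : 0 < σ) (hq' : 0 < q')
    (hA0 : A = σ * q') (hA : |A - X * q| ≤ 26 * ν * (X * q)) (hA1 : 999 / 1000 * (X * q) ≤ A)
    (hG : |G - X * P| ≤ 8 / 5 * ν * si) : |q * G / q' - σ * P| ≤ 45 * ν * σ := by
  have h1 : q * G / q' - σ * P = (q * (G - X * P) - P * (A - X * q)) / q' := by
    rw [hA0]
    field_simp
    ring
  rw [h1, abs_div, abs_of_pos hq', div_le_iff₀ hq']
  have h2 : |q * (G - X * P) - P * (A - X * q)| ≤ q * (8 / 5 * ν * si) +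
      7 / 5 * (26 * ν * (X * q)) := by
    have h3 := abs_sub (q * (G - X * P)) (P * (A - X * q))
    have h4 : |q * (G - X * P)| ≤ q * (8 / 5 * ν * si) := by
      rw [abs_mul, abs_of_pos hq]
      exact mul_le_mul_of_nonneg_left hG hq.le
    have h5 : |P * (A - X * q)| ≤ 7 / 5 * (26 * ν * (X * q)) := by
      rw [abs_mul]
      exact mul_le_mul hP hA (abs_nonneg _) (by norm_num)
    linarith
  have h6 : q * (8 / 5 * ν * si) ≤ 4 * (ν * (X * q)) := by
    have h7 : ν * q * (2 / 5 * si) ≤ ν * q * X :=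
      mul_le_mul_of_nonneg_left hX1 (mul_nonneg hν0 hq.le)
    nlinarith
  have h8 : ν * (999 / 1000 * (X * q)) ≤ ν * A := mul_le_mul_of_nonneg_left hA1 hν0
  have h9 : 0 ≤ ν * (X * q) := mul_nonneg hν0 (mul_pos hXp hq).le
  have h10 : 45 * ν * σ * q' = 45 * (ν * A) := by
    rw [hA0]
    ring
  rw [h10]
  linarith

theorem p_RND (hSTP : Stmt_STP) (hGOD : Stmt_GOD) (hRNA : Stmt_RNA) (hLNM : Stmt_LNM) :
    Stmt_RND := by
  intro n hn F hB hu i s σ hσ hσs hLσ hLs D t hD ht0 ht hCl p hp1 hp2 hp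
  obtain ⟨hL1, hL2, -⟩ := hLNM n hn
  have hn1 : (1 : ℝ) ≤ (n : ℝ) := by exact_mod_cast hn
  have hL0 : 0 < L n := by linarith
  have hq : 0 < F.q := hB.q_pos
  obtain ⟨r, c, X, hci, hX1, hX2, hG, hQ⟩ :=
    hRNA n hn F.q F.u F.E hq hB.u_nonneg hu i s σ hσ hσs hLσ hLs D t hD ht0 ht hCl p hp1 hp2 hp
  -- numbers
  set ν : ℝ := (n : ℝ) / L n with hνdef
  have hν0 : 0 ≤ ν := div_nonneg (by linarith) hL0.le
  have hν : ν ≤ 1 / 40000 := by
    rw [hνdef, div_le_iff₀ hL0]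
    nlinarith
  have hsi : 0 < s i := lt_of_lt_of_le hσ (hσs i)
  have hXp : 0 < X := by linarith
  set G : Fin n → ℝ := fun l => F.E i l + ∑ k, 2 * (c k : ℝ) * F.E k l with hGdef
  have hG' : ∀ l, |G l - X * p l| ≤ 8 / 5 * ν * s i := by
    intro l
    have h1 := hG l
    have h2 : 8 / 5 * (n : ℝ) * s i / L n = 8 / 5 * ν * s i := by
      rw [hνdef]
      ring
    rw [h2] at h1
    exact h1
  have hpa : ∀ l, |p l| ≤ 7 / 5 := by
    intro l
    by_cases hl : l = i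
    · subst hl
      rw [abs_of_nonneg (by linarith)]
      exact hp2
    · have := hp l hl
      linarith
  -- the new denominator
  have hqf := RND_q F i r c
  set q' : ℝ := (F.nxt i r c).q with hq'def
  have hA : |σ * q' - X * F.q| ≤ 26 * ν * (X * F.q) := by
    have h1 : σ * q' - X * F.q = σ * (2 * r * F.q - (F.u i + ∑ k, 2 * (c k : ℝ) * F.u k) -
        X / σ * F.q) := by
      rw [hqf]
      field_simp
    have h2 : 26 * ν * (X * F.q) = σ * (26 * n / L n * (X / σ * F.q)) := by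
      rw [hνdef]
      field_simp
    rw [h1, h2, abs_mul, abs_of_pos hσ]
    exact mul_le_mul_of_nonneg_left hQ hσ.le
  obtain ⟨hA1, hA2, hA3⟩ := RND_num hν0 hν hq hsi hX1 hX2 hA
  have hsq : 0 < s i * F.q := mul_pos hsi hq
  have hq'pos : 0 < q' := by
    have h1 : 0 < σ * q' := by linarith
    exact (pos_iff_pos_of_mul_pos h1).1 hσ
  obtain ⟨hs1, hs2, hs3, hs4, hs5, hs6⟩ := hSTP n F i r c hq.ne' hq'pos.ne'
  have hGa : ∀ l, |G l| ≤ 281 / 100 * s i := fun l =>
    RND_Eg hν0 hν hsi hX1 hX2 (hpa l) (hG' l)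
  have hGq : ∀ l, |G l / q'| ≤ 36 / 5 * σ / F.q := by
    intro l
    rw [abs_div, abs_of_pos hq'pos, div_le_div_iff₀ hq'pos hq]
    have h1 : |G l| * F.q ≤ 281 / 100 * s i * F.q := mul_le_mul_of_nonneg_right (hGa l) hq.le
    nlinarith
  have hLq : L n * F.q ≤ 3 * q' := by
    have h1 : L n * σ * F.q ≤ s i * F.q := mul_le_mul_of_nonneg_right hLσ hq.le
    have h2 : σ * (L n * F.q) ≤ σ * (3 * q') := by nlinarith
    exact le_of_mul_le_mul_left h2 hσ
  have hqq' : F.q ≤ q' := by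
    have h1 : 3 * F.q ≤ L n * F.q := mul_le_mul_of_nonneg_right (by linarith) hq.le
    linarith
  have hf : ∀ k, (F.nxt i r c).f k = Function.update F.f i F.v k := fun k => rfl
  have huq : ∀ k, F.u k ≤ F.q := hB.u_le
  refine ⟨F.nxt i r c, ⟨hGOD n F i r c hci hB.good, ?_, ?_, ?_⟩, hs2, hs3, hLq, ?_, ?_, ?_, ?_⟩
  · have h1 : (0 : ℝ) < ((F.nxt i r c).v.1 : ℝ) := hq'pos
    exact_mod_cast h1
  · intro k
    rw [hf k]
    by_cases hk : k = i
    · subst hk
      rw [Function.update_self]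
      exact hB.qp.le
    · rw [Function.update_of_ne hk]
      exact hB.u0 k
  · intro k
    have h1 : (F.nxt i r c).u k ≤ (F.nxt i r c).q := by
      by_cases hk : k = i
      · subst hk
        rw [hs2]
        exact hqq'
      · rw [hs3 k hk]
        exact (huq k).trans hqq'
    unfold Fr.u Fr.q at h1
    exact_mod_cast h1
  · have h1 : 3 * (s i / σ) * F.q = 3 * (s i * F.q) / σ := by ring
    rw [h1, le_div_iff₀ hσ, mul_comm]
    exact hA3
  · intro l
    have h1 : (F.nxt i r c).ctr l - F.ctr l = G l / q' := by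
      rw [hs4 l]
      ring
    rw [h1]
    refine (hGq l).trans ?_
    apply div_le_div_of_nonneg_right _ hq.le
    linarith
  · intro l
    have h1 : (F.nxt i r c).E i l = F.q * G l / q' := hs5 l
    rw [h1]
    have h2 := RND_Ei (P := p l) (G := G l) hν0 hq hX1 hXp (hpa l) hσ hq'pos rfl hA hA1 (hG' l)
    have h3 : 45 * (n : ℝ) / L n * σ = 45 * ν * σ := by
      rw [hνdef]
      ring
    rw [h3]
    exact h2
  · intro k hk l
    have h1 : (F.nxt i r c).E k l - F.E k l = F.u k * (G l / q') := by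
      rw [hs6 k hk l]
      ring
    rw [h1, abs_mul, abs_of_nonneg (hB.u_nonneg k)]
    have h2 : F.u k * |G l / q'| ≤ F.u k * (36 / 5 * σ / F.q) :=
      mul_le_mul_of_nonneg_left (hGq l) (hB.u_nonneg k)
    have h3 : F.u k * (36 / 5 * σ / F.q) ≤ 3 * F.q / L n * (36 / 5 * σ / F.q) := by
      apply mul_le_mul_of_nonneg_right _ (by positivity)
      rw [le_div_iff₀ hL0, mul_comm]
      exact hu k
    have h4 : 3 * F.q / L n * (36 / 5 * σ / F.q) = 108 / 5 / L n * σ := by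
      field_simp
      ring
    have h5 : 108 / 5 / L n * σ ≤ 22 / L n * s k := by
      apply mul_le_mul _ (hσs k) hσ.le (by positivity)
      exact div_le_div_of_nonneg_right (by norm_num) hL0.le
    linarith

end Pool.LD
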