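import Pool.Agent.Work.MP_7453a1_ld.Interface

set_option autoImplicit false

namespace Pool.LD

open Finset Filter

theorem SCL_q {q w P : ℝ} (hq : 0 < q) (hw : w ≤ q) (hP : 10000 ≤ P) :
    9999 / 10000 * (P * q) ≤ P * q - w := by
  nlinarith [mul_le_mul_of_nonneg_right hP hq.le]

theorem SCL_ctr {q w P s E : ℝ} (hq : 0 < q) (hw : w ≤ q) (hP : 10000 ≤ P) (hs : 0 < s)
    (hE : |E| ≤ 8 / 5 * s) : |E / (P * q - w)| ≤ 2 * s / (P * q) := by
  have h1 := SCL_q hq hw hP
  have hP0 : 0 < P := by linarith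
  have hPq : 0 < P * q := mul_pos hP0 hq
  have hq' : 0 < P * q - w := by linarith
  rw [abs_div, abs_of_pos hq', div_le_div_iff₀ hq' hPq]
  calc |E| * (P * q) ≤ 8 / 5 * s * (P * q) := mul_le_mul_of_nonneg_right hE hPq.le
    _ ≤ 2 * s * (9999 / 10000 * (P * q)) := by nlinarith [mul_pos hs hPq]
    _ ≤ 2 * s * (P * q - w) := mul_le_mul_of_nonneg_left h1 (by linarith)

theorem SCL_ne {q w u P s sk E Ek D t Λ : ℝ} (hq : 0 < q) (hw : w ≤ q) (hu : 0 ≤ u)
    (hP : 10000 ≤ P) (hsk : 0 < sk) (hE : |E| ≤ 8 / 5 * s) (hΛ : 0 < Λ)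
    (hk : Λ * (u * (s / P)) ≤ 3 * (q * sk)) (hEk : |Ek - sk * D| ≤ t * sk) :
    |Ek + u * E / (P * q - w) - sk * D| ≤ (t + 7 / Λ) * sk := by
  have h1 := SCL_q hq hw hP
  have hP0 : 0 < P := by linarith
  have hPq : 0 < P * q := mul_pos hP0 hq
  have hq' : 0 < P * q - w := by linarith
  have h2 : |u * E / (P * q - w)| ≤ 7 / Λ * sk := by
    rw [abs_div, abs_of_pos hq', abs_mul, abs_of_nonneg hu, div_le_iff₀ hq', div_mul_eq_mul_div,
      div_mul_eq_mul_div, le_div_iff₀ hΛ]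
    have h3 : u * s * Λ ≤ 3 * (P * q) * sk := by
      have h4 : Λ * (u * (s / P)) * P ≤ 3 * (q * sk) * P := mul_le_mul_of_nonneg_right hk hP0.le
      have h5 : Λ * (u * (s / P)) * P = u * s * Λ := by
        field_simp
      rw [h5] at h4
      linarith
    calc u * |E| * Λ ≤ u * (8 / 5 * s) * Λ :=
          mul_le_mul_of_nonneg_right (mul_le_mul_of_nonneg_left hE hu) hΛ.le
      _ = 8 / 5 * (u * s * Λ) := by ring
      _ ≤ 8 / 5 * (3 * (P * q) * sk) := by linarith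
      _ ≤ 7 * sk * (9999 / 10000 * (P * q)) := by nlinarith [mul_pos hsk hPq]
      _ ≤ 7 * sk * (P * q - w) := mul_le_mul_of_nonneg_left h1 (by linarith)
  have h6 : Ek + u * E / (P * q - w) - sk * D = (Ek - sk * D) + u * E / (P * q - w) := by ring
  rw [h6]
  calc _ ≤ |Ek - sk * D| + |u * E / (P * q - w)| := abs_add_le _ _
    _ ≤ t * sk + 7 / Λ * sk := add_le_add hEk h2
    _ = _ := by ring

theorem SCL_eq {q w P s E D t Λ : ℝ} (hq : 0 < q) (hw0 : 0 ≤ w) (hw : w ≤ q)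
    (hP : 10000 ≤ P) (hs : 0 < s) (hE : |E| ≤ 8 / 5 * s) (hΛ : 0 < Λ) (hΛP : Λ ≤ P)
    (hEk : |E - s * D| ≤ t * s) :
    |q * E / (P * q - w) - s / P * D| ≤ (t + 7 / Λ) * (s / P) := by
  have h1 := SCL_q hq hw hP
  have hP0 : 0 < P := by linarith
  have hPq : 0 < P * q := mul_pos hP0 hq
  have hq' : 0 < P * q - w := by linarith
  have e : q * E / (P * q - w) - s / P * D = (E - s * D) / P + w / (P * q - w) * E / P := by
    obtain ⟨Q, hQ⟩ : ∃ Q, Q = P * q - w := ⟨_, rfl⟩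
    have hw' : w = P * q - Q := by linarith
    rw [← hQ] at hq'
    rw [← hQ, hw']
    field_simp
    ring
  have h2 : w / (P * q - w) ≤ 2 / Λ := by
    rw [div_le_div_iff₀ hq' hΛ]
    have h3 : w * Λ ≤ q * P := mul_le_mul hw hΛP hΛ.le hq.le
    nlinarith
  have h2' : 0 ≤ w / (P * q - w) := div_nonneg hw0 hq'.le
  have h4 : |w / (P * q - w) * E| ≤ 7 / Λ * s := by
    rw [abs_mul, abs_of_nonneg h2']
    calc w / (P * q - w) * |E| ≤ 2 / Λ * (8 / 5 * s) :=
          mul_le_mul h2 hE (abs_nonneg _) (by positivity)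
      _ = 16 / 5 * (1 / Λ * s) := by ring
      _ ≤ 7 * (1 / Λ * s) := by
          have : 0 < 1 / Λ * s := by positivity
          linarith
      _ = _ := by ring
  rw [e, ← add_div, abs_div, abs_of_pos hP0, ← mul_div_assoc]
  refine div_le_div_of_nonneg_right ?_ hP0.le
  calc _ ≤ |E - s * D| + |w / (P * q - w) * E| := abs_add_le _ _
    _ ≤ t * s + 7 / Λ * s := add_le_add hEk h4
    _ = _ := by ring

theorem p_SCL (hS : Stmt_STP) (hG : Stmt_GOD) (hL : Stmt_LNM) : Stmt_SCL := by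
  intro n hn F hB i e he s hs hsm D t hD ht0 ht1 hCl
  obtain ⟨-, hΛ, -⟩ := hL n hn
  have hΛ0 : 0 < L n := by linarith
  have hLP : L n ≤ L n ^ e := le_self_pow₀ (by linarith) (by omega)
  have hP : 10000 ≤ L n ^ e := hΛ.trans hLP
  have hP0 : 0 < L n ^ e := by linarith
  -- the integer r
  obtain ⟨r, hr⟩ : ∃ r : ℤ, 2 * (r : ℝ) = L n ^ e := by
    obtain ⟨e', rfl⟩ : ∃ e', e = e' + 1 := ⟨e - 1, by omega⟩
    refine ⟨5000 * 4 ^ n * (10000 * 4 ^ n) ^ e', ?_⟩
    unfold L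
    push_cast
    ring
  have hq := hB.q_pos
  have hw0 := hB.u_nonneg i
  have hw := hB.u_le i
  have hq1 := SCL_q hq hw hP
  have hPq : 0 < L n ^ e * F.q := mul_pos hP0 hq
  have hq' : 0 < L n ^ e * F.q - F.u i := by linarith
  have eq : (F.nxt i r (fun _ => 0)).q = L n ^ e * F.q - F.u i := by
    rw [← hr]
    unfold Fr.q Fr.u Fr.nxt
    simp
  have hne : (F.nxt i r (fun _ => 0)).q ≠ 0 := by
    rw [eq]
    exact hq'.ne'
  obtain ⟨-, s2, s3, s4, s5, s6⟩ := hS n F i r (fun _ => 0) hq.ne' hne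
  simp only [Int.cast_zero, mul_zero, zero_mul, Finset.sum_const_zero, add_zero] at s4 s5 s6
  rw [eq] at s4 s5 s6
  -- the bound for the error vector
  have hDb : ∀ l, |D i l| ≤ 3 / 2 := by
    intro l
    by_cases h : l = i
    · subst h
      rw [abs_of_nonneg (by linarith [hD.dl l])]
      exact hD.du l
    · have h1 : |D i l| ≤ ∑ k ∈ univ.erase l, |D k l| :=
        Finset.single_le_sum (f := fun k => |D k l|) (fun k _ => abs_nonneg _)
          (Finset.mem_erase.2 ⟨fun h2 => h h2.symm, Finset.mem_univ _⟩)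
      linarith [hD.off l]
  have hE : ∀ l, |F.E i l| ≤ 8 / 5 * s i := by
    intro l
    have h1 := hCl i l
    have h2 : |s i * D i l| ≤ 3 / 2 * s i := by
      rw [abs_mul, abs_of_pos (hs i), mul_comm]
      exact mul_le_mul_of_nonneg_right (hDb l) (hs i).le
    have h3 : |F.E i l| ≤ |F.E i l - s i * D i l| + |s i * D i l| := by
      have := abs_add_le (F.E i l - s i * D i l) (s i * D i l)
      simpa using this
    have h4 : t * s i ≤ 1 / 100 * s i := mul_le_mul_of_nonneg_right ht1 (hs i).le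
    nlinarith [hs i]
  have hqq : F.q ≤ (F.nxt i r (fun _ => 0)).q := by
    rw [eq]
    nlinarith [mul_le_mul_of_nonneg_right hP hq.le]
  refine ⟨F.nxt i r (fun _ => 0), ⟨hG n F i r _ rfl hB.good, ?_, ?_, ?_⟩, s2, s3, ?_, ?_, ?_, ?_⟩
  · have : (0 : ℝ) < ((F.nxt i r (fun _ => 0)).v.1 : ℝ) := by
      have h1 : (F.nxt i r (fun _ => 0)).q = ((F.nxt i r (fun _ => 0)).v.1 : ℝ) := rfl
      rw [← h1, eq]
      exact hq'
    exact_mod_cast this
  · intro k
    by_cases h : k = i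
    · subst h
      have : (0 : ℝ) ≤ (((F.nxt k r (fun _ => 0)).f k).1 : ℝ) := by
        have h1 : (F.nxt k r (fun _ => 0)).u k = (((F.nxt k r (fun _ => 0)).f k).1 : ℝ) := rfl
        rw [← h1, s2]
        exact hq.le
      exact_mod_cast this
    · have : (0 : ℝ) ≤ (((F.nxt i r (fun _ => 0)).f k).1 : ℝ) := by
        have h1 : (F.nxt i r (fun _ => 0)).u k = (((F.nxt i r (fun _ => 0)).f k).1 : ℝ) := rfl
        rw [← h1, s3 k h]
        exact hB.u_nonneg k
      exact_mod_cast this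
  · intro k
    have h0 : (F.nxt i r (fun _ => 0)).u k ≤ (F.nxt i r (fun _ => 0)).q := by
      by_cases h : k = i
      · rw [h, s2]
        exact hqq
      · rw [s3 k h]
        exact (hB.u_le k).trans hqq
    unfold Fr.u Fr.q at h0
    exact_mod_cast h0
  · rw [eq]
    have h1 : L n * F.q ≤ L n ^ e * F.q := mul_le_mul_of_nonneg_right hLP hq.le
    linarith
  · rw [eq]
    linarith
  · intro l
    rw [s4, add_sub_cancel_left]
    exact SCL_ctr hq hw hP (hs i) (hE l)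
  · intro k l
    by_cases h : k = i
    · subst h
      rw [Function.update_self, s5]
      exact SCL_eq hq hw0 hw hP (hs k) (hE l) hΛ0 hLP (hCl k l)
    · rw [Function.update_of_ne h, s6 k h]
      exact SCL_ne hq hw (hB.u_nonneg k) hP (hs k) (hE l) hΛ0 (hsm k h) (hCl k l)

end Pool.LD
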