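import Pool.Agent.Work.MP_7453a1_ld.Interface

set_option autoImplicit false

/-! # Block SEQ: the sequence of frames and its limit -/

namespace Pool.LD

open Finset Filter

theorem SEQ_lim (x b : ℕ → ℝ) (hb0 : ∀ s, 0 ≤ b s) (hb : ∀ s, 4 * b (s + 1) ≤ b s)
    (h : ∀ s, |x (s + 1) - x s| ≤ b s - b (s + 1)) : ∃ y, ∀ s, |y - x s| ≤ b s := by
  have hb' : ∀ s, b s ≤ b 0 * (1 / 4) ^ s := by
    intro s
    induction s with
    | zero => simp
    | succ s ih =>
      have := hb s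
      rw [pow_succ]
      linarith
  have hc : CauchySeq x := by
    refine cauchySeq_of_le_geometric (1 / 4) (b 0) (by norm_num) ?_
    intro s
    rw [dist_comm, Real.dist_eq]
    have h1 := h s
    have h2 := hb0 (s + 1)
    have h3 := hb' s
    linarith
  obtain ⟨y, hy⟩ := cauchySeq_tendsto_of_complete hc
  refine ⟨y, fun s => ?_⟩
  have h1 : ∀ j, |x (s + j) - x s| ≤ b s - b (s + j) := by
    intro j
    induction j with
    | zero => simp
    | succ j ih =>
      have h2 := h (s + j)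
      have h3 := abs_sub_le (x (s + j + 1)) (x (s + j)) (x s)
      have h4 : s + (j + 1) = s + j + 1 := by ring
      rw [h4]
      linarith
  have h2 : Tendsto (fun t => |x t - x s|) atTop (nhds |y - x s|) := (hy.sub_const _).abs
  refine le_of_tendsto h2 ?_
  filter_upwards [eventually_ge_atTop s] with t ht
  obtain ⟨j, rfl⟩ := Nat.exists_eq_add_of_le ht
  have h3 := h1 j
  have h4 := hb0 (s + j)
  linarith

theorem SEQ_Lpos (n : ℕ) : 1 ≤ L n := by
  unfold L
  have : (1 : ℝ) ≤ 4 ^ n := one_le_pow₀ (by norm_num)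
  linarith

theorem p_SEQ (hSTG : Stmt_STG) (hTGL : Stmt_TGL) (hINI : Stmt_INI) (_hLNM : Stmt_LNM) :
    Stmt_SEQ := by
  classical
  intro m
  obtain ⟨F0, hF0, hq0⟩ := hINI m
  choose nx hnx using fun p : {p : Fr (m + 1) × ℝ // Loose p.1 p.2} => hSTG m p.1.1 p.1.2 p.2
  let st : {p : Fr (m + 1) × ℝ // Loose p.1 p.2} → {p : Fr (m + 1) × ℝ // Loose p.1 p.2} :=
    fun p => ⟨(nx p, p.1.2 / L (m + 1) ^ (m + 2)), hTGL m _ _ (hnx p).1⟩
  let S : ℕ → {p : Fr (m + 1) × ℝ // Loose p.1 p.2} :=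
    fun s => Nat.rec ⟨(F0, 1), hF0⟩ (fun _ p => st p) s
  have hS : ∀ s, S (s + 1) = st (S s) := fun s => rfl
  have hΛ := SEQ_Lpos (m + 1)
  have hΛ0 : 0 < L (m + 1) := by linarith
  have hq : ∀ s, 0 < (S s).1.1.q := fun s => (S s).2.bas.q_pos
  have he : ∀ s, 0 < (S s).1.2 := fun s => (S s).2.pos
  have hstep : ∀ s, Tight m (S (s + 1)).1.1 (S (s + 1)).1.2 ∧
      4 * (S s).1.1.q ≤ (S (s + 1)).1.1.q ∧ (S (s + 1)).1.1.q ≤ KK m * (S s).1.1.q ∧
      ∀ l, |(S (s + 1)).1.1.ctr l - (S s).1.1.ctr l| ≤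
        3 * (m + 1) * (S s).1.2 / (L (m + 1) * (S s).1.1.q) := fun s => hnx (S s)
  have hes : ∀ s, (S (s + 1)).1.2 ≤ (S s).1.2 := by
    intro s
    have h1 : (S (s + 1)).1.2 = (S s).1.2 / L (m + 1) ^ (m + 2) := rfl
    rw [h1]
    exact div_le_self (he s).le (one_le_pow₀ hΛ)
  obtain ⟨b, hbd⟩ : ∃ b : ℕ → ℝ, b = fun s => 4 * (m + 1) * (S s).1.2 / (L (m + 1) * (S s).1.1.q) :=
    ⟨_, rfl⟩
  have hb0 : ∀ s, 0 ≤ b s := by
    intro s
    rw [hbd]
    have h1 := hq s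
    have h2 := he s
    positivity
  have hb : ∀ s, 4 * b (s + 1) ≤ b s := by
    intro s
    have h1 := hq s
    have h2 := he s
    have h3 := hes s
    have h4 := (hstep s).2.1
    have h5 := he (s + 1)
    have h6 : b (s + 1) ≤ 4 * (m + 1) * (S s).1.2 / (L (m + 1) * (4 * (S s).1.1.q)) := by
      rw [hbd]
      refine div_le_div₀ (by positivity) ?_ (by positivity) ?_
      · exact mul_le_mul_of_nonneg_left h3 (by positivity)
      · exact mul_le_mul_of_nonneg_left h4 hΛ0.le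
    have h7 : 4 * (4 * (m + 1) * (S s).1.2 / (L (m + 1) * (4 * (S s).1.1.q))) = b s := by
      rw [hbd]
      field_simp
    linarith
  have hlim : ∀ l, ∃ y, ∀ s, |y - (S s).1.1.ctr l| ≤ b s := by
    intro l
    refine SEQ_lim _ b hb0 hb (fun s => ?_)
    have h1 := (hstep s).2.2.2 l
    have h2 : 3 * (m + 1) * (S s).1.2 / (L (m + 1) * (S s).1.1.q) = 3 / 4 * b s := by
      rw [hbd]
      ring
    have h3 := hb s
    rw [h2] at h1
    linarith
  choose Θ hΘ using hlim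
  refine ⟨fun s => (S s).1.1, fun s => (S s).1.2, Θ, hq0, fun s => ⟨(hstep s).1, (hstep s).2.1,
    (hstep s).2.2.1, fun l => ?_⟩⟩
  have h1 := hΘ l (s + 1)
  rw [hbd] at h1
  exact h1

end Pool.LD
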