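import Pool.Agent.Work.MP_7453a1_ld.Interface

set_option autoImplicit false

/-! # Block STG (helper17) -/

namespace Pool.LD

open Finset

theorem p_STG (hPSA : Stmt_PSA) (hPSB : Stmt_PSB) (hLNM : Stmt_LNM) : Stmt_STG := by
  intro m F ε hF
  obtain ⟨l1, l2, l3⟩ := hLNM (m + 1) (by omega)
  have hε := hF.pos
  have hL : (0 : ℝ) < L (m + 1) := by linarith
  have hL1 : (1 : ℝ) ≤ L (m + 1) := by linarith
  have hq := hF.bas.q_pos
  have hm : (0 : ℝ) < (m : ℝ) + 1 := by positivity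
  have hnear : Near (1 / 10) (fun k l => F.E k l / ε) := by
    refine ⟨?_, ?_, ?_⟩
    · intro k
      rw [le_div_iff₀ hε]
      exact hF.dl k
    · intro k
      rw [div_le_iff₀ hε]
      exact hF.du k
    · intro l
      have h1 : ∀ k ∈ univ.erase l, |F.E k l / ε| = |F.E k l| / ε := by
        intro k _
        rw [abs_div, abs_of_pos hε]
      rw [Finset.sum_congr rfl h1, ← Finset.sum_div, div_le_iff₀ hε]
      have := hF.off l
      linarith
  have hcl : F.Cl (fun _ => ε) (fun k l => F.E k l / ε) 0 := by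
    intro k l
    have : F.E k l - ε * (F.E k l / ε) = 0 := by
      field_simp
      ring
    simp only [this, abs_zero, zero_mul, le_refl]
  obtain ⟨F1, b1, b2, b3, b4, b5, b6⟩ := hPSA (m + 1) (by omega) F hF.bas ε hε _ hnear hcl
  push_cast at b5 b6
  obtain ⟨F2, c1, c2, c3, c4, c5, c6, c7⟩ := hPSB m F1 b1 b2 ε hε _ hnear b6
  have hq1 := b1.q_pos
  have hLm : (0 : ℝ) < L (m + 1) ^ (m + 2) := by positivity
  refine ⟨F2, ⟨c1, by positivity, c2, c3, c7⟩, by linarith, ?_, ?_⟩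
  · have h1 : (m + 1) * (m + 2) / 2 + (m + 1) * (m + 2) / 2 = (m + 1) * (m + 2) := by
      have h2 : 2 ∣ (m + 1) * (m + 2) := (Nat.even_mul_succ_self (m + 1)).two_dvd
      omega
    have e1 : (m + 1) * (m + 1 + 1) / 2 = (m + 1) * (m + 2) / 2 := rfl
    rw [e1] at b4
    unfold KK
    rw [← h1, pow_add]
    calc F2.q ≤ 3 ^ (m + 1) * L (m + 1) ^ ((m + 1) * (m + 2) / 2) * F1.q := c5
      _ ≤ 3 ^ (m + 1) * L (m + 1) ^ ((m + 1) * (m + 2) / 2) *
          (L (m + 1) ^ ((m + 1) * (m + 2) / 2) * F.q) :=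
          mul_le_mul_of_nonneg_left b4 (by positivity)
      _ = _ := by ring
  · intro l
    have h1 : F2.ctr l - F.ctr l = (F2.ctr l - F1.ctr l) + (F1.ctr l - F.ctr l) := by ring
    rw [h1]
    refine (abs_add_le _ _).trans ?_
    have h2 := b5 l
    have h3 := c6 l
    have h4 : 8 * ((m : ℝ) + 1) * (ε / L (m + 1) ^ (m + 2)) / F1.q ≤
        (m + 1) * ε / (L (m + 1) * F.q) := by
      have h5 : 8 * ((m : ℝ) + 1) * (ε / L (m + 1) ^ (m + 2)) / F1.q ≤
          8 * ((m : ℝ) + 1) * (ε / L (m + 1) ^ (m + 2)) / F.q :=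
        div_le_div_of_nonneg_left (by positivity) hq b3
      refine h5.trans ?_
      have h6 : L (m + 1) * 8 ≤ L (m + 1) ^ (m + 2) := by
        have h7 : L (m + 1) ^ (m + 2) = L (m + 1) * (L (m + 1) * L (m + 1) ^ m) := by ring
        rw [h7]
        apply mul_le_mul_of_nonneg_left _ hL.le
        have h8 : (1 : ℝ) ≤ L (m + 1) ^ m := one_le_pow₀ hL1
        nlinarith
      rw [div_le_div_iff₀ hq (by positivity)]
      have h9 : 8 * ((m : ℝ) + 1) * (ε / L (m + 1) ^ (m + 2)) * (L (m + 1) * F.q) =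
          (L (m + 1) * 8 / L (m + 1) ^ (m + 2)) * ((m + 1) * ε * F.q) := by
        field_simp
      rw [h9]
      have h10 : L (m + 1) * 8 / L (m + 1) ^ (m + 2) ≤ 1 := by
        rw [div_le_one hLm]
        exact h6
      calc _ ≤ 1 * (((m : ℝ) + 1) * ε * F.q) :=
            mul_le_mul_of_nonneg_right h10 (by positivity)
        _ = _ := one_mul _
    have h5 : 3 * ((m : ℝ) + 1) * ε / (L (m + 1) * F.q) =
        (m + 1) * ε / (L (m + 1) * F.q) + 2 * (m + 1) * ε / (L (m + 1) * F.q) := by ring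
    rw [h5]
    linarith

end Pool.LD
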