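import Pool.Agent.Work.MP_7453a1_ld.Interface

set_option autoImplicit false

/-! # Block STP (helper17) -/

namespace Pool.LD

open Finset

theorem STP_v1 {n : ℕ} (F : Fr n) (i : Fin n) (r : ℤ) (c : Fin n → ℤ) :
    (F.nxt i r c).v.1 = 2 * r * F.v.1 - ((F.f i).1 + ∑ k, 2 * c k * (F.f k).1) := by
  simp [Fr.nxt, Prod.fst_sum]

theorem STP_v2 {n : ℕ} (F : Fr n) (i : Fin n) (r : ℤ) (c : Fin n → ℤ) (l : Fin n) :
    (F.nxt i r c).v.2 l = 2 * r * F.v.2 l - ((F.f i).2 l + ∑ k, 2 * c k * (F.f k).2 l) := by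
  simp [Fr.nxt, Prod.snd_sum]

theorem p_STP : Stmt_STP := by
  intro n F i r c hq hq'
  have h1 : (F.nxt i r c).q = 2 * r * F.q - (F.u i + ∑ k, 2 * (c k : ℝ) * F.u k) := by
    have := STP_v1 F i r c
    unfold Fr.q Fr.u
    rw [this]
    push_cast
    ring
  have hfi : (F.nxt i r c).f i = F.v := by simp [Fr.nxt]
  have hfk : ∀ k, k ≠ i → (F.nxt i r c).f k = F.f k := by
    intro k hk
    simp [Fr.nxt, hk]
  have hp : ∀ w : Pt n, ∀ l, (w.2 l : ℝ) = w.1 * F.ctr l - er F.ctr w l := by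
    intro w l
    unfold er
    ring
  have hv : ∀ l, (F.v.2 l : ℝ) = F.q * F.ctr l := by
    intro l
    unfold Fr.ctr
    unfold Fr.q at hq ⊢
    field_simp
  have h4 : ∀ l, (F.nxt i r c).ctr l =
      F.ctr l + (F.E i l + ∑ k, 2 * (c k : ℝ) * F.E k l) / (F.nxt i r c).q := by
    intro l
    have e1 : ((F.nxt i r c).v.2 l : ℝ) = (F.nxt i r c).q * F.ctr l +
        (F.E i l + ∑ k, 2 * (c k : ℝ) * F.E k l) := by
      rw [STP_v2, h1]
      push_cast
      rw [hv l, hp (F.f i) l]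
      have e2 : ∀ k, 2 * (c k : ℝ) * ((F.f k).2 l : ℝ) =
          2 * (c k : ℝ) * F.u k * F.ctr l - 2 * (c k : ℝ) * F.E k l := by
        intro k
        rw [hp (F.f k) l]
        unfold Fr.u Fr.E
        ring
      simp only [e2]
      rw [Finset.sum_sub_distrib, ← Finset.sum_mul]
      unfold Fr.u Fr.E
      ring
    have e3 : (F.nxt i r c).ctr l = ((F.nxt i r c).v.2 l : ℝ) / (F.nxt i r c).q := rfl
    rw [e3, e1]
    field_simp
  refine ⟨h1, ?_, ?_, h4, ?_, ?_⟩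
  · unfold Fr.u
    rw [hfi]
    rfl
  · intro k hk
    unfold Fr.u
    rw [hfk k hk]
  · intro l
    have e1 : (F.nxt i r c).E i l = F.q * (F.nxt i r c).ctr l - (F.v.2 l : ℝ) := by
      unfold Fr.E er
      rw [hfi]
      rfl
    rw [e1, h4, hv l]
    ring
  · intro k hk l
    have e1 : (F.nxt i r c).E k l = F.u k * (F.nxt i r c).ctr l - ((F.f k).2 l : ℝ) := by
      unfold Fr.E er
      rw [hfk k hk]
      rfl
    have e2 : F.E k l = F.u k * F.ctr l - ((F.f k).2 l : ℝ) := rfl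
    rw [e1, h4, e2]
    ring

end Pool.LD
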