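import Pool.Agent.Work.MP_7453a1_ld.Interface

set_option autoImplicit false

/-! # Block TGL (helper17) -/

namespace Pool.LD

open Finset

theorem p_TGL (hPAT : Stmt_PAT) (hLNM : Stmt_LNM) : Stmt_TGL := by
  intro m F ε hF
  obtain ⟨p1, p2, p3, p4, p5, p6, p7⟩ := hPAT m
  obtain ⟨l1, l2, l3⟩ := hLNM (m + 1) (by omega)
  have hε := hF.pos
  have hL : (0 : ℝ) < L (m + 1) := by linarith
  have hm : (1 : ℝ) ≤ (m : ℝ) + 1 := by
    have : (0 : ℝ) ≤ m := Nat.cast_nonneg m
    linarith
  push_cast at l1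
  set δ : ℝ := 70 * (m + 1) / L (m + 1) with hδ
  have hδ0 : 0 ≤ δ := by positivity
  have hδ1 : ((m : ℝ) + 1) * δ ≤ 1 / 500 := by
    rw [hδ, ← mul_div_assoc, div_le_iff₀ hL]
    nlinarith
  have hδ2 : δ ≤ 1 / 500 := by nlinarith
  have hcl : ∀ k l, |F.E k l - ε * pat m k l| ≤ δ * ε := fun k l => hF.cl k l
  refine ⟨hF.bas, hε, ?_, ?_, ?_⟩
  · intro k
    have h1 := (abs_le.mp (hcl k k)).1
    have h2 := (p1 k).1
    nlinarith
  · intro k
    have h1 := (abs_le.mp (hcl k k)).2
    have h2 := (p1 k).2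
    nlinarith
  · intro l
    have h1 : ∀ k ∈ univ.erase l, |F.E k l| ≤ ε * |pat m k l| + δ * ε := by
      intro k _
      have h2 := hcl k l
      have h3 : |F.E k l| ≤ |ε * pat m k l| + |F.E k l - ε * pat m k l| := by
        have := abs_add_le (ε * pat m k l) (F.E k l - ε * pat m k l)
        rwa [add_sub_cancel] at this
      rw [abs_mul, abs_of_pos hε] at h3
      linarith
    have h2 := Finset.sum_le_sum h1
    rw [Finset.sum_add_distrib, ← Finset.mul_sum, Finset.sum_const, nsmul_eq_mul] at h2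
    have h3 : ((univ.erase l).card : ℝ) ≤ (m : ℝ) + 1 := by
      have : (univ.erase l).card ≤ m + 1 := by
        refine (Finset.card_le_univ _).trans ?_
        simp
      exact_mod_cast this
    have h4 := p4 l
    have h5 : ((univ.erase l).card : ℝ) * (δ * ε) ≤ ((m : ℝ) + 1) * (δ * ε) :=
      mul_le_mul_of_nonneg_right h3 (by positivity)
    nlinarith

end Pool.LD
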