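import Pool.Agent.Work.MP_7453a1_ld.HandIn
import Pool.Agent.Work.MP_7453a1_ld.B_STP
import Pool.Agent.Work.MP_7453a1_ld.B_GOD
import Pool.Agent.Work.MP_7453a1_ld.B_LNM
import Pool.Agent.Work.MP_7453a1_ld.B_LIN
import Pool.Agent.Work.MP_7453a1_ld.B_SCL
import Pool.Agent.Work.MP_7453a1_ld.B_RNA
import Pool.Agent.Work.MP_7453a1_ld.B_RND
import Pool.Agent.Work.MP_7453a1_ld.B_PAT
import Pool.Agent.Work.MP_7453a1_ld.B_PSA
import Pool.Agent.Work.MP_7453a1_ld.B_PSB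
import Pool.Agent.Work.MP_7453a1_ld.B_STG
import Pool.Agent.Work.MP_7453a1_ld.B_TGL
import Pool.Agent.Work.MP_7453a1_ld.B_INI
import Pool.Agent.Work.MP_7453a1_ld.B_SEQ
import Pool.Agent.Work.MP_7453a1_ld.B_CEA
import Pool.Agent.Work.MP_7453a1_ld.B_CEB
import Pool.Agent.Work.MP_7453a1_ld.B_ORD
import Pool.Agent.Work.MP_7453a1_ld.B_CEC
import Pool.Agent.Work.MP_7453a1_ld.B_CLU
import Pool.Agent.Work.MP_7453a1_ld.B_CNT
import Pool.Agent.Work.MP_7453a1_ld.B_ADM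
import Pool.Agent.Work.MP_7453a1_ld.B_LIM
import Pool.Agent.Work.MP_7453a1_ld.B_NUM
import Pool.Agent.Work.MP_7453a1_ld.B_LAG
import Pool.Agent.Work.MP_7453a1_ld.B_FIN

set_option autoImplicit false

/-! # The sup norm in all dimensions: composition of the blocks -/

namespace Pool.LD

open Pool.Agent.Work.MP_7453a1_nt_norm

theorem q_SCL : Stmt_SCL := p_SCL p_STP p_GOD p_LNM
theorem q_RNA : Stmt_RNA := p_RNA p_LIN p_LNM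
theorem q_RND : Stmt_RND := p_RND p_STP p_GOD q_RNA p_LNM
theorem q_PSA : Stmt_PSA := p_PSA q_SCL p_LNM
theorem q_PSB : Stmt_PSB := p_PSB q_RND p_PAT p_LNM
theorem q_STG : Stmt_STG := p_STG q_PSA q_PSB p_LNM
theorem q_TGL : Stmt_TGL := p_TGL p_PAT p_LNM
theorem q_SEQ : Stmt_SEQ := p_SEQ q_STG q_TGL p_INI p_LNM
theorem q_CEA : Stmt_CEA := p_CEA p_LNM
theorem q_CEB : Stmt_CEB := p_CEB p_PAT p_LNM
theorem q_CEC : Stmt_CEC := p_CEC q_CEA q_CEB p_LNM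
theorem q_CLU : Stmt_CLU := p_CLU q_CEA q_CEB p_ORD q_CEC p_LNM
theorem q_CNT : Stmt_CNT := p_CNT q_CLU p_ORD
theorem q_FIN : Stmt_FIN := p_FIN q_SEQ q_CNT p_ADM p_LIM p_NUM

theorem main (n : ℕ) (hn : 1 ≤ n) :
    (∀ N : Seminorm ℝ (Fin n → ℝ), IsNorm N →
      ENNReal.ofReal (3 ^ (1 / (2 : ℝ) ^ (n + 1))) ≤ g N) ∧
    g (normSeminorm ℝ (Fin n → ℝ)) ≤ ENNReal.ofReal (Real.exp (50 * (n : ℝ) ^ 3 / 2 ^ n)) ∧
    ∃ Θ : Fin n → ℝ, Admissible Θ ∧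
      G (normSeminorm ℝ (Fin n → ℝ)) Θ ≤ ENNReal.ofReal (Real.exp (50 * (n : ℝ) ^ 3 / 2 ^ n)) :=
  handIn p_LAG q_FIN n hn

end Pool.LD
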