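import Pool.Agent.Work.MP_7453a1_ld.Interface

set_option autoImplicit false

/-! # Block ADM (helper17) -/

namespace Pool.LD

open Finset
open Pool.Agent.Work.MP_7453a1_nt_norm (IsNorm IsBest IsBestDenominator Admissible)

theorem p_ADM : Stmt_ADM := by
  intro n N Θ hinf q hq p
  by_contra hcon
  push Not at hcon
  obtain ⟨M, hM, hqM⟩ := hinf.exists_gt q.natAbs
  obtain ⟨Q, P, hbest, hQM⟩ := hM
  have herr : Pool.Agent.Work.MP_7453a1_nt_norm.err N Θ q p = 0 := by
    unfold Pool.Agent.Work.MP_7453a1_nt_norm.err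
    have h0 : (fun i => (q : ℝ) * Θ i - p i) = 0 := by
      funext i
      rw [hcon i]
      simp
    rw [h0, map_zero]
  have h1 : |q| ≤ |Q| := by
    rw [Int.abs_eq_natAbs, Int.abs_eq_natAbs]
    omega
  have h2 : Pool.Agent.Work.MP_7453a1_nt_norm.err N Θ q p ≤
      Pool.Agent.Work.MP_7453a1_nt_norm.err N Θ Q P := by
    rw [herr]
    exact apply_nonneg N _
  rcases hbest.2 q p h1 h2 with h | h | h
  · exact hq h.1
  · omega
  · omega

end Pool.LD
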