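import Pool.Agent.Work.MP_7453a1_ld.Interface

set_option autoImplicit false

/-! # Block PSB: second half of a stage (helper25) -/

namespace Pool.LD

open Finset Filter
open Pool.Agent.Work.MP_7453a1_nt_norm (IsNorm IsBest IsBestDenominator Admissible)

/-- the sizes after `j` steps -/
noncomputable def PSB_s (m : ℕ) (ε : ℝ) (j : ℕ) (k : Fin (m + 1)) : ℝ :=
  if (k : ℕ) < j then ε / L (m + 1) ^ (m + 2) else ε / L (m + 1) ^ ((k : ℕ) + 1)

/-- the directions after `j` steps -/
noncomputable def PSB_D (m : ℕ) (D : Fin (m + 1) → Fin (m + 1) → ℝ) (j : ℕ)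
    (k : Fin (m + 1)) : Fin (m + 1) → ℝ :=
  if (k : ℕ) < j then pat m k else D k

/-- the exponent -/
def PSB_e (m j : ℕ) : ℕ := ∑ i ∈ range j, (m + 1 - i)

lemma PSB_e_eq (m j : ℕ) (hj : j ≤ m + 1) : 2 * PSB_e m j + j * j = j * (2 * m + 3) := by
  induction j with
  | zero => simp [PSB_e]
  | succ j ih =>
    have h1 := ih (by omega)
    have h2 : PSB_e m (j + 1) = PSB_e m j + (m + 1 - j) := by
      unfold PSB_e
      rw [Finset.sum_range_succ]
    rw [h2]
    obtain ⟨c, hc⟩ : ∃ c, m + 1 = j + c := ⟨m + 1 - j, by omega⟩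
    have h3 : m + 1 - j = c := by omega
    rw [h3]
    have h4 : 2 * m + 3 = 2 * (j + c) + 1 := by omega
    rw [h4] at h1 ⊢
    nlinarith

lemma PSB_e_top (m : ℕ) : PSB_e m (m + 1) = (m + 1) * (m + 2) / 2 := by
  have h1 := PSB_e_eq m (m + 1) le_rfl
  have h2 : (m + 1) * (m + 2) = 2 * PSB_e m (m + 1) := by nlinarith
  exact (Nat.div_eq_of_eq_mul_right (by norm_num) h2).symm

/-- the state after `j` steps -/
structure PSB_I (m : ℕ) (F0 : Fr (m + 1)) (ε : ℝ) (D : Fin (m + 1) → Fin (m + 1) → ℝ) (j : ℕ)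
    (F : Fr (m + 1)) : Prop where
  bas : F.Bas
  small : ∀ k, L (m + 1) * F.u k ≤ 3 * F.q
  sup : ∀ k : Fin (m + 1), (k : ℕ) < j → ∑ l ∈ univ.filter (· < k), F.u l < F.u k
  half : ∑ l ∈ univ.filter (fun l : Fin (m + 1) => (l : ℕ) < j), F.u l ≤ F.q / 2
  up : F.q ≤ 3 ^ j * L (m + 1) ^ (PSB_e m j) * F0.q
  lo : F0.q ≤ F.q
  lo4 : 1 ≤ j → 4 * F0.q ≤ F.q
  ctr : ∀ l, |F.ctr l - F0.ctr l| ≤ 8 * j * (ε / L (m + 1) ^ (m + 2)) / F0.q
  cl : F.Cl (PSB_s m ε j) (PSB_D m D j) ((45 * (m + 1) + 22 * j) / L (m + 1))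

lemma PSB_near {m : ℕ} (hPAT : Stmt_PAT) {D : Fin (m + 1) → Fin (m + 1) → ℝ}
    (hD : Near (1 / 10) D) (j : ℕ) : Near (3 / 20) (PSB_D m D j) := by
  obtain ⟨h1, -, -, h4, -⟩ := hPAT m
  refine ⟨?_, ?_, ?_⟩
  · intro k
    unfold PSB_D
    split_ifs
    · have := (h1 k).1
      linarith
    · exact hD.dl k
  · intro k
    unfold PSB_D
    split_ifs
    · have := (h1 k).2
      linarith
    · exact hD.du k
  · intro l
    have h5 : ∑ k ∈ univ.erase l, |PSB_D m D j k l| ≤
        ∑ k ∈ univ.erase l, (|D k l| + |pat m k l|) := by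
      apply Finset.sum_le_sum
      intro k _
      unfold PSB_D
      split_ifs
      · have := abs_nonneg (D k l)
        linarith
      · have := abs_nonneg (pat m k l)
        linarith
    rw [Finset.sum_add_distrib] at h5
    have h6 := hD.off l
    have h7 := h4 l
    linarith

lemma PSB_step {m : ℕ} (hRND : Stmt_RND) (hPAT : Stmt_PAT) (hLNM : Stmt_LNM) {F0 : Fr (m + 1)}
    (hF0 : 0 < F0.q) {ε : ℝ} (hε : 0 < ε) {D : Fin (m + 1) → Fin (m + 1) → ℝ}
    (hD : Near (1 / 10) D) {j : ℕ} (hj : j < m + 1) {F : Fr (m + 1)}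
    (hI : PSB_I m F0 ε D j F) : ∃ F', PSB_I m F0 ε D (j + 1) F' := by
  obtain ⟨hL1, hL2, -⟩ := hLNM (m + 1) (by omega)
  push_cast at hL1
  obtain ⟨Λ, hΛ⟩ : ∃ Λ, Λ = L (m + 1) := ⟨_, rfl⟩
  rw [← hΛ] at hL1 hL2
  have hΛ0 : 0 < Λ := by linarith
  have hΛ1 : 1 ≤ Λ := by linarith
  obtain ⟨σ, hσ⟩ : ∃ σ, σ = ε / Λ ^ (m + 2) := ⟨_, rfl⟩
  have hσ0 : 0 < σ := by
    rw [hσ]
    positivity
  let i : Fin (m + 1) := ⟨j, hj⟩
  have hival : (i : ℕ) = j := rfl
  have hsi : PSB_s m ε j i = ε / Λ ^ (j + 1) := by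
    unfold PSB_s
    rw [if_neg (by omega), ← hΛ, hival]
  have hpow : ∀ a b : ℕ, a ≤ b → ε / Λ ^ b ≤ ε / Λ ^ a := by
    intro a b hab
    apply div_le_div_of_nonneg_left hε.le (by positivity)
    exact pow_le_pow_right₀ hΛ1 hab
  have hmul : ∀ a : ℕ, Λ * (ε / Λ ^ (a + 1)) = ε / Λ ^ a := by
    intro a
    rw [pow_succ]
    field_simp
  have hs1 : ∀ l, σ ≤ PSB_s m ε j l := by
    intro l
    unfold PSB_s
    rw [← hΛ]
    split_ifs
    · rw [hσ]
    · rw [hσ]
      apply hpow
      have := l.2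
      omega
  have hs2 : Λ * σ ≤ PSB_s m ε j i := by
    rw [hsi, hσ, hmul]
    exact hpow _ _ (by omega)
  have hs3 : ∀ l, l ≠ i → Λ * PSB_s m ε j l ≤ PSB_s m ε j i := by
    intro l hl
    by_cases hlj : (l : ℕ) < j
    · have h1 : PSB_s m ε j l = σ := by
        unfold PSB_s
        rw [if_pos hlj, ← hΛ, hσ]
      rw [h1]
      exact hs2
    · have h1 : PSB_s m ε j l = ε / Λ ^ ((l : ℕ) + 1) := by
        unfold PSB_s
        rw [if_neg hlj, ← hΛ]
      rw [h1, hmul, hsi]
      apply hpow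
      have h2 : (l : ℕ) ≠ j := fun h => hl (Fin.ext h)
      omega
  have hjm : (j : ℝ) ≤ m + 1 := by exact_mod_cast hj.le
  have hj0 : (0 : ℝ) ≤ j := Nat.cast_nonneg j
  have hm0 : (0 : ℝ) ≤ m := Nat.cast_nonneg m
  have ht0 : 0 ≤ (45 * ((m : ℝ) + 1) + 22 * j) / Λ := by positivity
  have hnt : ((m + 1 : ℕ) : ℝ) * ((45 * ((m : ℝ) + 1) + 22 * j) / Λ) ≤ 1 / 100 := by
    rw [← mul_div_assoc, div_le_iff₀ hΛ0]
    push_cast
    nlinarith
  obtain ⟨hp1, hp2, -⟩ := hPAT m
  have hcl := hI.cl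
  rw [← hΛ] at hcl
  obtain ⟨F', hb, hu1, hu2, hq1, hq2, hc, hE1, hE2⟩ := hRND (m + 1) (by omega) F hI.bas hI.small i
    (PSB_s m ε j) σ hσ0 hs1 (by rw [← hΛ]; exact hs2) (by rw [← hΛ]; exact hs3)
    (PSB_D m D j) _ (PSB_near hPAT hD j) ht0 hnt hcl (pat m i) (hp1 i).1 (hp1 i).2
    (by
      intro l hl
      have h1 := hp2 i l (Ne.symm hl)
      rw [abs_of_nonneg h1.1]
      exact h1.2)
  rw [← hΛ] at hq1 hE1 hE2
  push_cast at hE1
  have hq0 : 0 < F.q := hI.bas.q_pos
  have hq3 : 4 * F.q ≤ F'.q := by nlinarith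
  have hratio : PSB_s m ε j i / σ = Λ ^ (m + 1 - j) := by
    rw [hsi, hσ]
    have h1 : Λ ^ (m + 2) = Λ ^ (m + 1 - j) * Λ ^ (j + 1) := by
      rw [← pow_add]
      congr 1
      omega
    rw [h1]
    field_simp
  rw [hratio] at hq2
  refine ⟨F', hb, ?_, ?_, ?_, ?_, ?_, ?_, ?_, ?_⟩
  · intro k
    rw [← hΛ]
    by_cases hk : k = i
    · rw [hk, hu1]
      exact hq1
    · rw [hu2 k hk]
      have h1 := hI.small k
      rw [← hΛ] at h1
      linarith
  · intro k hk
    have hne : ∀ l : Fin (m + 1), l < k → F'.u l = F.u l := by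
      intro l hl
      apply hu2
      intro h
      rw [h] at hl
      have h1 : (i : ℕ) < (k : ℕ) := hl
      omega
    have hsum : ∑ l ∈ univ.filter (· < k), F'.u l = ∑ l ∈ univ.filter (· < k), F.u l := by
      apply Finset.sum_congr rfl
      intro l hl
      exact hne l (Finset.mem_filter.mp hl).2
    rw [hsum]
    by_cases hki : k = i
    · rw [hki, hu1]
      have h1 : univ.filter (· < i) = univ.filter (fun l : Fin (m + 1) => (l : ℕ) < j) := by
        apply Finset.filter_congr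
        intro l _
        exact Iff.rfl
      rw [h1]
      have h2 := hI.half
      linarith
    · rw [hu2 k hki]
      apply hI.sup
      have h1 : (k : ℕ) ≠ j := fun h => hki (Fin.ext h)
      omega
  · have h1 : univ.filter (fun l : Fin (m + 1) => (l : ℕ) < j + 1) =
        insert i (univ.filter (fun l : Fin (m + 1) => (l : ℕ) < j)) := by
      ext l
      simp only [Finset.mem_filter, Finset.mem_univ, true_and, Finset.mem_insert]
      constructor
      · intro hl
        by_cases hlj : (l : ℕ) = j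
        · exact Or.inl (Fin.ext hlj)
        · right
          omega
      · rintro (h | h)
        · rw [h, hival]
          omega
        · omega
    rw [h1, Finset.sum_insert (by
      rw [Finset.mem_filter]
      rintro ⟨-, h⟩
      rw [hival] at h
      exact lt_irrefl _ h), hu1]
    have h2 : ∑ l ∈ univ.filter (fun l : Fin (m + 1) => (l : ℕ) < j), F'.u l =
        ∑ l ∈ univ.filter (fun l : Fin (m + 1) => (l : ℕ) < j), F.u l := by
      apply Finset.sum_congr rfl
      intro l hl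
      apply hu2
      intro h
      have h3 := (Finset.mem_filter.mp hl).2
      rw [h, hival] at h3
      exact lt_irrefl _ h3
    rw [h2]
    have h3 := hI.half
    linarith
  · have h1 : PSB_e m (j + 1) = (m + 1 - j) + PSB_e m j := by
      unfold PSB_e
      rw [Finset.sum_range_succ, add_comm]
    rw [h1, ← hΛ]
    have h2 := hI.up
    rw [← hΛ] at h2
    calc F'.q ≤ 3 * Λ ^ (m + 1 - j) * F.q := hq2
      _ ≤ 3 * Λ ^ (m + 1 - j) * (3 ^ j * Λ ^ (PSB_e m j) * F0.q) :=
          mul_le_mul_of_nonneg_left h2 (by positivity)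
      _ = 3 ^ (j + 1) * Λ ^ (m + 1 - j + PSB_e m j) * F0.q := by
          rw [pow_add, pow_succ]
          ring
  · have h1 := hI.lo
    linarith
  · intro _
    have h1 := hI.lo
    linarith
  · intro l
    rw [← hΛ, ← hσ]
    have h1 := hc l
    have h2 := hI.ctr l
    rw [← hΛ, ← hσ] at h2
    have h3 : 8 * σ / F.q ≤ 8 * σ / F0.q :=
      div_le_div_of_nonneg_left (by positivity) hF0 hI.lo
    have h4 : F'.ctr l - F0.ctr l = (F'.ctr l - F.ctr l) + (F.ctr l - F0.ctr l) := by ring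
    rw [h4]
    refine (abs_add_le _ _).trans ?_
    have h5 : 8 * ((j + 1 : ℕ) : ℝ) * σ / F0.q = 8 * σ / F0.q + 8 * j * σ / F0.q := by
      push_cast
      ring
    rw [h5]
    linarith
  · intro k l
    rw [← hΛ]
    by_cases hk : k = i
    · have h1 : PSB_s m ε (j + 1) k = σ := by
        unfold PSB_s
        rw [hk, if_pos (by rw [hival]; omega), ← hΛ, hσ]
      have h2 : PSB_D m D (j + 1) k = pat m i := by
        unfold PSB_D
        rw [hk, if_pos (by rw [hival]; omega)]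
      rw [h1, h2, hk]
      refine (hE1 l).trans ?_
      apply mul_le_mul_of_nonneg_right _ hσ0.le
      apply div_le_div_of_nonneg_right _ hΛ0.le
      push_cast
      linarith
    · have hkj : (k : ℕ) ≠ j := fun h => hk (Fin.ext h)
      have h1 : PSB_s m ε (j + 1) k = PSB_s m ε j k := by
        unfold PSB_s
        by_cases h : (k : ℕ) < j
        · rw [if_pos h, if_pos (by omega)]
        · rw [if_neg h, if_neg (by omega)]
      have h2 : PSB_D m D (j + 1) k = PSB_D m D j k := by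
        unfold PSB_D
        by_cases h : (k : ℕ) < j
        · rw [if_pos h, if_pos (by omega)]
        · rw [if_neg h, if_neg (by omega)]
      rw [h1, h2]
      have h3 := hE2 k hk l
      have h4 := hcl k l
      have h5 : F'.E k l - PSB_s m ε j k * PSB_D m D j k l =
          (F'.E k l - F.E k l) + (F.E k l - PSB_s m ε j k * PSB_D m D j k l) := by ring
      rw [h5]
      refine (abs_add_le _ _).trans ?_
      have h6 : (45 * ((m : ℝ) + 1) + 22 * ((j + 1 : ℕ) : ℝ)) / Λ * PSB_s m ε j k =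
          22 / Λ * PSB_s m ε j k + (45 * ((m : ℝ) + 1) + 22 * j) / Λ * PSB_s m ε j k := by
        push_cast
        ring
      rw [h6]
      linarith

theorem p_PSB (hRND : Stmt_RND) (hPAT : Stmt_PAT) (hLNM : Stmt_LNM) : Stmt_PSB := by
  intro m F0 hbas hsmall ε hε D hD hcl
  have hF0 : 0 < F0.q := hbas.q_pos
  obtain ⟨-, hL2, -⟩ := hLNM (m + 1) (by omega)
  have hΛ0 : 0 < L (m + 1) := by linarith
  have hm0 : (0 : ℝ) ≤ m := Nat.cast_nonneg m
  have h0 : PSB_I m F0 ε D 0 F0 := by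
    refine ⟨hbas, hsmall, ?_, ?_, ?_, le_rfl, ?_, ?_, ?_⟩
    · intro k hk
      exact absurd hk (Nat.not_lt_zero _)
    · rw [Finset.filter_false_of_mem (fun l _ => Nat.not_lt_zero _), Finset.sum_empty]
      linarith
    · simp [PSB_e]
    · intro h
      exact absurd h (by norm_num)
    · intro l
      simp
    · intro k l
      have h1 : PSB_s m ε 0 k = ε / L (m + 1) ^ ((k : ℕ) + 1) := by
        unfold PSB_s
        rw [if_neg (Nat.not_lt_zero _)]
      have h2 : PSB_D m D 0 k = D k := by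
        unfold PSB_D
        rw [if_neg (Nat.not_lt_zero _)]
      rw [h1, h2]
      refine (hcl k l).trans ?_
      apply mul_le_mul_of_nonneg_right _ (by positivity)
      apply div_le_div_of_nonneg_right _ hΛ0.le
      push_cast
      linarith
  have hall : ∀ j, j ≤ m + 1 → ∃ F', PSB_I m F0 ε D j F' := by
    intro j
    induction j with
    | zero => exact fun _ => ⟨F0, h0⟩
    | succ j ih =>
      intro hj
      obtain ⟨F, hF⟩ := ih (by omega)
      exact PSB_step hRND hPAT hLNM hF0 hε hD (by omega) hF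
  obtain ⟨F, hF⟩ := hall (m + 1) le_rfl
  refine ⟨F, hF.bas, hF.small, fun k => hF.sup k k.2, hF.lo4 (by omega), ?_, ?_, ?_⟩
  · have h1 := hF.up
    rw [PSB_e_top] at h1
    exact h1
  · intro l
    have h1 := hF.ctr l
    push_cast at h1
    exact h1
  · intro k l
    have h1 := hF.cl k l
    have h2 : PSB_s m ε (m + 1) k = ε / L (m + 1) ^ (m + 2) := by
      unfold PSB_s
      rw [if_pos k.2]
    have h3 : PSB_D m D (m + 1) k = pat m k := by
      unfold PSB_D
      rw [if_pos k.2]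
    rw [h2, h3] at h1
    refine h1.trans ?_
    apply mul_le_mul_of_nonneg_right _ (by positivity)
    apply div_le_div_of_nonneg_right _ hΛ0.le
    push_cast
    linarith

end Pool.LD
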