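import Pool.Agent.Work.MP_7453a1_nt_norm.Frame

set_option autoImplicit false

/-!
# Best simultaneous approximations in all dimensions: frames

`m = 1`, sup norm on `ℝⁿ`.  A frame consists of integer points `v, f 1, …, f n` of `ℤ × ℤⁿ` such that the
integer points are the halves of the combinations `a v + ∑ b_k f_k` with `a ≡ b_k` modulo 2.
`ctr = p(v) / q(v)` is the point of `ℝⁿ` for which the error of `v` vanishes, `E k` is the error vector of
`f k` with respect to this point, `u k` the denominator of `f k`, `q` that of `v`.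
-/

namespace Pool.LD

open Finset

/-- Integer points `(q, p)`. -/
abbrev Pt (n : ℕ) : Type := ℤ × (Fin n → ℤ)

/-- The error vector `q Θ - p`. -/
noncomputable def er {n : ℕ} (Θ : Fin n → ℝ) (w : Pt n) : Fin n → ℝ :=
  fun l => (w.1 : ℝ) * Θ l - (w.2 l : ℝ)

/-- A frame. -/
structure Fr (n : ℕ) where
  v : Pt n
  f : Fin n → Pt n

namespace Fr

variable {n : ℕ}

/-- the denominator of `v` -/
def q (F : Fr n) : ℝ := (F.v.1 : ℝ)

/-- the denominator of `f k` -/
def u (F : Fr n) (k : Fin n) : ℝ := ((F.f k).1 : ℝ)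

/-- the centre `p(v) / q(v)` -/
noncomputable def ctr (F : Fr n) : Fin n → ℝ := fun l => (F.v.2 l : ℝ) / (F.v.1 : ℝ)

/-- the error of `f k` for the centre: `E k l` is its `l`-th coordinate -/
noncomputable def E (F : Fr n) (k : Fin n) : Fin n → ℝ := er F.ctr (F.f k)

/-- the next frame: `v' = 2 r v - (f i + 2 ∑ c_l f_l)`, `f i' = v` -/
def nxt (F : Fr n) (i : Fin n) (r : ℤ) (c : Fin n → ℤ) : Fr n where
  v := (2 * r) • F.v - (F.f i + ∑ l, (2 * c l) • F.f l)
  f := Function.update F.f i F.v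

/-- the integer points are the halves of the combinations with coefficients congruent modulo 2 -/
def Good (F : Fr n) : Prop :=
  (∃ h : Pt n, h + h = F.v + ∑ k, F.f k) ∧
  ∀ z : Pt n, ∃ (a : ℤ) (b : Fin n → ℤ), (∀ k, (2 : ℤ) ∣ b k - a) ∧
    z + z = a • F.v + ∑ k, b k • F.f k

/-- basic conditions -/
structure Bas (F : Fr n) : Prop where
  good : F.Good
  qp : 0 < F.v.1
  u0 : ∀ k, 0 ≤ (F.f k).1
  uq : ∀ k, (F.f k).1 ≤ F.v.1

/-- the error of `f k` is `s k • D k` up to `t * s k` -/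
def Cl (F : Fr n) (s : Fin n → ℝ) (D : Fin n → Fin n → ℝ) (t : ℝ) : Prop :=
  ∀ k l, |F.E k l - s k * D k l| ≤ t * s k

theorem Bas.q_pos {F : Fr n} (h : F.Bas) : 0 < F.q := by
  unfold q
  exact_mod_cast h.qp

theorem Bas.u_nonneg {F : Fr n} (h : F.Bas) (k : Fin n) : 0 ≤ F.u k := by
  unfold u
  exact_mod_cast h.u0 k

theorem Bas.u_le {F : Fr n} (h : F.Bas) (k : Fin n) : F.u k ≤ F.q := by
  unfold u q
  exact_mod_cast h.uq k

end Fr

/-- the large number `Λ = 10000 · 4ⁿ` -/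
noncomputable def L (n : ℕ) : ℝ := 10000 * 4 ^ n

/-- near-diagonal: the columns `D k` are near the coordinate axes; `a` bounds the row sums -/
structure Near {n : ℕ} (a : ℝ) (D : Fin n → Fin n → ℝ) : Prop where
  dl : ∀ k, 9 / 10 ≤ D k k
  du : ∀ k, D k k ≤ 3 / 2
  off : ∀ l, ∑ k ∈ univ.erase l, |D k l| ≤ a

/-- the pattern: column `k`, coordinate `l`.  The last axis is special. -/
noncomputable def pat (m : ℕ) (k l : Fin (m + 1)) : ℝ :=
  if k = Fin.last m then (if l = Fin.last m then 7 / 5 else 0)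
  else if l = k then 1
  else if l = Fin.last m then 3 ^ ((k : ℕ) + 1) / (10 * 3 ^ (m + 1)) else 0

/-- input of a stage -/
structure Loose {n : ℕ} (F : Fr n) (ε : ℝ) : Prop where
  bas : F.Bas
  pos : 0 < ε
  dl : ∀ k, 9 / 10 * ε ≤ F.E k k
  du : ∀ k, F.E k k ≤ 3 / 2 * ε
  off : ∀ l, ∑ k ∈ univ.erase l, |F.E k l| ≤ ε / 10

/-- output of a stage: `2 ^ m` of the points `(v + ∑ ± f k) / 2` will be best approximations -/
structure Tight (m : ℕ) (F : Fr (m + 1)) (ε : ℝ) : Prop where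
  bas : F.Bas
  pos : 0 < ε
  small : ∀ k, L (m + 1) * F.u k ≤ 3 * F.q
  sup : ∀ k, ∑ l ∈ univ.filter (· < k), F.u l < F.u k
  cl : F.Cl (fun _ => ε) (pat m) (70 * (m + 1) / L (m + 1))

/-- the growth of the denominators in one stage -/
noncomputable def KK (m : ℕ) : ℝ := 3 ^ (m + 1) * L (m + 1) ^ ((m + 1) * (m + 2))

/-- `Θ` is near the centre -/
def Clo (m : ℕ) (F : Fr (m + 1)) (ε : ℝ) (Θ : Fin (m + 1) → ℝ) : Prop :=
  ∀ l, |Θ l - F.ctr l| ≤ 4 * (m + 1) * ε / (L (m + 1) * F.q)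

/-- sign vectors -/
def Sg {n : ℕ} (σ : Fin n → ℤ) : Prop := ∀ k, σ k = 1 ∨ σ k = -1

end Pool.LD
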