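import Pool.Agent.Work.MP_7453a1_ld.Interface

set_option autoImplicit false

/-! # The theorem from LAG and FIN (to be moved to Results) -/

namespace Pool.LD

open Pool.Agent.Work.MP_7453a1_nt_norm

theorem handIn (hLAG : Stmt_LAG) (hFIN : Stmt_FIN) (n : ℕ) (hn : 1 ≤ n) :
    (∀ N : Seminorm ℝ (Fin n → ℝ), IsNorm N →
      ENNReal.ofReal (3 ^ (1 / (2 : ℝ) ^ (n + 1))) ≤ g N) ∧
    g (normSeminorm ℝ (Fin n → ℝ)) ≤ ENNReal.ofReal (Real.exp (50 * (n : ℝ) ^ 3 / 2 ^ n)) ∧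
    ∃ Θ : Fin n → ℝ, Admissible Θ ∧
      G (normSeminorm ℝ (Fin n → ℝ)) Θ ≤ ENNReal.ofReal (Real.exp (50 * (n : ℝ) ^ 3 / 2 ^ n)) := by
  obtain ⟨Θ, h1, h2⟩ := hFIN n hn
  exact ⟨hLAG n hn, (iInf₂_le Θ h1).trans h2, Θ, h1, h2⟩

end Pool.LD
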