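import Pool.Agent.Work.MP_7453a1_ld.Defs

set_option autoImplicit false

/-!
# Sup norm in all dimensions: interface (helper85)

THEOREM.  `3 ^ (1 / 2 ^ (n + 1)) ≤ g N` for every norm `N` on `ℝⁿ` (Lagarias), and for the sup norm
`g ≤ exp (50 n ^ 3 / 2 ^ n)` (new).

The file of block `X` is `Pool/Agent/Work/MP_7453a1_ld/B_X.lean`: `import` this file, `namespace Pool.LD`,
`theorem p_X (hA : Stmt_A) (hB : Stmt_B) .. : Stmt_X` with exactly the blocks of the column `uses` as hypotheses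
in that order; auxiliary lemmas have the prefix `X_`.

Throughout `Λ = L n = 10000 · 4 ^ n`.  A STAGE consists of `2 n` steps `F ↦ F.nxt i r c`.  In the first half (SCL, PSA) the
sizes of the error vectors `E k` become `ε / Λ ^ (k + 1)` (directions unchanged), in the second half (RND, PSB) they all
become `ε / Λ ^ (n + 1)` and the directions are corrected by integer multiples of the other (much smaller) vectors, so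
that they agree with the pattern `pat` up to `O(n / Λ)`.
-/

namespace Pool.LD

open Finset Filter
open Pool.Agent.Work.MP_7453a1_nt_norm (IsNorm IsBest IsBestDenominator Admissible)

/-! ## 1. One step -/

/-- **STP** (80 lines), uses nothing.  The formulas of a step, `Eg l = E i l + 2 ∑ c_k E k l`, `q'` = the new `q`.
`er (ctr) v = 0` as `q ≠ 0`, `er` is additive in the point, and `er (Θ + d) w l = er Θ w l + w.1 * d l`.  First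
`ctr' = ctr + Eg / q'`: for every point `w`, `w.2 l = w.1 * ctr l - er ctr w l`; for `w = v'` the error is `- Eg l`. -/
def Stmt_STP : Prop :=
  ∀ (n : ℕ) (F : Fr n) (i : Fin n) (r : ℤ) (c : Fin n → ℤ), F.q ≠ 0 → (F.nxt i r c).q ≠ 0 →
    (F.nxt i r c).q = 2 * r * F.q - (F.u i + ∑ k, 2 * (c k : ℝ) * F.u k) ∧
    (F.nxt i r c).u i = F.q ∧ (∀ k, k ≠ i → (F.nxt i r c).u k = F.u k) ∧
    (∀ l, (F.nxt i r c).ctr l =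
      F.ctr l + (F.E i l + ∑ k, 2 * (c k : ℝ) * F.E k l) / (F.nxt i r c).q) ∧
    (∀ l, (F.nxt i r c).E i l =
      F.q * (F.E i l + ∑ k, 2 * (c k : ℝ) * F.E k l) / (F.nxt i r c).q) ∧
    ∀ k, k ≠ i → ∀ l, (F.nxt i r c).E k l =
      F.E k l + F.u k * (F.E i l + ∑ k', 2 * (c k' : ℝ) * F.E k' l) / (F.nxt i r c).q

/-- **GOD** (80 lines), uses nothing.  `Good` is preserved if `c i = 0`.  `∑ f' k = ∑ f k - f i + v`; half sum: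
`h' = h - f i + r v - ∑ c_l f_l`.  If `z + z = a v + ∑ b_k f_k`, then with `f i = 2 r v - v' - 2 ∑ c_l f_l`:
`a' = - b_i`, `b'_i = a + 2 r b_i`, `b'_l = b_l - 2 c_l b_i` for `l ≠ i`. -/
def Stmt_GOD : Prop :=
  ∀ (n : ℕ) (F : Fr n) (i : Fin n) (r : ℤ) (c : Fin n → ℤ), c i = 0 → F.Good → (F.nxt i r c).Good

/-- **LNM** (60 lines), uses nothing.  Numbers.  `n ^ 2 * 3 ^ n ≤ 7 * 4 ^ n`: `n ≤ 7` by computation, then induction;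
`4 * n ^ 2 ≤ 4 ^ n` for `n ≥ 1`. -/
def Stmt_LNM : Prop :=
  ∀ n : ℕ, 1 ≤ n → 40000 * (n : ℝ) ^ 2 ≤ L n ∧ 10000 ≤ L n ∧ 1400 * (n : ℝ) ^ 2 * 3 ^ n ≤ L n

/-- **LIN** (150 lines), uses nothing.  Linear algebra.  The matrix `A l k = D k l` (`k ≠ i`), `A l i = - p l` has
`∑_{k ≠ l} |A l k| < |A l l|` (`det_ne_zero_of_sum_row_lt_diag`), so `A w = - D i` has a solution; `y k = w k` (`k ≠ i`),
`y i = 0`, `x = w i`.  Let `Y = max |w l|`.  If it is attained at `l ≠ i`: `4/5 Y ≤ 4/25 max 1 Y + 1/20 Y` (the row sum `4/25`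
contains the entry `D i l` with coefficient `1`), so `Y < 1`; if it is attained at `i`: `Y ≤ 8/5 + 4/25 Y`.  So `Y ≤ 2`.  The
same for `Y' = max_{l ≠ i} |w l|`: `4/5 Y' ≤ 4/25 max 1 Y' + 1/20 * 2`, so `Y' < 1`.  Row `i`: `x p i ≥ 4/5 - 4/25 Y'`, so
`x ≥ 16/25 * 5/7 ≥ 2/5`. -/
def Stmt_LIN : Prop :=
  ∀ (n : ℕ) (i : Fin n) (D : Fin n → Fin n → ℝ) (p : Fin n → ℝ),
    (∀ l, 4 / 5 ≤ D l l) → D i i ≤ 8 / 5 → (∀ l, ∑ k ∈ univ.erase l, |D k l| ≤ 4 / 25) →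
    1 ≤ p i → p i ≤ 7 / 5 → (∀ l, l ≠ i → |p l| ≤ 1 / 20) →
    ∃ (y : Fin n → ℝ) (x : ℝ), y i = 0 ∧ (∀ l, |y l| ≤ 2) ∧ 2 / 5 ≤ x ∧ x ≤ 2 ∧
      ∀ l, D i l + ∑ k, y k * D k l = x * p l

/-- **SCL** (200 lines), uses STP GOD LNM.  The scaling step: `F' = F.nxt i r 0`, `2 r = Λ ^ e` (`Λ` is an even integer).
`q' = Λ ^ e q - u i`, so `(Λ ^ e - 1) q ≤ q' ≤ Λ ^ e q`.  `|E i l| ≤ 8/5 s i` (entries of `D` are at most `3/2`).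
`k ≠ i`: the change of `E k` is at most `u k * (8/5) s i / q' ≤ 1.61 u k (s i / Λ ^ e) / q ≤ 5 s k / Λ`.  `E' i = (q / q') E i` and
`q / q' = Λ ^ (-e) (1 + δ)`, `0 ≤ δ ≤ 1.01 / Λ`: `|E' i l - s' D i l| ≤ (1 + δ) s' t + δ s' |D i l| ≤ s' (t + 2 / Λ)` with
`s' = s i / Λ ^ e`.  `Bas`: `GOD`, the others from the formulas. -/
def Stmt_SCL : Prop :=
  ∀ n : ℕ, 1 ≤ n → ∀ F : Fr n, F.Bas → ∀ (i : Fin n) (e : ℕ), 1 ≤ e → ∀ s : Fin n → ℝ,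
    (∀ k, 0 < s k) → (∀ l, l ≠ i → L n * (F.u l * (s i / L n ^ e)) ≤ 3 * (F.q * s l)) →
    ∀ (D : Fin n → Fin n → ℝ) (t : ℝ), Near (3 / 20) D → 0 ≤ t → t ≤ 1 / 100 → F.Cl s D t →
    ∃ F' : Fr n, F'.Bas ∧ F'.u i = F.q ∧ (∀ l, l ≠ i → F'.u l = F.u l) ∧
      L n * F.q ≤ 3 * F'.q ∧ F'.q ≤ L n ^ e * F.q ∧
      (∀ l, |F'.ctr l - F.ctr l| ≤ 2 * s i / (L n ^ e * F.q)) ∧
      F'.Cl (Function.update s i (s i / L n ^ e)) D (t + 7 / L n)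

/-- **RNA** (200 lines), uses LIN LNM.  The choice of the digits (real numbers only).  LIN for the columns
`D' k l = E k l / s k`: `D' l l ≥ 9/10 - t ≥ 4/5`, `D' i i ≤ 3/2 + t ≤ 8/5`, row sums `≤ 3/20 + n t ≤ 4/25`.  It gives `y`, `x`.
`X = x s i`, `γ k = y k s i / s k` (`γ i = 0`): `E i l + ∑ γ k E k l = X p l`.  `c k = round (γ k / 2)` (`round 0 = 0`), so
`|2 c k - γ k| ≤ 1`; the error is at most `∑_{k ≠ i} |E k l| ≤ ∑ 8/5 s k ≤ 8/5 n s i / Λ` (it vanishes for `k = i`).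
`r = round (X / (2 σ))`, `|2 r - X / σ| ≤ 1`.  `|u i + ∑ 2 c k u k| ≤ 3 q / Λ + ∑_{k ≠ i} (2 s i / s k + 1) 3 q / Λ ≤
3 q / Λ + 9 n (s i / σ) q / Λ`; with `X / σ ≥ 2/5 s i / σ ≥ 2/5 Λ`: the last estimate
(`(1 + 3 / Λ) σ / (2/5 s i) + 45/2 n / Λ ≤ 26 n / Λ`). -/
def Stmt_RNA : Prop :=
  ∀ n : ℕ, 1 ≤ n → ∀ (q : ℝ) (u : Fin n → ℝ) (E : Fin n → Fin n → ℝ), 0 < q → (∀ k, 0 ≤ u k) →
    (∀ k, L n * u k ≤ 3 * q) → ∀ (i : Fin n) (s : Fin n → ℝ) (σ : ℝ), 0 < σ → (∀ l, σ ≤ s l) →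
    L n * σ ≤ s i → (∀ l, l ≠ i → L n * s l ≤ s i) →
    ∀ (D : Fin n → Fin n → ℝ) (t : ℝ), Near (3 / 20) D → 0 ≤ t → n * t ≤ 1 / 100 →
    (∀ k l, |E k l - s k * D k l| ≤ t * s k) →
    ∀ p : Fin n → ℝ, 1 ≤ p i → p i ≤ 7 / 5 → (∀ l, l ≠ i → |p l| ≤ 1 / 20) →
    ∃ (r : ℤ) (c : Fin n → ℤ) (X : ℝ), c i = 0 ∧ 2 / 5 * s i ≤ X ∧ X ≤ 2 * s i ∧
      (∀ l, |E i l + ∑ k, 2 * (c k : ℝ) * E k l - X * p l| ≤ 8 / 5 * n * s i / L n) ∧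
      |2 * r * q - (u i + ∑ k, 2 * (c k : ℝ) * u k) - X / σ * q| ≤ 26 * n / L n * (X / σ * q)

/-- **RND** (250 lines), uses STP GOD RNA LNM.  The correcting step: `F' = F.nxt i r c` with the digits of RNA.
`ρ = X / σ ≥ 2/5 Λ`, `q' = ρ q (1 + θ)`, `|θ| ≤ 26 n / Λ ≤ 1/1000`.  So `q' > 0`, `q' ≥ 0.399 (s i / σ) q`, `q' ≤ 3 (s i / σ) q`.
`Eg l = X p l + err`, `|err| ≤ 8/5 n s i / Λ`, so `|Eg l| ≤ 2.81 s i` (`|p l| ≤ 7/5`, `X ≤ 2 s i`).  `ctr`: `|Eg| / q' ≤ 8 σ / q`.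
`k ≠ i`: `|E' k l - E k l| = u k |Eg l| / q' ≤ (3 / Λ) * 7.1 σ ≤ 22 s k / Λ`.  `E' i l = (q / q') Eg l
= (σ / (1 + θ)) (p l + err / X)`, so `|E' i l - σ p l| ≤ σ (1.002 * 26 * 7/5 + 1.002 * 4) n / Λ ≤ 45 n / Λ σ`. -/
def Stmt_RND : Prop :=
  ∀ n : ℕ, 1 ≤ n → ∀ F : Fr n, F.Bas → (∀ k, L n * F.u k ≤ 3 * F.q) →
    ∀ (i : Fin n) (s : Fin n → ℝ) (σ : ℝ), 0 < σ → (∀ l, σ ≤ s l) →
    L n * σ ≤ s i → (∀ l, l ≠ i → L n * s l ≤ s i) →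
    ∀ (D : Fin n → Fin n → ℝ) (t : ℝ), Near (3 / 20) D → 0 ≤ t → n * t ≤ 1 / 100 → F.Cl s D t →
    ∀ p : Fin n → ℝ, 1 ≤ p i → p i ≤ 7 / 5 → (∀ l, l ≠ i → |p l| ≤ 1 / 20) →
    ∃ F' : Fr n, F'.Bas ∧ F'.u i = F.q ∧ (∀ l, l ≠ i → F'.u l = F.u l) ∧
      L n * F.q ≤ 3 * F'.q ∧ F'.q ≤ 3 * (s i / σ) * F.q ∧
      (∀ l, |F'.ctr l - F.ctr l| ≤ 8 * σ / F.q) ∧
      (∀ l, |F'.E i l - σ * p l| ≤ 45 * n / L n * σ) ∧
      ∀ k, k ≠ i → ∀ l, |F'.E k l - F.E k l| ≤ 22 / L n * s k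

/-! ## 2. One stage -/

/-- **PAT** (100 lines), uses nothing.  Elementary facts on the pattern (geometric series). -/
def Stmt_PAT : Prop :=
  ∀ m : ℕ, (∀ k, 1 ≤ pat m k k ∧ pat m k k ≤ 7 / 5) ∧
    (∀ k l, k ≠ l → 0 ≤ pat m k l ∧ pat m k l ≤ 1 / 20) ∧
    (∀ k l, k ≠ l → l ≠ Fin.last m → pat m k l = 0) ∧
    (∀ l, ∑ k ∈ univ.erase l, |pat m k l| ≤ 1 / 20) ∧
    (∀ k, k ≠ Fin.last m → pat m k k = 1) ∧ pat m (Fin.last m) (Fin.last m) = 7 / 5 ∧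
    ∀ k, k ≠ Fin.last m → ∑ l ∈ univ.filter (· < k), pat m l (Fin.last m) +
      3 / (10 * 3 ^ (m + 1)) ≤ pat m k (Fin.last m)

/-- **PSA** (150 lines), uses SCL LNM.  First half of a stage: induction on `j ≤ n`; after `j` steps (axes `0, .., j-1`) the
sizes are `s_j k = ε / Λ ^ (k + 1)` for `k < j`, `ε` for `k ≥ j`, `Λ u k ≤ 3 q` for `k < j`, `q_0 ≤ q_j ≤ Λ ^ (j (j + 1) / 2) q_0`,
the centre has moved by at most `2 j ε / (Λ q_0)`, `Cl` with `t = 7 j / Λ`.  Step `j`: SCL with `i = j`, `e = j + 1`.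
The hypothesis of SCL: `l < j`: `Λ u l ≤ 3 q` and `ε / Λ ^ (j + 1) ≤ s l`; `l > j`: `u l ≤ q` and `Λ (ε / Λ ^ (j + 1)) ≤ ε = s l`. -/
def Stmt_PSA : Prop :=
  ∀ n : ℕ, 1 ≤ n → ∀ F : Fr n, F.Bas → ∀ ε : ℝ, 0 < ε → ∀ D : Fin n → Fin n → ℝ,
    Near (1 / 10) D → F.Cl (fun _ => ε) D 0 →
    ∃ F' : Fr n, F'.Bas ∧ (∀ k, L n * F'.u k ≤ 3 * F'.q) ∧ F.q ≤ F'.q ∧
      F'.q ≤ L n ^ (n * (n + 1) / 2) * F.q ∧
      (∀ l, |F'.ctr l - F.ctr l| ≤ 2 * n * ε / (L n * F.q)) ∧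
      F'.Cl (fun k => ε / L n ^ ((k : ℕ) + 1)) D (7 * n / L n)

/-- **PSB** (250 lines), uses RND PAT LNM.  Second half of a stage, `n = m + 1`, `σ = ε / Λ ^ (m + 2)`: induction on `j ≤ n`;
after `j` steps `s_j k = σ` for `k < j` and `ε / Λ ^ (k + 1)` for `k ≥ j`; `D_j k = pat k` for `k < j` and `D k` for `k ≥ j`
(`Near (3/20)`: add the row sums); `Cl` with `t_j = (45 n + 22 j) / Λ`; `Λ u k ≤ 3 q` for all `k`; for `k < j`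
`∑_{l < k} u l < u k`; `∑_{l < j} u l ≤ q / 2`; `q_j ≤ 3 ^ j Λ ^ (∑_{i < j} (n - i)) q_0`, and `4 q_0 ≤ q_j` if `j ≥ 1`; the centre
has moved by at most `8 j σ / q_0`.  Step `j`: RND with `i = j`, `p = pat j`: `Λ σ ≤ s j`; for `l < j`:
`Λ σ = ε / Λ ^ (m + 1) ≤ ε / Λ ^ (j + 1)`; for `l > j`: `Λ (ε / Λ ^ (l + 1)) ≤ ε / Λ ^ (j + 1)`.  `s j / σ = Λ ^ (n - j)`. -/
def Stmt_PSB : Prop :=
  ∀ (m : ℕ) (F : Fr (m + 1)), F.Bas → (∀ k, L (m + 1) * F.u k ≤ 3 * F.q) → ∀ ε : ℝ, 0 < ε →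
    ∀ D : Fin (m + 1) → Fin (m + 1) → ℝ, Near (1 / 10) D →
    F.Cl (fun k => ε / L (m + 1) ^ ((k : ℕ) + 1)) D (7 * (m + 1) / L (m + 1)) →
    ∃ F' : Fr (m + 1), F'.Bas ∧ (∀ k, L (m + 1) * F'.u k ≤ 3 * F'.q) ∧
      (∀ k, ∑ l ∈ univ.filter (· < k), F'.u l < F'.u k) ∧ 4 * F.q ≤ F'.q ∧
      F'.q ≤ 3 ^ (m + 1) * L (m + 1) ^ ((m + 1) * (m + 2) / 2) * F.q ∧
      (∀ l, |F'.ctr l - F.ctr l| ≤ 8 * (m + 1) * (ε / L (m + 1) ^ (m + 2)) / F.q) ∧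
      F'.Cl (fun _ => ε / L (m + 1) ^ (m + 2)) (pat m) (70 * (m + 1) / L (m + 1))

/-- **STG** (80 lines), uses PSA PSB LNM.  One stage.  `D k l = E k l / ε`, `Cl` with `t = 0`.  PSA, then PSB. -/
def Stmt_STG : Prop :=
  ∀ (m : ℕ) (F : Fr (m + 1)) (ε : ℝ), Loose F ε →
    ∃ F' : Fr (m + 1), Tight m F' (ε / L (m + 1) ^ (m + 2)) ∧ 4 * F.q ≤ F'.q ∧
      F'.q ≤ KK m * F.q ∧ ∀ l, |F'.ctr l - F.ctr l| ≤ 3 * (m + 1) * ε / (L (m + 1) * F.q)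

/-- **TGL** (60 lines), uses PAT LNM.  The output of a stage is an input of a stage (`70 n ^ 2 / Λ ≤ 1/100`). -/
def Stmt_TGL : Prop :=
  ∀ (m : ℕ) (F : Fr (m + 1)) (ε : ℝ), Tight m F ε → Loose F ε

/-- **INI** (60 lines), uses nothing.  The first frame: `v = (2; 1, .., 1)`, `f k = (0; - e_k)`, `ε = 1`; `E k = e_k`.
`v + ∑ f k = 2 (1; 0)`, and for `z = (a; p)`: `z + z = a v + ∑ (a - 2 p_k) f k`. -/
def Stmt_INI : Prop := ∀ m : ℕ, ∃ F : Fr (m + 1), Loose F 1 ∧ F.q = 2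

/-- **SEQ** (120 lines), uses STG TGL INI LNM.  The sequence of frames and its limit.  `ε_s = (Λ ^ (m + 2)) ^ (-s)`;
`|ctr_{s+1} - ctr_s| ≤ 3 n ε_s / (Λ q_s)`, and `ε_{s+1} / q_{s+1} ≤ (1/4) ε_s / q_s`, so the limit `Θ` exists and
`|Θ - ctr_s| ≤ (4/3) 3 n ε_s / (Λ q_s)`. -/
def Stmt_SEQ : Prop :=
  ∀ m : ℕ, ∃ (F : ℕ → Fr (m + 1)) (ε : ℕ → ℝ) (Θ : Fin (m + 1) → ℝ), (F 0).q = 2 ∧
    ∀ s, Tight m (F (s + 1)) (ε (s + 1)) ∧ 4 * (F s).q ≤ (F (s + 1)).q ∧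
      (F (s + 1)).q ≤ KK m * (F s).q ∧ Clo m (F (s + 1)) (ε (s + 1)) Θ

/-! ## 3. The cluster of best approximations of a tight frame -/

/-- **CEA** (80 lines), uses LNM.  The errors with respect to `Θ`: `er Θ w = er ctr w + w.1 (Θ - ctr)`, `er ctr v = 0`,
`u k (4 n ε / (Λ q)) ≤ 12 n ε / Λ ^ 2 ≤ n ε / Λ`. -/
def Stmt_CEA : Prop :=
  ∀ (m : ℕ) (F : Fr (m + 1)) (ε : ℝ) (Θ : Fin (m + 1) → ℝ), Tight m F ε → Clo m F ε Θ →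
    (∀ k l, |er Θ (F.f k) l - ε * pat m k l| ≤ 71 * (m + 1) / L (m + 1) * ε) ∧
    ∀ l, |er Θ F.v l| ≤ 4 * (m + 1) / L (m + 1) * ε

/-- **CEB** (200 lines), uses PAT LNM.  Real numbers: `A k l` = the error of `f k`, `B l` = the error of `v`, `* = last`.
(1) `71 n ^ 2 / Λ ≤ 1/500`.  For `σ k = ± 1`, `σ * = -1`, the coordinate `*` of `B + ∑ σ k A k` is `- R`,
`R = A * * - B * - ∑_{k ≠ *} σ k A k *`, `13/10 ε ≤ R ≤ 3/2 ε`, and all other coordinates are at most `1.01 ε` in absolute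
value.  (2) Let `|b k|` be maximal at `k = k₀`; coordinate `k₀` of `a B + ∑ b k A k` is at least
`|b k₀| (|A k₀ k₀| - ∑_{k ≠ k₀} |A k k₀|) - |a| |B k₀| ≥ 99/100 ε |b k₀| - |a| ε / 1000`. -/
def Stmt_CEB : Prop :=
  ∀ (m : ℕ) (ε : ℝ) (A : Fin (m + 1) → Fin (m + 1) → ℝ) (B : Fin (m + 1) → ℝ), 0 < ε →
    (∀ k l, |A k l - ε * pat m k l| ≤ 71 * (m + 1) / L (m + 1) * ε) →
    (∀ l, |B l| ≤ 4 * (m + 1) / L (m + 1) * ε) →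
    (∀ σ : Fin (m + 1) → ℤ, Sg σ → σ (Fin.last m) = -1 →
      |B (Fin.last m) + ∑ k, (σ k : ℝ) * A k (Fin.last m)| =
        A (Fin.last m) (Fin.last m) - B (Fin.last m) -
          ∑ k ∈ univ.erase (Fin.last m), (σ k : ℝ) * A k (Fin.last m) ∧
      |B (Fin.last m) + ∑ k, (σ k : ℝ) * A k (Fin.last m)| ≤ 3 / 2 * ε ∧
      ∀ l, |B l + ∑ k, (σ k : ℝ) * A k l| ≤
        |B (Fin.last m) + ∑ k, (σ k : ℝ) * A k (Fin.last m)|) ∧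
    (∀ (a : ℤ) (b : Fin (m + 1) → ℤ),
      (∀ l, |(a : ℝ) * B l + ∑ k, (b k : ℝ) * A k l| ≤ 3 / 2 * ε) →
      ∀ k, 99 / 100 * |(b k : ℝ)| ≤ 3 / 2 + |(a : ℝ)| / 1000) ∧
    ∀ k, k ≠ Fin.last m →
      ∑ l ∈ univ.filter (· < k), |A l (Fin.last m)| < A k (Fin.last m)

/-- **ORD** (80 lines), uses nothing.  Comparison of signed sums.  (1) The largest index where `σ` and `σ'` differ.
(2) The difference is `2 w k + ∑_{l < k} (σ' l - σ l) w l ≥ 2 w k - 2 ∑_{l < k} |w l| > 0`. -/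
def Stmt_ORD : Prop :=
  (∀ (n : ℕ) (σ σ' : Fin n → ℤ), σ ≠ σ' → ∃ k, σ k ≠ σ' k ∧ ∀ l, k < l → σ l = σ' l) ∧
  ∀ (n : ℕ) (w : Fin n → ℝ) (σ σ' : Fin n → ℤ) (k : Fin n), Sg σ → Sg σ' →
    ∑ l ∈ univ.filter (· < k), |w l| < w k → (∀ l, k < l → σ l = σ' l) → σ k = -1 → σ' k = 1 →
    ∑ l, (σ l : ℝ) * w l < ∑ l, (σ' l : ℝ) * w l

/-- **CEC** (150 lines), uses CEA CEB LNM.  Classification of the competitors.  `Good`: `z + z = a v + ∑ b k f k`.  CEB (2):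
`99/100 |b k| ≤ 3/2 + |a| / 1000`.  First coordinates: `|a| q ≤ 2 |z.1| + (max |b k|) ∑ u k`, `∑ u k ≤ 3 n q / Λ ≤ q / 10000`,
so `|a| ≤ 1`, `|b k| ≤ 1`.  `a = 0`: all `b k` are even, so `0`, `z = 0`.  `a = ± 1`: all `b k` are odd, so `± 1`. -/
def Stmt_CEC : Prop :=
  ∀ (m : ℕ) (F : Fr (m + 1)) (ε : ℝ) (Θ : Fin (m + 1) → ℝ), Tight m F ε → Clo m F ε Θ →
    ∀ z : Pt (m + 1), 2 * |(z.1 : ℝ)| ≤ 101 / 100 * F.q → (∀ l, 2 * |er Θ z l| ≤ 3 / 2 * ε) →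
    z = 0 ∨ ∃ σ : Fin (m + 1) → ℤ, Sg σ ∧
      (z + z = F.v + ∑ k, σ k • F.f k ∨ -z + -z = F.v + ∑ k, σ k • F.f k)

/-- **CLU** (200 lines), uses CEA CEB ORD CEC LNM.  The points `z = (v + ∑ σ k f k) / 2` (integral by `Good`: subtract `f k` for
`σ k = -1` from the half sum), `σ` with last sign `-1`, are best approximations.  `2 z.1 = q + ∑ σ k u k`,
`|∑ σ k u k| ≤ q / 100`.  The sup norm of `2 er Θ z` is the `R` of CEB.  A competitor `z'` satisfies the hypotheses of CEC, so it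
is `0` or (changing its sign) `z' + z' = v + ∑ σ' k f k`.  If `σ' = σ` then `z' = z`.  Otherwise let `k` be the largest index of
difference.  `σ' k = 1`: ORD for `w = u` gives `z'.1 > z.1 > 0`, a contradiction.  `σ' k = -1`: `k ≠ last`, so `σ' last = -1`, and
ORD for `w l = A l *` (`w last` does not matter) gives a larger error. -/
def Stmt_CLU : Prop :=
  ∀ (m : ℕ) (F : Fr (m + 1)) (ε : ℝ) (Θ : Fin (m + 1) → ℝ), Tight m F ε → Clo m F ε Θ →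
    ∀ σ : Fin (m + 1) → ℤ, Sg σ → σ (Fin.last m) = -1 →
    ∃ z : Pt (m + 1), z + z = F.v + ∑ k, σ k • F.f k ∧ F.q / 4 < z.1 ∧ (z.1 : ℝ) ≤ F.q ∧
      IsBest (normSeminorm ℝ (Fin (m + 1) → ℝ)) Θ z.1 z.2

/-- **CNT** (100 lines), uses CLU ORD.  There are `2 ^ m` sign vectors with last sign `-1`, and `z.1` is injective in
`σ` (ORD with `w = u`). -/
def Stmt_CNT : Prop :=
  ∀ (m : ℕ) (F : Fr (m + 1)) (ε : ℝ) (Θ : Fin (m + 1) → ℝ), Tight m F ε → Clo m F ε Θ →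
    ∃ T : Finset ℕ, 2 ^ m ≤ T.card ∧ ∀ M ∈ T,
      IsBestDenominator (normSeminorm ℝ (Fin (m + 1) → ℝ)) Θ M ∧ F.q / 4 < M ∧ (M : ℝ) ≤ F.q

/-! ## 4. The growth rate -/

/-- **ADM** (50 lines), uses nothing.  If `q Θ = p` with `q ≠ 0` then, for a best approximation `(Q, P)` with `|Q| > |q|`,
the point `(q, p)` has error `0`, so it is `± (Q, P)`, a contradiction. -/
def Stmt_ADM : Prop :=
  ∀ (n : ℕ) (N : Seminorm ℝ (Fin n → ℝ)) (Θ : Fin n → ℝ),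
    {M | IsBestDenominator N Θ M}.Infinite → Admissible Θ

/-- **LIM** (150 lines), uses nothing.  The sets `T s` are disjoint (`Q (s + 1) ≤ Q (s + 2) / 4`), so there are at least `t 2 ^ m`
best denominators `≤ Q t ≤ 2 K ^ t`, and `M_ν ≤ 2 K ^ t` for `ν = t 2 ^ m` (`Nat.nth_lt_of_lt_count`).  Then
`M_ν ^ (1 / ν) ≤ 2 ^ (1 / ν) * K ^ (1 / 2 ^ m)`, which tends to `K ^ (1 / 2 ^ m)` along this subsequence. -/
def Stmt_LIM : Prop :=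
  ∀ (m n : ℕ) (N : Seminorm ℝ (Fin n → ℝ)) (Θ : Fin n → ℝ) (Q : ℕ → ℝ) (K : ℝ), 1 ≤ K →
    Q 0 = 2 → (∀ s, 4 * Q s ≤ Q (s + 1) ∧ Q (s + 1) ≤ K * Q s) →
    (∀ s, ∃ T : Finset ℕ, 2 ^ m ≤ T.card ∧ ∀ M ∈ T,
      IsBestDenominator N Θ M ∧ Q (s + 1) / 4 < M ∧ (M : ℝ) ≤ Q (s + 1)) →
    {M | IsBestDenominator N Θ M}.Infinite ∧
    Pool.Agent.Work.MP_7453a1_nt_norm.G N Θ ≤ ENNReal.ofReal (K ^ (1 / (2 : ℝ) ^ m))

/-- **NUM** (80 lines), uses nothing.  `n = m + 1`: `log KK = n log 3 + n (n + 1) log Λ`, `log 3 ≤ 1.1`,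
`log Λ ≤ 9.3 + 1.4 n`; so `log KK ≤ 25 n ^ 3`. -/
def Stmt_NUM : Prop :=
  ∀ m : ℕ, 1 ≤ KK m ∧ KK m ^ (1 / (2 : ℝ) ^ m) ≤ Real.exp (50 * ((m : ℝ) + 1) ^ 3 / 2 ^ (m + 1))

/-- **LAG** (150 lines), uses nothing.  Lagarias: `frame` of `MP_7453a1_nt_norm/Frame.lean`.  Among `z k, .., z (k + 2 ^ (n + 1))` two,
`z i` and `z j`, `i < j`, are congruent modulo 2; `w = (z j - z i) / 2` has error `< er (z i)`, so `w.1 ≥ (z (i + 1)).1`, and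
`(z j).1 ≥ 2 (z (i + 1)).1 + (z i).1 ≥ 3 (z i).1`.  So `M_{ν + 2 ^ (n + 1)} ≥ 3 M_ν` for `ν ≥ ν₀`, and `le_G_of_growth`. -/
def Stmt_LAG : Prop :=
  ∀ n : ℕ, 1 ≤ n → ∀ N : Seminorm ℝ (Fin n → ℝ), IsNorm N →
    ENNReal.ofReal (3 ^ (1 / (2 : ℝ) ^ (n + 1))) ≤ Pool.Agent.Work.MP_7453a1_nt_norm.g N

/-- **FIN** (60 lines), uses SEQ CNT ADM LIM NUM. -/
def Stmt_FIN : Prop :=
  ∀ n : ℕ, 1 ≤ n → ∃ Θ : Fin n → ℝ, Admissible Θ ∧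
    Pool.Agent.Work.MP_7453a1_nt_norm.G (normSeminorm ℝ (Fin n → ℝ)) Θ ≤
      ENNReal.ofReal (Real.exp (50 * (n : ℝ) ^ 3 / 2 ^ n))

end Pool.LD
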